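import Pool.Agent.H715.TW.Stm

/-!
CHAIN: tower growth along chains (pure arithmetic).
-/

namespace Pool.Agent.H715.TW


private theorem pow_lin (m : ℕ) (hm : 8 ≤ m) : 4 * m + 40 ≤ 2 ^ m := by
  induction m, hm using Nat.le_induction with
  | base => norm_num
  | succ m hm ih => rw [pow_succ]; omega

theorem chain : S_CHAIN := by
  intro n a b hb h1 h2
  have key : ∀ j ≤ n, ∃ i ≤ 2 * j, tower j + 7 ≤ b i := by
    intro j
    induction j with
    | zero =>
      intro _
      exact ⟨0, by omega, by simpa [tower] using hb⟩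
    | succ j ih =>
      intro hj
      obtain ⟨i, hi, hbi⟩ := ih (by omega)
      have ht : 1 ≤ tower j := by
        cases j with
        | zero => simp [tower]
        | succ j => exact Nat.one_le_two_pow
      have hB : 8 ≤ b i := by omega
      have e1 := h1 i (by omega)
      have p1 := pow_lin (b i) hB
      have hA : ∃ i' ≤ 2 * j + 1, b i + 12 ≤ a i' := by
        by_cases hc : b i + 12 ≤ a i
        · exact ⟨i, by omega, hc⟩
        · exact ⟨i + 1, by omega, by omega⟩
      obtain ⟨i', hi', ha⟩ := hA
      have e2 := h2 i' (by omega)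
      have p2 := pow_lin (a i' - 1) (by omega)
      -- `2^(a-1) ≥ 2^(B+11)`
      have p3 : 2 ^ (b i + 11) ≤ 2 ^ (a i' - 1) := Nat.pow_le_pow_right (by norm_num) (by omega)
      have p4 : 2 ^ (b i + 11) = 2048 * 2 ^ (b i) := by rw [pow_add]; norm_num; ring
      have p5 : 2 ^ (tower j) ≤ 2 ^ (b i) := Nat.pow_le_pow_right (by norm_num) (by omega)
      have et : tower (j + 1) = 2 ^ tower j := rfl
      by_cases hc : 2 ^ (b i) + 7 ≤ b i'
      · exact ⟨i', by omega, by omega⟩
      · exact ⟨i' + 1, by omega, by omega⟩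
  exact key n le_rfl

end Pool.Agent.H715.TW
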