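import Pool.Agent.H935.TW.LOC

/-!
CONT: `q`-adic continuity of the norm form.
-/

open Filter Topology

namespace Pool.Agent.H715.TW

open Pool.Agent.H528R2 (Vge Inert Test)
open Pool.Agent.H935.TW (NF cast_Nf norm_rat vge_of_norm)

private theorem norm_of_vge {q : ℕ} [hq : Fact q.Prime] {x : ℚ} {K : ℤ} (h : Vge q K x) :
    ‖(x : ℚ_[q])‖ ≤ (q : ℝ) ^ (-K) := by
  have h1 : (1 : ℝ) < q := by exact_mod_cast hq.out.one_lt
  rcases h with rfl | h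
  · simp only [Rat.cast_zero, norm_zero]
    positivity
  · by_cases hx : x = 0
    · subst hx
      simp only [Rat.cast_zero, norm_zero]
      positivity
    · rw [norm_rat x hx]
      exact zpow_le_zpow_right₀ h1.le (by omega)

theorem cont : S_CONT := by
  intro q a u₀ v₀ w₀ K hq h0
  have : Fact q.Prime := ⟨hq⟩
  have hq1 : (1 : ℝ) < q := by exact_mod_cast hq.one_lt
  set p0 : ℚ_[q] × ℚ_[q] × ℚ_[q] := ((u₀ : ℚ_[q]), (v₀ : ℚ_[q]), (w₀ : ℚ_[q])) with hp0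
  set f : ℚ_[q] × ℚ_[q] × ℚ_[q] → ℚ_[q] := fun p => NF (a : ℚ_[q]) p.1 p.2.1 p.2.2 with hfdef
  have hf : Continuous f := by
    rw [hfdef]
    unfold NF
    fun_prop
  have ef : ∀ u v w : ℚ, f ((u : ℚ_[q]), (v : ℚ_[q]), (w : ℚ_[q])) = ((Nf a u v w : ℚ) : ℚ_[q]) :=
    fun u v w => (cast_Nf a u v w).symm
  have hf0 : f p0 ≠ 0 := by
    rw [hp0, ef]
    exact_mod_cast h0
  have hg : Tendsto (fun p => f p0 / f p - 1) (𝓝 p0) (𝓝 0) := by
    have h1 : Tendsto (fun p => f p0 / f p - 1) (𝓝 p0) (𝓝 (f p0 / f p0 - 1)) :=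
      (tendsto_const_nhds.div hf.continuousAt hf0).sub tendsto_const_nhds
    rwa [div_self hf0, sub_self] at h1
  have e1 : ∀ᶠ p in 𝓝 p0, f p ≠ 0 := hf.continuousAt.eventually_ne hf0
  have hpos : (0 : ℝ) < (q : ℝ) ^ (-K) := by positivity
  have e2 : ∀ᶠ p in 𝓝 p0, ‖f p0 / f p - 1‖ < (q : ℝ) ^ (-K) := by
    have := (Metric.tendsto_nhds.1 hg) _ hpos
    filter_upwards [this] with p hp
    rwa [dist_zero_right] at hp
  obtain ⟨δ, hδ, h⟩ := Metric.eventually_nhds_iff.1 (e1.and e2)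
  obtain ⟨n, hn⟩ := exists_pow_lt_of_lt_one hδ (inv_lt_one_of_one_lt₀ hq1)
  refine ⟨n, fun u v w hu hv hw => ?_⟩
  have hb : ∀ x x₀ : ℚ, Vge q (n : ℤ) (x - x₀) → dist (x : ℚ_[q]) (x₀ : ℚ_[q]) < δ := by
    intro x x₀ hx
    rw [dist_eq_norm]
    have := norm_of_vge hx
    push_cast at this
    refine lt_of_le_of_lt this ?_
    rw [zpow_neg, zpow_natCast, ← inv_pow]
    exact hn
  have hd : dist ((u : ℚ_[q]), (v : ℚ_[q]), (w : ℚ_[q])) p0 < δ := by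
    rw [hp0, Prod.dist_eq, Prod.dist_eq]
    exact max_lt (hb _ _ hu) (max_lt (hb _ _ hv) (hb _ _ hw))
  obtain ⟨h1, h2⟩ := h hd
  rw [ef] at h1 h2
  rw [ef] at h2
  refine ⟨by exact_mod_cast h1, vge_of_norm (q := q) ?_⟩
  push_cast
  exact h2.le

end Pool.Agent.H715.TW
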