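import Pool.Agent.H715.TW.Stm

/-!
CSTEP and DEN: many primes inert in `K` give many primes inert in `L`, and a large denominator.
-/

namespace Pool.Agent.H715.TW

open Pool.Agent.H528R2 (Vge Inert Test val_div val_pow)

private theorem linert_of_wt3 {t : ℕ} (ht : t.Prime) (hw : wt3 t ≠ 0) : LInert t := by
  refine ⟨ht, ?_⟩
  by_contra h
  apply hw
  unfold wt3
  rw [if_neg (by omega), if_neg (by omega)]

/-- type (a): the prime divides `M` or `M'` -/
private theorem claimC (h6 : S_T6s) {M M' : ℤ} (hM : M ≠ 0) (hM' : M' ≠ 0) (hrel : RelL M M')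
    {S : Finset ℕ} (hS : ∀ q ∈ S, q.Prime ∧ q ∣ M.natAbs) {t : ℕ} (ht : t.Prime)
    (hw : wt3 t ≠ 0) (hdvd : rk t ∣ 7 * ∏ q ∈ S, q)
    (hodd : ((dd t ((7 * ∏ q ∈ S, q : ℕ) : ℤ) : ℕ) : ZMod 3) ≠ 0) :
    t ∣ M.natAbs ∨ t ∣ M'.natAbs := by
  by_contra hcon
  push Not at hcon
  obtain ⟨h1, h2⟩ := hcon
  have hFt := Fact.mk ht
  have hL := linert_of_wt3 ht hw
  have ht7 : t ≠ 7 := by
    rintro rfl
    have := hL.2
    omega
  have hprod : (∏ q ∈ S, q) ∣ M.natAbs := by
    refine Finset.prod_primes_dvd _ (fun q hq => (Nat.prime_iff.1 (hS q hq).1)) (fun q hq => (hS q hq).2)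
  have hn1 : ((7 * ∏ q ∈ S, q : ℕ) : ℤ) ≠ 0 := by
    have : (∏ q ∈ S, q) ≠ 0 := Finset.prod_ne_zero_iff.2 fun q hq => (hS q hq).1.ne_zero
    have : (7 * ∏ q ∈ S, q : ℕ) ≠ 0 := by positivity
    exact_mod_cast this
  have hn2 : 7 * M ≠ 0 := mul_ne_zero (by norm_num) hM
  have hn3 : 7 * M' ≠ 0 := mul_ne_zero (by norm_num) hM'
  have nd7 : ¬ t ∣ 7 := fun h => ht7 ((Nat.prime_dvd_prime_iff_eq ht (by norm_num)).1 h)
  have hv1 : padicValInt t ((7 * ∏ q ∈ S, q : ℕ) : ℤ) = 0 := by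
    rw [padicValInt.of_nat]
    apply padicValNat.eq_zero_of_not_dvd
    intro h
    rcases ht.dvd_mul.1 h with h | h
    · exact nd7 h
    · exact h1 (h.trans hprod)
  have hv : ∀ m : ℤ, ¬ t ∣ m.natAbs → padicValInt t (7 * m) = 0 := by
    intro m hm
    unfold padicValInt
    apply padicValNat.eq_zero_of_not_dvd
    intro h
    rw [Int.natAbs_mul] at h
    rcases ht.dvd_mul.1 h with h | h
    · exact nd7 h
    · exact hm h
  have hd1 : (rk t : ℤ) ∣ ((7 * ∏ q ∈ S, q : ℕ) : ℤ) := by exact_mod_cast hdvd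
  have hd2 : (rk t : ℤ) ∣ 7 * M := by
    have h3 : (7 * ∏ q ∈ S, q) ∣ (7 * M).natAbs := by
      rw [Int.natAbs_mul]
      exact Nat.mul_dvd_mul_left 7 hprod
    exact Int.natCast_dvd.2 (hdvd.trans h3)
  have e1 := dd_eq ht hn1 hd1
  have e2 := dd_eq ht hn2 hd2
  rw [hv1] at e1
  rw [hv M h1] at e2
  have e12 : dd t (7 * M) = dd t ((7 * ∏ q ∈ S, q : ℕ) : ℤ) := by omega
  rw [← e12] at hodd
  have hodd' : ¬ (3 : ℤ) ∣ (dd t (7 * M) : ℤ) := by
    intro h
    apply hodd
    rw [ZMod.natCast_eq_zero_iff]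
    exact_mod_cast h
  obtain ⟨v1, v2, v3⟩ := val_zz ht hn2 hd2
  have hz := zz_ne0 hn2
  have hy := yy_ne hn2
  have hz' := zz_ne0 hn3
  have hvN : padicValRat t (zz (7 * M) / yy (7 * M)) = dd t (7 * M) := by
    rw [val_div ht hz hy, v1, v2]
    ring
  refine h6 t _ _ hL hrel (by rw [hvN]; exact hodd') (Or.inr ?_)
  rw [val_div ht hz' (pow_ne_zero 2 hz), val_pow ht, v1]
  by_cases hd3 : (rk t : ℤ) ∣ 7 * M'
  · obtain ⟨v1', -, -⟩ := val_zz ht hn3 hd3
    have e3 := dd_eq ht hn3 hd3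
    rw [hv M' h2] at e3
    rw [v1']
    push_cast
    omega
  · rw [dvd_iff ht hn3] at hd3
    push_cast
    omega

/-- the prime given by `S_GL` for a nonempty set of inert primes -/
private theorem pick (hg : S_GL) (hs : S_SUM3) {S : Finset ℕ} (hne : S.Nonempty)
    (hS : ∀ q ∈ S, q.Prime ∧ (q % 8 = 3 ∨ q % 8 = 5)) :
    ∃ t : ℕ, t.Prime ∧ wt3 t ≠ 0 ∧ rk t ∣ 7 * ∏ q ∈ S, q ∧
    (((rk t).primeFactors \ (7 : ℕ).primeFactors = S ∧
        ((dd t ((7 * ∏ q ∈ S, q : ℕ) : ℤ) : ℕ) : ZMod 3) ≠ 0) ∨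
      (t ∈ S ∧ (rk t).primeFactors \ (7 : ℕ).primeFactors = S.erase t)) := by
  have h3 : Fact (Nat.Prime 3) := ⟨Nat.prime_three⟩
  refine hg 3 h3 wt3 7 S (by norm_num) (fun q hq => ⟨(hS q hq).1, fun h => ?_⟩) (hs S hne hS)
  have := (Nat.prime_dvd_prime_iff_eq (hS q hq).1 (by norm_num : Nat.Prime 7)).1 h
  have := (hS q hq).2
  omega

private theorem setT {M : ℤ} : ∀ q ∈ M.natAbs.primeFactors.filter (fun q => q % 8 = 3 ∨ q % 8 = 5),
    (q.Prime ∧ (q % 8 = 3 ∨ q % 8 = 5)) ∧ q ∣ M.natAbs := by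
  intro q hq
  rw [Finset.mem_filter, Nat.mem_primeFactors] at hq
  exact ⟨⟨hq.1.1, hq.2⟩, hq.1.2.1⟩

theorem cstep (hv : S_V2) (hg : S_GL) (hs : S_SUM3) (h6 : S_T6s) : S_CSTEP := by
  classical
  intro M M' hM hM' hrel
  set T : Finset ℕ := M.natAbs.primeFactors.filter (fun q => q % 8 = 3 ∨ q % 8 = 5) with hT
  have hTc : T.card = cK M := rfl
  have hTp : ∀ q ∈ T, (q.Prime ∧ (q % 8 = 3 ∨ q % 8 = 5)) ∧ q ∣ M.natAbs := setT
  set PL : ℤ → Finset ℕ := fun M => M.natAbs.primeFactors.filter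
    (fun q => q ≠ 2 ∧ (q % 7 = 2 ∨ q % 7 = 3 ∨ q % 7 = 4 ∨ q % 7 = 5)) with hPL
  set R : ℕ → Finset ℕ := fun t => (rk t).primeFactors \ (7 : ℕ).primeFactors with hR
  have hcard : (T.powerset.erase ∅).card = 2 ^ cK M - 1 := by
    rw [Finset.card_erase_of_mem (by simp), Finset.card_powerset, hTc]
  have hsub : T.powerset.erase ∅ ⊆
      ((PL M).image R ∪ (PL M').image R) ∪ T.image (fun t => insert t (R t)) := by
    intro S hS
    rw [Finset.mem_erase, Finset.mem_powerset] at hS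
    obtain ⟨hS0, hST⟩ := hS
    obtain ⟨t, ht, hw, hdvd, hcase⟩ := pick hg hs (Finset.nonempty_iff_ne_empty.2 hS0)
      (fun q hq => (hTp q (hST hq)).1)
    have hL := linert_of_wt3 ht hw
    rcases hcase with ⟨h3, h4⟩ | ⟨h3, h4⟩
    · have ht2 : t ≠ 2 := by
        rintro rfl
        have h14 : rk 2 = 14 := hv.2
        rw [h14] at h3
        have h2 : 2 ∈ S := by
          rw [← h3, Finset.mem_sdiff, Nat.mem_primeFactors, Nat.mem_primeFactors]
          exact ⟨⟨Nat.prime_two, by norm_num, by norm_num⟩, by norm_num⟩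
        have := (hTp 2 (hST h2)).1.2
        omega
      rw [Finset.mem_union, Finset.mem_union]
      left
      rcases claimC h6 hM hM' hrel (fun q hq => ⟨(hTp q (hST hq)).1.1, (hTp q (hST hq)).2⟩) ht hw
        hdvd h4 with h5 | h5
      · left
        refine Finset.mem_image.2 ⟨t, ?_, h3⟩
        rw [hPL, Finset.mem_filter, Nat.mem_primeFactors]
        exact ⟨⟨ht, h5, Int.natAbs_ne_zero.2 hM⟩, ht2, hL.2⟩
      · right
        refine Finset.mem_image.2 ⟨t, ?_, h3⟩
        rw [hPL, Finset.mem_filter, Nat.mem_primeFactors]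
        exact ⟨⟨ht, h5, Int.natAbs_ne_zero.2 hM'⟩, ht2, hL.2⟩
    · rw [Finset.mem_union]
      right
      refine Finset.mem_image.2 ⟨t, hST h3, ?_⟩
      show insert t (R t) = S
      rw [show R t = S.erase t from h4, Finset.insert_erase h3]
  have h6 := Finset.card_le_card hsub
  have h7 := Finset.card_union_le ((PL M).image R ∪ (PL M').image R)
    (T.image (fun t => insert t (R t)))
  have h8 := Finset.card_union_le ((PL M).image R) ((PL M').image R)
  have h9 : ((PL M).image R).card ≤ cL M := Finset.card_image_le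
  have h10 : ((PL M').image R).card ≤ cL M' := Finset.card_image_le
  have h11 : (T.image (fun t => insert t (R t))).card ≤ cK M := Finset.card_image_le
  rw [hcard] at h6
  omega

theorem den (hg : S_GL) (hs : S_SUM3) : S_DEN := by
  classical
  intro M hM
  set T : Finset ℕ := M.natAbs.primeFactors.filter (fun q => q % 8 = 3 ∨ q % 8 = 5) with hT
  have hTc : T.card = cK M := rfl
  have hTp : ∀ q ∈ T, (q.Prime ∧ (q % 8 = 3 ∨ q % 8 = 5)) ∧ q ∣ M.natAbs := setT
  set R : ℕ → Finset ℕ := fun t => (rk t).primeFactors \ (7 : ℕ).primeFactors with hR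
  have hcard : (T.powerset.erase ∅).card = 2 ^ cK M - 1 := by
    rw [Finset.card_erase_of_mem (by simp), Finset.card_powerset, hTc]
  have hn2 : 7 * M ≠ 0 := mul_ne_zero (by norm_num) hM
  have hsub : T.powerset.erase ∅ ⊆
      ((zz (7 * M)).den.primeFactors).image R ∪ T.image (fun t => insert t (R t)) := by
    intro S hS
    rw [Finset.mem_erase, Finset.mem_powerset] at hS
    obtain ⟨hS0, hST⟩ := hS
    obtain ⟨t, ht, hw, hdvd, hcase⟩ := pick hg hs (Finset.nonempty_iff_ne_empty.2 hS0)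
      (fun q hq => (hTp q (hST hq)).1)
    rcases hcase with ⟨h3, h4⟩ | ⟨h3, h4⟩
    · have hFt := Fact.mk ht
      have hprod : (∏ q ∈ S, q) ∣ M.natAbs := by
        refine Finset.prod_primes_dvd _ (fun q hq => (Nat.prime_iff.1 (hTp q (hST hq)).1.1))
          (fun q hq => (hTp q (hST hq)).2)
      have hd2 : (rk t : ℤ) ∣ 7 * M := by
        have h3 : (7 * ∏ q ∈ S, q) ∣ (7 * M).natAbs := by
          rw [Int.natAbs_mul]
          exact Nat.mul_dvd_mul_left 7 hprod
        exact Int.natCast_dvd.2 (hdvd.trans h3)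
      rw [Finset.mem_union]
      left
      refine Finset.mem_image.2 ⟨t, ?_, h3⟩
      rw [Nat.mem_primeFactors]
      refine ⟨ht, ?_, (zz (7 * M)).den_nz⟩
      have hneg := (dvd_iff ht hn2).1 hd2
      rw [padicValRat_def] at hneg
      by_contra hcon
      rw [padicValNat.eq_zero_of_not_dvd hcon] at hneg
      have : (0 : ℤ) ≤ padicValInt t (zz (7 * M)).num := by positivity
      omega
    · rw [Finset.mem_union]
      right
      refine Finset.mem_image.2 ⟨t, hST h3, ?_⟩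
      show insert t (R t) = S
      rw [show R t = S.erase t from h4, Finset.insert_erase h3]
  have h6 := Finset.card_le_card hsub
  have h7 := Finset.card_union_le (((zz (7 * M)).den.primeFactors).image R)
    (T.image (fun t => insert t (R t)))
  have h9 : (((zz (7 * M)).den.primeFactors).image R).card ≤ (zz (7 * M)).den.primeFactors.card :=
    Finset.card_image_le
  have h11 : (T.image (fun t => insert t (R t))).card ≤ cK M := Finset.card_image_le
  rw [hcard] at h6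
  omega

end Pool.Agent.H715.TW
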