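import Pool.Agent.H715.TW.Stm

/-!
Copy of helper338's file `Pool/Agent/H338/TW/PR3.lean`, without its local abbreviations.

# PR3 (project TW, helper715): the character sum at `7 j`, `j` odd
-/

set_option autoImplicit false

namespace Pool.Agent.H715.TW.PR3F

open Pool.Agent.H715.TW
open Pool.Agent.H528R2 (Vge Inert Test val_sub vge_int vge_ofNat)


theorem fs (n : ℤ) :
    (Function.support (fun s : {s : ℕ // s.Prime} => wt3 s * ((dd s n : ℕ) : ZMod 3))).Finite := by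
  refine Set.Finite.subset ((finite_dd n).preimage
    (f := fun s : {s : ℕ // s.Prime} => (s : ℕ)) Subtype.val_injective.injOn) ?_
  intro s hs
  rw [Function.mem_support] at hs
  refine ⟨s.2, fun h => hs ?_⟩
  rw [h]
  simp

theorem dd7 (hc : S_COP) (s : ℕ) (hs : s.Prime) : dd s 7 = padicValNat s (23192521 : ℕ) := by
  refine hc 7 (-13924563323045888) (23192521 : ℕ) (by norm_num) (by norm_num) ?_ ?_ s hs
  · rw [Int.isCoprime_iff_gcd_eq_one]
    norm_num
  · rw [zz_seven]; norm_num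

theorem dd14 (hc : S_COP) (s : ℕ) (hs : s.Prime) : dd s 14 = padicValNat s (149005239308162429284594392 : ℕ) := by
  refine hc 14 37890323465335790656460495553885874042229136614334787007809 (149005239308162429284594392 : ℕ) (by norm_num)
    (by norm_num) ?_ ?_ s hs
  · rw [Int.isCoprime_iff_gcd_eq_one]
    norm_num
  · rw [zz_fourteen]; norm_num

theorem prw7 (hc : S_COP) (hn : S_CH3N) : prw 3 wt3 7 = 1 := by
  have h := hn (23192521 : ℕ) (by norm_num)
  unfold prw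
  have e : (fun s : {s : ℕ // s.Prime} => wt3 s * ((dd s 7 : ℕ) : ZMod 3)) =
      fun s : {s : ℕ // s.Prime} => wt3 s * ((padicValNat s (23192521 : ℕ) : ℕ) : ZMod 3) := by
    funext s
    rw [dd7 hc s s.2]
  rw [e, h]
  rfl

theorem prw14 (hc : S_COP) (hn : S_CH3N) : prw 3 wt3 14 = 1 := by
  have h := hn (149005239308162429284594392 : ℕ) (by norm_num)
  unfold prw
  have e : (fun s : {s : ℕ // s.Prime} => wt3 s * ((dd s 14 : ℕ) : ZMod 3)) =
      fun s : {s : ℕ // s.Prime} => wt3 s * ((padicValNat s (149005239308162429284594392 : ℕ) : ℕ) : ZMod 3) := by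
    funext s
    rw [dd14 hc s s.2]
  rw [e, h]
  unfold wt3
  norm_num

theorem prw_neg (n : ℤ) : prw 3 wt3 (-n) = prw 3 wt3 n := by
  unfold prw
  congr 1
  funext s
  rw [dd_neg]

/-- the valuations at `2` -/
theorem val2 (hv : S_V2) (hc : S_COP) (j : ℤ) (hj : Odd j) :
    padicValRat 2 (zz 14 - zz (7 * j)) =
      (dd 2 (14 + 7 * j) : ℤ) + (dd 2 (14 - 7 * j) : ℤ) - 2 * (dd 2 14 : ℤ) - 2 * (dd 2 (7 * j) : ℤ) := by
  obtain ⟨k, hk⟩ := hj
  have h2 : Nat.Prime 2 := Nat.prime_two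
  have hr : rk 2 = 14 := hv.2
  have hz : ∀ i : ℤ, Odd i → dd 2 (7 * i) = 0 := by
    rintro i ⟨l, hl⟩
    apply dd_eq_zero h2 (by omega)
    rw [hr]
    push_cast
    omega
  have e1 : dd 2 (14 + 7 * j) = 0 := by
    have : (14 : ℤ) + 7 * j = 7 * (2 + j) := by ring
    rw [this]
    exact hz _ ⟨k + 1, by omega⟩
  have e2 : dd 2 (14 - 7 * j) = 0 := by
    have : (14 : ℤ) - 7 * j = 7 * (2 - j) := by ring
    rw [this]
    exact hz _ ⟨-k, by omega⟩
  have e3 : dd 2 (7 * j) = 0 := hz _ ⟨k, hk⟩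
  have e4 : dd 2 14 = 3 := by
    rw [dd14 hc 2 h2]
    have : (149005239308162429284594392 : ℕ) = 2 ^ 3 * 18625654913520303660574299 := by norm_num
    rw [this, padicValNat.mul (by norm_num) (by norm_num), padicValNat.prime_pow,
      padicValNat.eq_zero_of_not_dvd (by norm_num)]
  have e5 : padicValRat 2 (zz 14) = -6 := by
    have := (val_zz h2 (n := 14) (by norm_num) (by rw [hr]; norm_num)).1
    rw [this, e4]
    norm_num
  have e6 : padicValRat 2 (zz (7 * j)) = 11 := by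
    rw [(hv.1 (7 * j)).1 (by omega)]
    have : 7 * j % 14 = 7 := by omega
    rw [this]
    rfl
  rw [e1, e2, e3, e4]
  have e7 : padicValRat 2 (zz 14 - zz (7 * j)) = padicValRat 2 (zz 14) := by
    refine (val_sub h2 (zz_ne0 (by norm_num)) ?_).2
    right
    rw [e5, e6]
    norm_num
  rw [e7, e5]
  norm_num

theorem val_all (hd : S_DIFF) (hv : S_V2) (hc : S_COP) (j : ℤ) (hj : Odd j) (s : ℕ)
    (hs : s.Prime) :
    padicValRat s (zz 14 - zz (7 * j)) =
      (dd s (14 + 7 * j) : ℤ) + (dd s (14 - 7 * j) : ℤ) - 2 * (dd s 14 : ℤ) - 2 * (dd s (7 * j) : ℤ) := by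
  by_cases h : s = 2
  · subst h
    exact val2 hv hc j hj
  · obtain ⟨k, hk⟩ := hj
    exact hd s 14 (7 * j) hs h (by norm_num) (by omega) (by omega) (by omega)

theorem seven_dvd : Vge 7 1 ((7 : ℤ) : ℚ) := by
  right
  rw [padicValRat.of_int]
  have : padicValInt 7 7 = 1 := by
    have h7 : Fact (Nat.Prime 7) := ⟨by norm_num⟩
    exact_mod_cast padicValInt_self (p := 7)
  rw [this]
  rfl

theorem key (hd : S_DIFF) (hv : S_V2) (hx : S_X7) (hc : S_COP) (h3 : S_CH3) (j : ℤ)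
    (hj : Odd j) :
    prw 3 wt3 (14 + 7 * j) + prw 3 wt3 (14 - 7 * j) - 2 * prw 3 wt3 14 - 2 * prw 3 wt3 (7 * j) =
      if j % 8 = 1 ∨ j % 8 = 7 then 0 else 2 := by
  have h7 : Nat.Prime 7 := by norm_num
  have hsum : prw 3 wt3 (14 + 7 * j) + prw 3 wt3 (14 - 7 * j) - 2 * prw 3 wt3 14 -
      2 * prw 3 wt3 (7 * j) =
      ∑ᶠ s : {s : ℕ // s.Prime}, wt3 s *
        ((padicValRat s (zz 14 - zz (7 * j)) : ℤ) : ZMod 3) := by
    unfold prw
    have f1 := fs (14 + 7 * j)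
    have f2 := fs (14 - 7 * j)
    have f3 := fs 14
    have f4 := fs (7 * j)
    have f3' : (Function.support (fun s : {s : ℕ // s.Prime} =>
        2 * (wt3 s * ((dd s 14 : ℕ) : ZMod 3)))).Finite := by
      refine f3.subset ?_
      intro s hs
      rw [Function.mem_support] at hs ⊢
      intro h
      exact hs (by rw [h, mul_zero])
    have f4' : (Function.support (fun s : {s : ℕ // s.Prime} =>
        2 * (wt3 s * ((dd s (7 * j) : ℕ) : ZMod 3)))).Finite := by
      refine f4.subset ?_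
      intro s hs
      rw [Function.mem_support] at hs ⊢
      intro h
      exact hs (by rw [h, mul_zero])
    rw [mul_finsum' _ 2 f3, mul_finsum' _ 2 f4, ← finsum_add_distrib f1 f2,
      ← finsum_sub_distrib ((f1.union f2).subset (Function.support_add _ _)) f3',
      ← finsum_sub_distrib ((((f1.union f2).subset (Function.support_add _ _)).union f3').subset
        (Function.support_sub _ _)) f4']
    congr 1
    funext s
    rw [val_all hd hv hc j hj s s.2]
    push_cast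
    ring
  rw [hsum]
  obtain ⟨k, hk⟩ := hj
  have a14 : Vge 7 1 (zz 14 - (2 : ℤ)) := by
    have := hx.2 14 (by norm_num)
    exact this
  have hmod : j % 8 = 1 ∨ j % 8 = 7 ∨ j % 8 = 3 ∨ j % 8 = 5 := by omega
  have hnd : ¬ (8 : ℤ) ∣ 7 * j := by omega
  have a7 := hx.2 (7 * j) hnd
  by_cases hcase : j % 8 = 1 ∨ j % 8 = 7
  · rw [if_pos hcase]
    have hval : x7tab (7 * j % 8) = 3 := by
      rcases hcase with h | h
      · have : 7 * j % 8 = 7 := by omega
        rw [this]; rfl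
      · have : 7 * j % 8 = 1 := by omega
        rw [this]; rfl
    rw [hval] at a7
    have hV : Vge 7 1 (zz 14 - zz (7 * j) - ((6 : ℕ) : ℚ)) := by
      have := Vge.sub h7 (Vge.sub h7 a14 a7) seven_dvd
      have e : zz 14 - ((2 : ℤ) : ℚ) - (zz (7 * j) - ((3 : ℤ) : ℚ)) - ((7 : ℤ) : ℚ) =
        zz 14 - zz (7 * j) - ((6 : ℕ) : ℚ) := by push_cast; ring
      rw [← e]
      exact this
    rw [h3 _ 6 (by norm_num) hV]
    rfl
  · rw [if_neg hcase]
    have hval : x7tab (7 * j % 8) = 6 := by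
      rcases hmod with h | h | h | h
      · exact absurd (Or.inl h) hcase
      · exact absurd (Or.inr h) hcase
      · have : 7 * j % 8 = 5 := by omega
        rw [this]; rfl
      · have : 7 * j % 8 = 3 := by omega
        rw [this]; rfl
    rw [hval] at a7
    have hV : Vge 7 1 (zz 14 - zz (7 * j) - ((3 : ℕ) : ℚ)) := by
      have := Vge.sub h7 (Vge.sub h7 a14 a7) seven_dvd
      have e : zz 14 - ((2 : ℤ) : ℚ) - (zz (7 * j) - ((6 : ℤ) : ℚ)) - ((7 : ℤ) : ℚ) =
        zz 14 - zz (7 * j) - ((3 : ℕ) : ℚ) := by push_cast; ring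
      rw [← e]
      exact this
    rw [h3 _ 3 (by norm_num) hV]
    rfl

/-- **PR3** -/
theorem pr3 (hd : S_DIFF) (hv : S_V2) (hx : S_X7) (hc : S_COP) (hn : S_CH3N) (h3 : S_CH3) :
    S_PR3 := by
  -- the recurrence
  have hrec : ∀ j : ℤ, Odd j → prw 3 wt3 (7 * (j + 2)) =
      (if j % 8 = 1 ∨ j % 8 = 7 then 2 else 1) - prw 3 wt3 (7 * j) - prw 3 wt3 (7 * (j - 2)) := by
    intro j hj
    have h := key hd hv hx hc h3 j hj
    rw [prw14 hc hn] at h
    have e1 : (14 : ℤ) + 7 * j = 7 * (j + 2) := by ring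
    have e2 : (14 : ℤ) - 7 * j = -(7 * (j - 2)) := by ring
    rw [e1, e2, prw_neg] at h
    have h3' : (3 : ZMod 3) = 0 := rfl
    have h4 : (if j % 8 = 1 ∨ j % 8 = 7 then (2 : ZMod 3) else 1) =
        (if j % 8 = 1 ∨ j % 8 = 7 then (0 : ZMod 3) else 2) + 2 := by
      split_ifs <;> rfl
    rw [h4, ← h]
    linear_combination (prw 3 wt3 (7 * j)) * h3'
  have hnat : ∀ k : ℕ, prw 3 wt3 (7 * (2 * (k : ℤ) - 1)) =
      (if (2 * (k : ℤ) - 1) % 8 = 1 ∨ (2 * (k : ℤ) - 1) % 8 = 7 then 1 else 0) ∧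
      prw 3 wt3 (7 * (2 * (k : ℤ) + 1)) =
      (if (2 * (k : ℤ) + 1) % 8 = 1 ∨ (2 * (k : ℤ) + 1) % 8 = 7 then 1 else 0) := by
    intro k
    induction k with
    | zero =>
      constructor
      · have : (7 : ℤ) * (2 * ((0 : ℕ) : ℤ) - 1) = -7 := by norm_num
        rw [this, prw_neg, prw7 hc hn]
        rfl
      · have : (7 : ℤ) * (2 * ((0 : ℕ) : ℤ) + 1) = 7 := by norm_num
        rw [this, prw7 hc hn]
        rfl
    | succ k ih =>
      obtain ⟨ih1, ih2⟩ := ih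
      have e1 : (2 : ℤ) * ((k + 1 : ℕ) : ℤ) - 1 = 2 * (k : ℤ) + 1 := by push_cast; ring
      have e2 : (2 : ℤ) * ((k + 1 : ℕ) : ℤ) + 1 = (2 * (k : ℤ) + 1) + 2 := by push_cast; ring
      rw [e1, e2]
      refine ⟨ih2, ?_⟩
      have e3 : (2 * (k : ℤ) + 1) - 2 = 2 * (k : ℤ) - 1 := by ring
      rw [hrec _ ⟨k, rfl⟩, e3, ih1, ih2]
      have hm : k % 4 = 0 ∨ k % 4 = 1 ∨ k % 4 = 2 ∨ k % 4 = 3 := by omega
      rcases hm with h | h | h | h
      · have a1 : (2 * (k : ℤ) + 1) % 8 = 1 := by omega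
        have a2 : (2 * (k : ℤ) - 1) % 8 = 7 := by omega
        have a3 : (2 * (k : ℤ) + 1 + 2) % 8 = 3 := by omega
        rw [a1, a2, a3]; rfl
      · have a1 : (2 * (k : ℤ) + 1) % 8 = 3 := by omega
        have a2 : (2 * (k : ℤ) - 1) % 8 = 1 := by omega
        have a3 : (2 * (k : ℤ) + 1 + 2) % 8 = 5 := by omega
        rw [a1, a2, a3]; rfl
      · have a1 : (2 * (k : ℤ) + 1) % 8 = 5 := by omega
        have a2 : (2 * (k : ℤ) - 1) % 8 = 3 := by omega
        have a3 : (2 * (k : ℤ) + 1 + 2) % 8 = 7 := by omega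
        rw [a1, a2, a3]; rfl
      · have a1 : (2 * (k : ℤ) + 1) % 8 = 7 := by omega
        have a2 : (2 * (k : ℤ) - 1) % 8 = 5 := by omega
        have a3 : (2 * (k : ℤ) + 1 + 2) % 8 = 1 := by omega
        rw [a1, a2, a3]; rfl
  rintro j ⟨k, rfl⟩
  rcases Int.eq_nat_or_neg k with ⟨l, rfl | rfl⟩
  · exact (hnat l).2
  · have h := (hnat l).1
    have e : (7 : ℤ) * (2 * -(l : ℤ) + 1) = -(7 * (2 * (l : ℤ) - 1)) := by ring
    rw [e, prw_neg, h]
    have hm : (2 * (l : ℤ) - 1) % 8 = 1 ∨ (2 * (l : ℤ) - 1) % 8 = 3 ∨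
      (2 * (l : ℤ) - 1) % 8 = 5 ∨ (2 * (l : ℤ) - 1) % 8 = 7 := by omega
    rcases hm with h | h | h | h
    · have a : (2 * -(l : ℤ) + 1) % 8 = 7 := by omega
      rw [h, a]; rfl
    · have a : (2 * -(l : ℤ) + 1) % 8 = 5 := by omega
      rw [h, a]; rfl
    · have a : (2 * -(l : ℤ) + 1) % 8 = 3 := by omega
      rw [h, a]; rfl
    · have a : (2 * -(l : ℤ) + 1) % 8 = 1 := by omega
      rw [h, a]; rfl

end Pool.Agent.H715.TW.PR3F
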