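import Pool.Agent.H715.TW.Stm
import Pool.Graph.R_seed8.H528R2.Diff

/-!
RKNZ: every prime has a rank of apparition.
-/

namespace Pool.Agent.H715.TW

open Pool.Agent.H528R2 (Vge Inert Test gv_sub_of_cast)
open Pool.Agent.H528R2.DB (gv_one_int_iff gv_mul)

theorem rknz (hd : S_DIFF) (hv : S_V2) : S_RKNZ := by
  intro s hs h0
  by_cases h2 : s = 2
  · subst h2
    rw [hv.2] at h0
    norm_num at h0
  have hFs : Fact s.Prime := ⟨hs⟩
  have hnd : ∀ n : ℤ, n ≠ 0 → ¬ (rk s : ℤ) ∣ n := by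
    intro n hn h
    rw [h0] at h
    simp at h
    exact hn h
  have hp : ∀ n : ℤ, n ≠ 0 → 0 ≤ padicValRat s (zz n) := by
    intro n hn
    by_contra hc
    exact hnd n hn ((dvd_iff hs hn).2 (by omega))
  have hdd : ∀ n : ℤ, n ≠ 0 → dd s n = 0 := fun n hn => dd_eq_zero hs hn (hnd n hn)
  -- the map to residues
  let F : Fin (s + 1) → ZMod s := fun i =>
    ((zz ((i : ℕ) + 1 : ℕ)).num : ZMod s) * ((zz ((i : ℕ) + 1 : ℕ)).den : ZMod s)⁻¹
  have hcard : Fintype.card (ZMod s) < Fintype.card (Fin (s + 1)) := by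
    rw [ZMod.card, Fintype.card_fin]; omega
  obtain ⟨i, j, hij, hF⟩ := Fintype.exists_ne_map_eq_of_card_lt F hcard
  have hden : ∀ z : ℚ, 0 ≤ padicValRat s z → (z.den : ZMod s) ≠ 0 := by
    intro z hz hd
    have hdvd : s ∣ z.den := (ZMod.natCast_eq_zero_iff _ s).1 hd
    have hd1 : Vge s 1 ((z.den : ℕ) : ℚ) := by
      have : Vge s 1 (((z.den : ℕ) : ℤ) : ℚ) := gv_one_int_iff.2 (by exact_mod_cast hdvd)
      simpa using this
    have h1 : Vge s 1 ((z.num : ℤ) : ℚ) := by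
      rw [← Rat.mul_den_eq_num z]
      have := gv_mul (s := s) (k := 0) (l := 1) (x := z) (y := (z.den : ℚ)) (Or.inr hz) hd1
      simpa using this
    have h3 : s ∣ z.num.natAbs := Int.natCast_dvd.1 (gv_one_int_iff.1 h1)
    have := Nat.dvd_gcd h3 hdvd
    rw [z.reduced.gcd_eq_one] at this
    exact hs.one_lt.ne' (Nat.dvd_one.1 this)
  have hij' : (i : ℕ) ≠ j := fun h => hij (Fin.ext h)
  have ha : (((i : ℕ) + 1 : ℕ) : ℤ) ≠ 0 := by positivity
  have hb : (((j : ℕ) + 1 : ℕ) : ℤ) ≠ 0 := by positivity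
  have hres : Vge s 1 (zz (((i : ℕ) + 1 : ℕ) : ℤ) - zz (((j : ℕ) + 1 : ℕ) : ℤ)) := by
    have ea := hp _ ha
    have eb := hp _ hb
    have da := hden _ ea
    have db := hden _ eb
    refine gv_sub_of_cast ea eb ?_
    have he : ((zz (((i : ℕ) + 1 : ℕ) : ℤ)).num : ZMod s) * ((zz (((i : ℕ) + 1 : ℕ) : ℤ)).den : ZMod s)⁻¹ =
      ((zz (((j : ℕ) + 1 : ℕ) : ℤ)).num : ZMod s) * ((zz (((j : ℕ) + 1 : ℕ) : ℤ)).den : ZMod s)⁻¹ := hF
    field_simp at he
    linear_combination he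
  have hne : zz (((i : ℕ) + 1 : ℕ) : ℤ) ≠ zz (((j : ℕ) + 1 : ℕ) : ℤ) :=
    zz_ne' ha hb (by omega) (by omega)
  have hval := hd s (((i : ℕ) + 1 : ℕ) : ℤ) (((j : ℕ) + 1 : ℕ) : ℤ) hs h2 ha hb
    (by omega) (by omega)
  rw [hdd _ ha, hdd _ hb, hdd _ (by omega), hdd _ (by omega)] at hval
  have := hres.resolve_left (sub_ne_zero.2 hne)
  omega

end Pool.Agent.H715.TW
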