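import Pool.Agent.H715.TW.Rank

/-!
# Statements of the subtasks of the tower project (MP_28f2cb_lc, helper715)

GOAL: polynomial equations `p_n(x_1..x_N) = 0` of degree `≤ 4` and size `O(n)` whose smallest
rational solution has height at least `2^2^...^2` (a tower of height `n`).

Each `S_X` below is to be proved as a theorem `x : S_X` (or from other `S_Y` as hypotheses
where the docstring says so).  Notation (see `Defs.lean`): `Vge q k x` : `x = 0 ∨ k ≤ v_q(x)`,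
`Inert q` : prime `q ≡ 3, 5 (mod 8)`; `LInert q` : prime `q ≡ 2,3,4,5 (mod 7)`; `Nf a u v w` the norm
form of Shanks's simplest cubic `f_a = X³ - a X² - (a+3) X - 1`; curve
`W : y² = x³ + 105 x² + 2048 x`, `P0 = (-32, 96)`, `zz n`, `yy n` the coordinates of `n • P0`,
`dd s n` the exponent of `s` in the denominator `D_n` (`zz n = A_n / D_n²`), `rk s` the rank of
apparition.  Useful: `H528R2/Val.lean` (lemmas on `Vge`, `val_mul`, `val_add`, ...),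
`TW/CurvePt` (group law in coordinates: `pt_add`, `pt_dbl`, `pt_prod`, `pt_sum`), `TW/ZZ`
(`zz_one ... zz_fourteen`, `zz_ne0`, `yy_ne`, `zz_eq_iff`, `zz_prod_formula`, `zz_sum_formula`,
`sq_even`, `sq_odd`), `TW/Rank` (`dvd_iff`, `val_zz`, `dd_eq`, `dd_eq_zero`, `finite_dd`).
-/

namespace Pool.Agent.H715.TW

open Pool.Agent.H528R2 (Vge Inert Test)

/-! ### Part I: the cubic test -/

/-- T1: valuations of `Nf a` at primes inert in `L` when `a ≡ -1 (mod q)`.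
PROOF. Both sides scale: `Nf a (tu) (tv) (tw) = t³ Nf a u v w`, so after multiplying `u,v,w` by a
power of `q` (which changes the valuation by a multiple of `3`) all of `u, v, w` are `q`-integral and
one of them is a `q`-unit. `a` is `q`-integral. Reduce modulo `q` (clear denominators prime to `q`):
`Nf a u v w ≡ Nf (-1) u v w`, and `Nf (-1) ū v̄ w̄ ≠ 0` in `ZMod q` for `(ū,v̄,w̄) ≠ 0` because
`f₋₁ = X³ + X² - 2X - 1` is irreducible over `ZMod q`: it has degree 3 and no root. (If `c` is a root,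
let `ζ` be a root of `T² - cT + 1` in `F_{q²}`; then `ζ³ f₋₁(ζ + 1/ζ) = 1 + ζ + ... + ζ⁶ = 0`, so
`ζ⁷ = 1`, `ζ ≠ 1` as `q ≠ 7`, hence `7 ∣ q² - 1`, i.e. `q ≡ ±1 (mod 7)`, excluded.) `Nf (-1) u v w` is
the norm of `u + vθ + wθ²` from the field `F_q[θ]/(f₋₁)` (determinant of the multiplication matrix;
or the resultant). So the valuation is `0` after scaling, which is divisible by `3`. -/
def S_T1 : Prop := ∀ (q : ℕ) (a u v w : ℚ), LInert q → Vge q 1 (a + 1) → Nf a u v w ≠ 0 →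
  (3 : ℤ) ∣ padicValRat q (Nf a u v w)

/-- T2: the norms from `L` (conductor `7`, class number `1`), `Nf (-1)` is the norm form of
`ℤ[θ]`, `θ³ + θ² - 2θ - 1 = 0`.
PROOF. The values `≠ 0` of `Nf (-1)` form a subgroup of `ℚˣ` (norms of a field; multiplicativity is
also a polynomial identity: the product of `u+vθ+wθ²` and `u'+v'θ+w'θ²` is `u''+v''θ+w''θ²`; inverse:
`1/N = N²/N³ = Nf`-value of (conjugate product) or use `x⁻¹ = x²·(1/x)³`). It contains `-1 = N(-1)`,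
all cubes `r³ = N(r)`, `7 = f₋₁(2) = N(2-θ)`, so it suffices to show that every prime
`p ≡ ±1 (mod 7)` is a norm. `f₋₁` has a root `c` mod `p` : there is an element `ζ` of order 7 in
`F_{p²}`, `c = ζ + ζ⁻¹` is fixed by Frobenius. The lattice
`Λ = {(u,v,w) ∈ ℤ³ : u + v c + w c² ≡ 0 (mod p)}` has, by the pigeonhole principle on the box
`0 ≤ u,v,w ≤ ⌊p^{1/3}⌋`, a nonzero element with `|u|,|v|,|w| ≤ p^{1/3}`. Then `p ∣ Nf (-1) u v w ≠ 0`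
and `|Nf (-1) u v w| ≤ 21 max³ ≤ 21 p` (sum of the absolute values of the coefficients of `Nf (-1)`
is `21`), so `Nf (-1) u v w = k p` with `1 ≤ |k| ≤ 21`. Since valuations of norms at `2,3,5,11,17,19`
(inert: `≡ 2,3,4,5 mod 7`) are multiples of three (T1, may be assumed: hypothesis `S_T1`),
`|k| ∈ {1, 7, 8, 13}` (`k = 1,7,8=2³,13`; note `p` itself may be `13`: then done similarly, choose
explicit representation), each of which is a norm: `13 = N(...)` explicit, so `p` is a norm.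
You may use `S_T1` as a hypothesis. -/
def S_T2 : Prop := ∀ x : ℚ, x ≠ 0 → (∀ q : ℕ, LInert q → (3 : ℤ) ∣ padicValRat q x) →
  ∃ u v w : ℚ, x = Nf (-1) u v w

/-- T3: if `f_a` has a rational root then `Nf a` represents everything.
PROOF. If `r` is a root then so are `-1/(1+r)` and `-(1+r)/r` (`r ≠ 0, -1` since `f_a(0) = -1`,
`f_a(-1) = 1`), they are distinct since the discriminant is `(a²+3a+9)² ≠ 0`, and
`Nf a u v w = ∏ (u + v rᵢ + w rᵢ²)`. The three linear forms are independent (Vandermonde), so choose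
`(u,v,w)` with values `(N, 1, 1)`. -/
def S_T3 : Prop := ∀ a N : ℚ, N ≠ 0 → (∃ r : ℚ, r ^ 3 - a * r ^ 2 - (a + 3) * r - 1 = 0) →
  ∃ u v w : ℚ, Nf a u v w = N

/-- T4 (class field theory of the cyclic cubic field `E = ℚ[X]/(f_a)`): see the separate
file of subtasks T4*. -/
def S_T4 : Prop := ∀ a : ℚ, (∀ r : ℚ, r ^ 3 - a * r ^ 2 - (a + 3) * r - 1 ≠ 0) →
  ∀ N : ℕ, N ≠ 0 → ∃ N2 : ℕ, N2 ≠ 0 ∧ N ∣ N2 ∧
    ∀ (e1 l : ℕ) (u v w : ℚ), e1 ≠ 0 → l.Prime → ¬ l ∣ N2 →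
      (∀ p : ℕ, p.Prime → p ∣ e1 → p ∣ N2) → 0 < Nf a u v w →
      (∀ p : ℕ, p.Prime → p ∣ N2 →
        Vge p (padicValNat p N2) (((e1 * l : ℕ) : ℚ) / Nf a u v w - 1)) →
      ∃ u' v' w' : ℚ, Nf a u' v' w' = ((e1 * l : ℕ) : ℚ)

/-- LOC: `q`-adic splitting when `v_q(a) < 0`.
PROOF. In `ℤ_q[X]`: `g = f_a / a = X³/a - X² - (1 + 3/a) X - 1/a ≡ -X(X+1) (mod q)` has simple roots
`0, -1` modulo `q`; Hensel (`hensels_lemma` for `ℤ_[q]`) gives roots `ρ₁ ≡ 0`, `ρ₂ ≡ -1` in `ℤ_q`, and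
the third root `a - ρ₁ - ρ₂` has negative valuation, so `f_a` has three distinct roots `ρᵢ` in `ℚ_[q]`
and `Nf a u v w = ∏ (u + v ρᵢ + w ρᵢ²)` over `ℚ_[q]` (a polynomial identity using the elementary
symmetric functions). Choose `(u₀,v₀,w₀) ∈ ℚ_q³` with linear forms equal to `(e,1,1)` (Vandermonde),
so `Nf a u₀ v₀ w₀ = e` in `ℚ_q`; approximate `u₀,v₀,w₀` by rational numbers (density of `ℚ` in
`ℚ_[q]`, continuity of the polynomial), so that `|Nf a u v w - e|` is as small as we like, which gives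
`Nf ≠ 0` and `v_q(e/Nf - 1) ≥ K`. -/
def S_LOC : Prop := ∀ (q : ℕ) (a e : ℚ) (K : ℤ), q.Prime → padicValRat q a < 0 → e ≠ 0 →
  ∃ u v w : ℚ, Nf a u v w ≠ 0 ∧ Vge q K (e / Nf a u v w - 1)

/-- CONT: `q`-adic continuity of the norm form (elementary estimates with `Vge`). -/
def S_CONT : Prop := ∀ (q : ℕ) (a u₀ v₀ w₀ : ℚ) (K : ℤ), q.Prime → Nf a u₀ v₀ w₀ ≠ 0 →
  ∃ L : ℤ, ∀ u v w : ℚ, Vge q L (u - u₀) → Vge q L (v - v₀) → Vge q L (w - w₀) →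
    Nf a u v w ≠ 0 ∧ Vge q K (Nf a u₀ v₀ w₀ / Nf a u v w - 1)

/-- WA: weak approximation at finitely many primes by large rational numbers.
PROOF. Multiply by a common denominator `m` (a product of powers of the `p ∈ P`) to make all `x p`
`p`-integral, replace them by integers modulo `p^{L'}`, CRT, add a large multiple of `∏ p^{L'}`,
divide by `m`. -/
def S_WA : Prop := ∀ (P : Finset ℕ) (x : ℕ → ℚ) (L : ℤ) (B : ℚ), (∀ p ∈ P, p.Prime) →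
  ∃ y : ℚ, B < y ∧ ∀ p ∈ P, Vge p L (y - x p)

/-- T5. Prove `S_T3 → S_T4 → S_LOC → S_CONT → S_WA → S_T5`.
PROOF. If `f_a` has a rational root take `l = 29` and `S_T3`. Otherwise take `N = 7 e1` in `S_T4` and
get `N2`. For `p ∣ N2` put `K_p = v_p(N2) ≥ 1`. For `p ∣ 7 e1` use `S_LOC` with `e = e1` to get
`(u_p,v_p,w_p)` with `e1/Nf ≡ 1` to precision `K_p`; for the other `p ∣ N2` put `(u_p,v_p,w_p) = (1,0,0)`
(`Nf = 1`). By CRT and Dirichlet (`Nat.forall_exists_prime_gt_and_eq_mod` or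
`Nat.infinite_setOf_prime_and_eq_mod`) there is a prime `l > N2` with `l ≡ 1 (mod p^{K_p})` for
`p ∣ 7 e1` and `l ≡ e1⁻¹ (mod p^{K_p})` for the other `p ∣ N2`; in particular `l ≡ 1 (mod 7)`. So
`e1 l / Nf a u_p v_p w_p ≡ 1` to precision `K_p` for all `p ∣ N2`. By `S_WA` choose `v, w` and then
`u` (very large, so that `Nf a u v w > 0`: leading term `u³`) close to `(u_p,v_p,w_p)` for all `p ∣ N2`
as required by `S_CONT`. Apply `S_T4`. -/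
def S_T5 : Prop := ∀ (a : ℚ) (e1 : ℕ), e1 ≠ 0 →
  (∀ q : ℕ, q.Prime → q ∣ 7 * e1 → padicValRat q a < 0) →
  ∃ l : ℕ, l.Prime ∧ l % 7 = 1 ∧ ∃ u v w : ℚ, Nf a u v w = ((e1 * l : ℕ) : ℚ)

/-- T6s: soundness of the cubic test. Prove `S_T1 → S_T6s`.
PROOF. If `Vge q 1 G` then `S_T1` for `a = -1 + G` and for `a = -1` shows that `3` divides the
valuations of `Nf (-1+G) u v w ≠ 0` and of `Nf (-1) u' v' w' ≠ 0`, hence of their quotient `N`. -/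
def S_T6s : Prop := ∀ (q : ℕ) (N G : ℚ), LInert q → TestL N G → ¬ (3 : ℤ) ∣ padicValRat q N →
  ¬ Vge q 1 G

/-- T6c: completeness of the cubic test. Prove `S_T2 → S_T5 → S_T6c`.
PROOF. Let `e1 = ∏ q^{v_q(N) mod 3}` over the (finitely many) `q` inert in `L` with `3 ∤ v_q(N)`, a
natural number. Put `a = -1 + G`; for `q ∣ 7 e1`, `v_q(G) < 0` so `v_q(a) < 0`. By `S_T5`,
`Nf a u v w = e1 l` with `l ≡ 1 (mod 7)`. The number `e1 l / N` has valuation divisible by `3` at every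
`q` inert in `L` (`l` is not inert), so it is `Nf (-1) u' v' w'` by `S_T2`. -/
def S_T6c : Prop := ∀ N G : ℚ, N ≠ 0 →
  (∀ q : ℕ, LInert q → ¬ (3 : ℤ) ∣ padicValRat q N → padicValRat q G < 0) →
  padicValRat 7 G < 0 → TestL N G

/-! ### Part II: the generator theorem -/

/-- HALVE: the explicit `2`-descent (port of library `H703R2/Desc/Halve.lean`, theorem `halve`,
which treats `w² = a⁴ - 2a²d² + 65 d⁴`).
PROOF. `(2a²+105d²)² - (2w)² = 2833 d⁴`, `2833` prime.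
CASE `d` odd: `p± = 2a²+105d² ± 2w` are positive and coprime (a common prime divides `2833 d⁴` (odd),
`4w`, `2(2a²+105d²)`; if it divides `d` it divides `a`; if it is `2833 ∤ d` its square would divide
`2833 d⁴`), with product `2833 d⁴`, so `{p₊,p₋} = {r⁴, 2833 s⁴}`, `rs = d`, `r,s` odd coprime, and
`4a² + 210 r²s² = r⁴ + 2833 s⁴`, i.e. `t² - a² = 2048 s⁴` with `t = (r²-105s²)/2`. Since `r,s` are odd
`4 ∣ t`, hence `4 ∣ a`. The numbers `t+a`, `t-a` have the same sign `ε` (their product is positive), no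
common odd prime factor, and (dividing repeatedly by `2` and working mod 4) their `2`-parts are
`{8,256}`, `{16,128}` or `{32,64}`: `t+a = ε c₁ u⁴`, `t-a = ε c₂ y⁴`, `c₁c₂ = 2048`,
`c₁ ∈ {8,16,32,64,128,256}`, `u,y` odd coprime positive, `uy = s`. Then
`r² = 2t + 105 s² = ε(c₁u⁴ + c₂y⁴) + 105u²y²` and `2a = ε(c₁u⁴ - c₂y⁴)`.
 - `ε = 1`, `c₁ = m²`, `m ∈ {4,8,16}`: `k=1, k'=2048, A = m u, B = y, v = m r, c = 2c₁` (≤ 512);
   `ε = 1`, `c₁ ∈ {8,32,128}`: then `c₂ = m²`; the same with `A = m y, B = u, c = 2 c₂`.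
 - `ε = -1`, `c₁ = 2m²`, `m ∈ {2,4,8}`: `k=-2, k'=-1024, A = m u, B = y, v = m r, c = c₁`;
   `ε = -1`, `c₁ ∈ {16,64,256}`: `c₂ = 2m²`; the same with `A = m y, B = u, c = c₂`.
CASE `d = 2d'` even: `a`, `w` odd; `q± = (a²+210d'²±w)/2` are integers, coprime, positive, with
product `2833 d'⁴`, so `{q₊,q₋} = {r⁴,2833 s⁴}`, `rs = d'`, `a² + 210r²s² = r⁴ + 2833s⁴`, i.e.
`t² - a² = 8192 s⁴` with `t = r²-105s²` odd; `(t+a)/2`, `(t-a)/2` are coprime integers of the same sign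
`ε` with product `2048 s⁴`, so they are `ε u⁴`, `ε 2048 y⁴` (in some order) with `u` odd, `uy = s`,
`gcd(u,y)=1`, and `r² = ε(u⁴ + 2048y⁴) + 105u²y²`, `a = ±(u⁴ - 2048y⁴)`.
 - `ε = 1`: `k=1, A=u, B=y, v=r, c=1`;
 - `ε = -1`: `k=-2, A = 32y, B = u, v = 32r, c = 1024`. -/
def S_HALVE : Prop := ∀ a d w : ℤ, 0 < a → 0 < d → 0 < w → IsCoprime a d →
  w ^ 2 = a ^ 4 + 105 * a ^ 2 * d ^ 2 + 2048 * d ^ 4 →
  ∃ k k' A B v c : ℤ, (k = 1 ∧ k' = 2048 ∨ k = -2 ∧ k' = -1024) ∧ 0 < A ∧ 0 < B ∧ 0 < v ∧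
    IsCoprime A B ∧ v ^ 2 = k * A ^ 4 + 105 * A ^ 2 * B ^ 2 + k' * B ^ 4 ∧
    0 < c ∧ c ≤ 1024 ∧ 2 * A * B * v = c * d ∧
    (k * A ^ 4 - k' * B ^ 4 = c * a ∨ k * A ^ 4 - k' * B ^ 4 = -(c * a))

/-- HALVEH: the height goes down. (Real inequality; the true constants are `3.27·1024` for
`A⁴` and `0.0064·1024` for `B⁴`.) With `X = A²`, `Y = B²`, `cM ≥ |kX² - k'Y²|` and
`(cM)² ≥ 4XY(kX² + 105XY + k'Y²)`. -/
def S_HALVEH : Prop := ∀ a d k k' A B v c M : ℤ, 0 < a → 0 < d →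
  (k = 1 ∧ k' = 2048 ∨ k = -2 ∧ k' = -1024) → 0 < A → 0 < B → 0 < v →
  v ^ 2 = k * A ^ 4 + 105 * A ^ 2 * B ^ 2 + k' * B ^ 4 →
  0 < c → c ≤ 1024 → 2 * A * B * v = c * d →
  (k * A ^ 4 - k' * B ^ 4 = c * a ∨ k * A ^ 4 - k' * B ^ 4 = -(c * a)) →
  a ≤ M → d ≤ M → A ^ 4 ≤ 8192 * M ∧ B ^ 4 ≤ 8192 * M

/-- TRANSH: translation by `± P0` (port of library `H703R2/Desc/Trans.lean`,
theorem `trans_height`).
PROOF. Put `α = (a²-16d²)²`, `β = -64a⁴+3648a²d²-32768d⁴`, `γ = 1024(a²-32d²)²`, `N₁ = q²s²`,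
`N₂ = p²s²+r²q²`, `N₃ = p²r²`; these are related by `N₃ α = γ N₁`, `N₂ α = β N₁`, and
`gcd(N₁,N₂,N₃) = 1`, so `α = λN₁, β = λN₂, γ = λN₃` with `λ ≥ 1` an integer. The condition `v² ≥ 0`
gives `12.9 d² < a² < 39.6 d²`, so `α ≤ 0.37a⁴`, `β ≤ 37.6a⁴`, `γ ≤ 2230 a⁴`. If the conclusion fails,
one of `p,q` and one of `r,s` is `> 8M ≥ 8a`, so one of `p²r², p²s², q²r², q²s²` is `> 4096 a⁴`,
contradiction. -/
def S_TRANSH : Prop := ∀ a d v p q r s M : ℤ, 0 < a → 0 < d → IsCoprime a d →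
  v ^ 2 = -2 * a ^ 4 + 105 * a ^ 2 * d ^ 2 - 1024 * d ^ 4 → a ≠ 4 * d →
  0 < p → 0 < q → 0 < r → 0 < s → IsCoprime p q → IsCoprime r s → a ≤ M → d ≤ M →
  p ^ 2 * r ^ 2 * (a ^ 2 - 16 * d ^ 2) ^ 2 = 1024 * q ^ 2 * s ^ 2 * (a ^ 2 - 32 * d ^ 2) ^ 2 →
  (p ^ 2 * s ^ 2 + r ^ 2 * q ^ 2) * (a ^ 2 - 16 * d ^ 2) ^ 2 =
    (-64 * a ^ 4 + 3648 * a ^ 2 * d ^ 2 - 32768 * d ^ 4) * (q ^ 2 * s ^ 2) →
  (p ≤ 8 * M ∧ q ≤ 8 * M) ∨ (r ≤ 8 * M ∧ s ≤ 8 * M)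

/-- GEN: the points with `x ∈ □ ∪ -2□` are the multiples of `P0`. Prove
`S_HALVE → S_HALVEH → S_TRANSH → S_GEN` (port of library `H528R2/Descent.lean`, same structure).
PROOF. `Good M`: every point `Q ≠ 0` with `x_Q = k a²/d²` (`(k,k') = (1,2048)` or `(-2,-1024)`,
`a,d > 0` coprime, `w² = k a⁴ + 105a²d² + k' d⁴`) and `a, d ≤ M` is a multiple of `P0`.
`Good 41`: finite check; the only solutions with `a,d ≤ 41` are `(k;a,d) = (1;16,3)` (`± 2P0`) and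
`(-2;4,1)` (`± P0`) (e.g. `decide +kernel` on a boolean search, `w = Nat.sqrt`). Step
`Good N → Good (N+1)`, `N ≥ 41`: a point with `k = 1` and `a,d ≤ 8(N+1)` is `± 2Q'` with
`x_{Q'} = k₁A²/B²` by `S_HALVE` (`x_{2Q'} = ((x²-2048)/(2y))²` with `x = kA²/B²`, `y = ±kAv/B³`), and
`A⁴, B⁴ ≤ 8192·8(N+1) < (N+1)⁴` by `S_HALVEH`, as `(N+1)³ > 65536`. A point with `k = -2`,
`a,d ≤ N+1`, not `± P0`: `x_{Q+P0}` and `x_{Q-P0}` are squares `p²/q²`, `r²/s²` (lemma `third`), with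
product `(32(a²-32d²)/(a²-16d²))²` and sum `(-64a⁴+3648a²d²-32768d⁴)/(a²-16d²)²` (`pt_prod`,
`pt_sum`), so by `S_TRANSH` one of them has height `≤ 8(N+1)` and the first part applies. -/
def S_GEN : Prop := ∀ x y : ℚ, x ≠ 0 → y ^ 2 = x ^ 3 + 105 * x ^ 2 + 2048 * x →
  (IsSquare x ∨ IsSquare ((-2) * x)) → ∃ n : ℤ, n ≠ 0 ∧ x = zz n ∧ y = yy n

/-! ### Part III: arithmetic of the multiples of `P0` -/

/-- DIFF (adapt library `H528R2/Diff.lean`, using `DB.key` from `H528R2/DiffBase.lean`).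
PROOF. Both `zz m, zz n` have a pole at `s`: `zz_prod_formula` and `val_zz`. Exactly one has a pole:
`v = -2 dd`, and `m ± n` have no pole (`dvd_iff`). Both are `s`-integral: `DB.key` with
`g = x₁²+x₁x₂+x₂²+105(x₁+x₂)+2048`; its hypothesis `hk`: if `s` divides `x₁-x₂`, `y₁` and `g`, then
`x₁` is a double root of `x³+105x²+2048x` mod `s`, odd, so: either `s ∣ x₁` and then `s ∣ 2048`,
impossible; or `s = 2833` and `x₁ ≡ -105/2`, and then `y₁² = x₁((x₁+105/2)² - 2833/4)` with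
`s² ∣ y₁²`, `s² ∣ (x₁+105/2)²` gives `s² ∣ 2833 x₁`, impossible (`2833` prime, `x₁` a unit). -/
def S_DIFF : Prop := ∀ (s : ℕ) (m n : ℤ), s.Prime → s ≠ 2 → m ≠ 0 → n ≠ 0 → m ≠ n → m ≠ -n →
  padicValRat s (zz m - zz n) =
    (dd s (m + n) : ℤ) + (dd s (m - n) : ℤ) - 2 * (dd s m : ℤ) - 2 * (dd s n : ℤ)

/-- the table of `v_2(zz n)` -/
def v2tab (r : ℤ) : ℤ :=
  if r = 1 ∨ r = 13 then 5 else if r = 2 ∨ r = 12 then 8 else if r = 3 ∨ r = 11 then 7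
  else if r = 4 ∨ r = 10 then 4 else if r = 5 ∨ r = 9 then 3 else if r = 6 ∨ r = 8 then 6
  else 11

/-- V2: the `2`-adic valuation of `zz n`, and `rk 2 = 14`.
PROOF. `v_2(zz 14) = -6` (`zz_fourteen`), so by `Rank.zz_mul` `v_2(zz (14k)) = -6 - 2v_2(k)`. If
`v = v_2(zz m) ∈ [3,11]` and `Q = 14k•P0`, `d = v_2(zz(14k)) ≤ -6`: `zz_prod_formula` gives
`v(zz(m+14k)) + v(zz(m-14k)) = 2v` (as `v + d < 11`), and `zz_sum_formula` gives
`v(zz(m+14k) + zz(m-14k)) = v + 1` (the term `(x₁+x₂)x₁x₂` dominates), hence both valuations equal `v`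
(if one were smaller than the other it would be `v+1`, too large). So only `m = 1..7` are needed
(`zz (-m) = zz m`): `m=1,2,3,4,7` from the explicit values (5,8,7,4,11); `5, 6` : compute
`zz 5 = -225144200/4405801` from `add_zz` (e.g. `5 = 4+1`, `6 = 3+3`), valuations `3` and `6`.
No pole at `m` not divisible by `14`, so `rk 2 = 14`. -/
def S_V2 : Prop := (∀ n : ℤ, (¬ (14 : ℤ) ∣ n → padicValRat 2 (zz n) = v2tab (n % 14)) ∧
  (n ≠ 0 → (14 : ℤ) ∣ n → padicValRat 2 (zz n) ≤ -6)) ∧ rk 2 = 14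

/-- the table of `zz n` modulo `7` -/
def x7tab (r : ℤ) : ℤ :=
  if r = 1 ∨ r = 7 then 3 else if r = 2 ∨ r = 6 then 2 else if r = 3 ∨ r = 5 then 6 else 0

/-- X7: `zz n` modulo `7`. Prove `S_DIFF → S_X7`.
PROOF. `7` divides the denominator of `zz 8` and of no `zz 1,...,zz 7` (it suffices that `rk 7 ∣ 8`
and `zz 4` is `7`-integral); by `S_DIFF` with `s = 7`, `zz n ≡ zz (n % 8)` when `8 ∤ n`
(`dd 7 (n - n%8) ≥ 1`), and `zz 1,...,zz 4` are explicit: `-32 ≡ 3`, `256/9 ≡ 2`, `-21632/289 ≡ 6`,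
`38416/16641 ≡ 0`; `zz (8-i) ≡ zz i` similarly (`dd 7 8 ≥ 1`). -/
def S_X7 : Prop := rk 7 = 8 ∧ ∀ n : ℤ, ¬ (8 : ℤ) ∣ n → Vge 7 1 (zz n - x7tab (n % 8))

/-- COP: `dd` from an explicit reduced fraction. -/
def S_COP : Prop := ∀ (n A : ℤ) (D : ℕ), n ≠ 0 → D ≠ 0 → IsCoprime A (D : ℤ) →
  zz n = A / (D : ℚ) ^ 2 → ∀ s : ℕ, s.Prime → dd s n = padicValNat s D

/-- CH2N: the character of `ℚ(√2)` on odd natural numbers (`wt2` is an additive character of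
odd numbers mod `8`; induction on the prime factorization, finite support). -/
def S_CH2N : Prop := ∀ n : ℕ, ¬ 2 ∣ n →
  ∑ᶠ s : {s : ℕ // s.Prime}, wt2 s * ((padicValNat s n : ℕ) : ZMod 2) = wt2 n

/-- CH2: the character of `ℚ(√2)` on `ξ² - η²`. Prove `S_CH2N → S_CH2`.
PROOF. Write `ξ = A/D`, `η = B/D` with integers; `v_s(ξ²-η²) ≡ v_s(A²-B²) (mod 2)`. Put
`α = v_2(A) < β = v_2(B)`, `A = 2^α A'`, `B = 2^β B'`: `A²-B² = 4^α (A'² - 4^{β-α} B'²)`, the odd number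
`A'² - 4^{β-α}B'²` is `≡ 1 - 4 = -3 (mod 8)` if `β - α = 1` and `≡ 1 (mod 8)` otherwise. Use
`S_CH2N` for its absolute value (`wt2 (natAbs)`: classes `±1 ↦ 0`, `±3 ↦ 1`); `wt2 2 = 0`. -/
def S_CH2 : Prop := ∀ ξ η : ℚ, ξ ≠ 0 → η ≠ 0 → padicValRat 2 ξ < padicValRat 2 η →
  ∑ᶠ s : {s : ℕ // s.Prime}, wt2 s * ((padicValRat s (ξ ^ 2 - η ^ 2) : ℤ) : ZMod 2) =
    if padicValRat 2 η = padicValRat 2 ξ + 1 then 1 else 0

/-- CH3N: the cubic character modulo `7` on natural numbers prime to `7`. -/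
def S_CH3N : Prop := ∀ n : ℕ, ¬ 7 ∣ n →
  ∑ᶠ s : {s : ℕ // s.Prime}, wt3 s * ((padicValNat s n : ℕ) : ZMod 3) = wt3 n

/-- CH3: the cubic character modulo `7` on rational `7`-units. Prove `S_CH3N → S_CH3`.
PROOF. `x = ± n/d`, `n, d` prime to `7`, `v_s(x) = v_s(n) - v_s(d)`, and `± n ≡ c d (mod 7)`, so
`wt3 n = wt3 c + wt3 d`. -/
def S_CH3 : Prop := ∀ (x : ℚ) (c : ℕ), ¬ 7 ∣ c → Vge 7 1 (x - c) →
  ∑ᶠ s : {s : ℕ // s.Prime}, wt3 s * ((padicValRat s x : ℤ) : ZMod 3) = wt3 c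

/-- PR2. Prove `S_DIFF → S_V2 → S_COP → S_CH2N → S_CH2 → S_PR2`.
PROOF. Let `F(m) = prw 2 wt2 (2m)` (even function of `m`). For `m, n ≠ 0`, `m ≠ ±n`, with
`v_2(zz(2m)) ≠ v_2(zz(2n))`: `zz(2m) = ξ²`, `zz(2n) = η²` (`sq_even`), and `S_DIFF` (for odd `s`;
`wt2 2 = 0`) and `S_CH2` give `F(m+n) + F(m-n) = 1` if `|v_2(ξ) - v_2(η)| = 1` and `0` otherwise. By
`S_V2` `v_2(ξ)` is `4, 2, 3` for `m ≡ ±1, ±2, ±3 (mod 7)` and `≤ -3` for `7 ∣ m`. With `n = 7`: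
`F(m+14) = F(m)` for `7 ∤ m` (apply at `m+7`). So it is enough to treat `m = 1,...,6` (as
`F(14-m) = F(m)`): `F(1) = 1` as `D_2 = 3`, `F(2) = 0` as `D_4 = 129 ≡ 1 (mod 8)` (`S_COP`, `S_CH2N`,
`zz_two`, `zz_four`), `(2,1)`: `F(3)+F(1) = 0`; `(3,1)`: `F(4)+F(2) = 1`; `(3,2)`: `F(5)+F(1) = 1`;
`(5,1)`: `F(6)+F(4) = 0`. -/
def S_PR2 : Prop := ∀ m : ℤ, ¬ (7 : ℤ) ∣ m →
  prw 2 wt2 (2 * m) = if m % 7 = 2 ∨ m % 7 = 5 then 0 else 1

/-- PR3. Prove `S_DIFF → S_V2 → S_X7 → S_COP → S_CH3N → S_CH3 → S_PR3`.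
PROOF. `h(k) = prw 3 wt3 (7k)` (even). For odd `j`, `j ≠ ±2` automatically, apply `S_DIFF` with `m = 14`,
`n = 7j` for odd `s`; the same formula holds at `s = 2`: `v_2(zz 14 - zz(7j)) = -6` (`S_V2`), `dd 2 14 = 3`,
`dd 2 (7j) = dd 2 (14 ± 7j) = 0` (odd multiples have no pole at `2`). Hence
`h(2+j) + h(2-j) - 2h(2) - 2h(j) = ∑ᶠ wt3 s * v_s(zz 14 - zz(7j))`, and `S_X7`: `zz 14 ≡ 2 (mod 7)`,
`zz(7j) ≡ 3` if `j ≡ ±1 (mod 8)`, `≡ 6` if `j ≡ ±3 (mod 8)`; so `zz 14 - zz(7j) ≡ 6` resp. `3 (mod 7)` and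
the sum is `wt3 6 = 0` resp. `wt3 3 = 2` by `S_CH3`. `h(1) = wt3 23192521 = 1`,
`h(2) = wt3 149005239308162429284594392 = 1` by `S_COP`, `S_CH3N`, `zz_seven`, `zz_fourteen`
(`23192521² = 537893030335441`, `149005239308162429284594392²` = denominator of `zz 14`). So
`h(j+2) + h(j) + h(j-2) = 2` if `j ≡ ±1`, `= 1` if `j ≡ ±3 (mod 8)`; with `h(-1) = h(1) = 1` this
determines all `h(j)`, `j` odd: `h = 1` for `j ≡ ±1`, `h = 0` for `j ≡ ±3 (mod 8)`. -/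
def S_PR3 : Prop := ∀ j : ℤ, Odd j →
  prw 3 wt3 (7 * j) = if j % 8 = 1 ∨ j % 8 = 7 then 1 else 0

/-- RKNZ: every prime has a rank of apparition. Prove `S_DIFF → S_V2 → S_RKNZ`.
PROOF. `s = 2`: `S_V2`. `s` odd: if some `zz k`, `1 ≤ k ≤ s+1`, has a pole, done. Otherwise by the
pigeonhole principle two of the `s+1` residues `zz k mod s` coincide, and `S_DIFF` shows that
`dd s (k+l) + dd s (k-l) ≥ 1` (see library `H528R2/Diff.lean`, theorem `rk_le`). -/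
def S_RKNZ : Prop := ∀ s : ℕ, s.Prime → rk s ≠ 0

/-! ### Part IV: growth -/

/-- GL: the prime attached to a set of primes with nonzero alternating sum (only `TW/Rank` is
needed).
PROOF. Let `nU = n0 ∏_{q∈U} q`. For a prime `t` (with `rk t ≠ 0`) let
`R_t = (rk t).primeFactors \ n0.primeFactors`. If `rk t ∤ nS` then `dd t nU = 0` for all `U ⊆ S`
(`nU ∣ nS`). If `rk t ∣ nS`, then `R_t ⊆ S` and for `U ⊆ S` : `rk t ∣ nU ↔ R_t ⊆ U` (the elements of `S`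
are primes not dividing `n0`, `nS = n0 ∏_S` so outside `n0` the number `rk t` is squarefree), and then
`dd t nU = e_t + [t ∈ U]` with `e_t` independent of `U` (`dd_eq`; `v_t(nU) = v_t(n0) + [t ∈ U]`). Hence
the alternating sum of `dd t nU` over `U ⊆ S` is `e_t [R_t = S] + [t ∈ S][R_t ∪ {t} = S]`. Exchange the
sums (`finsum` over the finite set of primes with `dd t nS ≠ 0`, `finite_dd`; note
`dd t nU ≠ 0 → dd t nS ≠ 0`): some `t` has `w t ≠ 0` and nonzero contribution mod `p`. If `R_t = S` the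
contribution is `e_t + [t ∈ S] = dd t nS`. If `R_t ≠ S`, then `t ∈ S` and `R_t = S.erase t`. -/
def S_GL : Prop := ∀ (p : ℕ) (_ : Fact p.Prime) (w : ℕ → ZMod p) (n0 : ℕ) (S : Finset ℕ),
  n0 ≠ 0 → (∀ q ∈ S, q.Prime ∧ ¬ q ∣ n0) →
  ∑ U ∈ S.powerset, (-1) ^ (S.card - U.card) * prw p w ((n0 * ∏ q ∈ U, q : ℕ) : ℤ) ≠ 0 →
  ∃ t : ℕ, t.Prime ∧ w t ≠ 0 ∧ rk t ∣ n0 * ∏ q ∈ S, q ∧
    (((rk t).primeFactors \ n0.primeFactors = S ∧
        ((dd t ((n0 * ∏ q ∈ S, q : ℕ) : ℤ) : ℕ) : ZMod p) ≠ 0) ∨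
      (t ∈ S ∧ (rk t).primeFactors \ n0.primeFactors = S.erase t))

/-- SUM3: the alternating sum for the step `C`. Prove `S_PR3 → S_SUM3`.
PROOF. `∏ U` is odd, `≡ ±1 (mod 8)` if `|U|` is even and `≡ ±3` if `|U|` is odd, so by `S_PR3` the term
is `(-1)^(|S|-|U|) [|U| even]`; the sum is `(-1)^|S| · 2^(|S|-1) = -1` in `ZMod 3`. -/
def S_SUM3 : Prop := ∀ S : Finset ℕ, S.Nonempty → (∀ q ∈ S, q.Prime ∧ (q % 8 = 3 ∨ q % 8 = 5)) →
  ∑ U ∈ S.powerset, (-1) ^ (S.card - U.card) * prw 3 wt3 ((7 * ∏ q ∈ U, q : ℕ) : ℤ) ≠ 0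

/-- SUM2: the alternating sum for the step `Q`, for one of `S` and `S ∪ {q₀}`. Prove
`S_PR2 → S_SUM2`.
PROOF. Let `c(q) ∈ {1,2} ⊂ ZMod 3` be `1` if `q ≡ ±2`, `2` if `q ≡ ±3 (mod 7)` (`±4 = ∓3`; this is
`wt3`), `c(U) = ∑_{q∈U} c(q)`. By `S_PR2` `prw 2 wt2 (2 ∏ U) = f(c(U))`, `f(0) = 1, f(1) = 0, f(2) = 1`
(classes `±1, ±2, ±3` mod `7`). For `j ∈ ZMod 3` let `A_S(j) = ∑_{U ⊆ S} f(c(U) + j) ∈ ZMod 2` (signs are
irrelevant). Then `A_∅ = f` and `A_{S ∪ {q}}(j) = A_S(j) + A_S(j + c(q))`. On functions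
`ZMod 3 → ZMod 2` of total sum `0` the three nonzero ones are `f` and its translates, and
`g + g(·+c)` is again a translate of `g`; in fact `A_S(j) = f(j - c(S))` up to the right sign: check
`f(j) + f(j+1) = f(j+2)...` by `decide`. So `A_S` is a translate of `f` by a multiple of `c(S)`, and
`A_{S∪{q₀}}` is a translate by a different amount (as `c(q₀) ≠ 0`); since `f` has only one zero, at least
one of `A_S(0)`, `A_{S∪{q₀}}(0)` is nonzero. (Induct on `S` with the statement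
`∃ τ, A_S = f(· + τ)`, and then `A_{S∪q₀}(0) = f(τ) + f(c(q₀)+τ)`, which is `1` if `f(τ) = 0`.) -/
def S_SUM2 : Prop := ∀ (S : Finset ℕ) (q₀ : ℕ), q₀ ∉ S →
  (∀ q ∈ insert q₀ S, q.Prime ∧ q ≠ 2 ∧ (q % 7 = 2 ∨ q % 7 = 3 ∨ q % 7 = 4 ∨ q % 7 = 5)) →
  (∑ U ∈ S.powerset, (-1) ^ (S.card - U.card) * prw 2 wt2 ((2 * ∏ q ∈ U, q : ℕ) : ℤ) ≠ 0 ∨
   ∑ U ∈ (insert q₀ S).powerset, (-1) ^ ((insert q₀ S).card - U.card) *
      prw 2 wt2 ((2 * ∏ q ∈ U, q : ℕ) : ℤ) ≠ 0)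

/-- CSTEP: many primes inert in `K` give many primes inert in `L`. Prove
`S_V2 → S_GL → S_SUM3 → S_T6s → S_CSTEP`.
PROOF. Let `T` be the set of prime factors of `M` that are `≡ 3, 5 (mod 8)`, `b = |T| = cK M`. For
`∅ ≠ S ⊆ T` apply `S_GL` with `p = 3, w = wt3, n0 = 7` and `S_SUM3`: get `t = t_S`, inert in `L`, of type
(a) `R_t = S`, `3 ∤ dd t (7∏S)`, or (b) `t ∈ S`, `R_t = S.erase t` (`R_t = (rk t).primeFactors \ {7}`).
Type (b): `S = insert t R_t` is determined by `t ∈ T`, so there are at most `b` sets `S` of type (b).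
Type (a): `S = R_t` is determined by `t`; `t ≠ 2` because `rk 2 = 14` (`S_V2`), `R_2 = {2}`, while `S`
consists of odd primes. CLAIM: `t ∣ M` or `t ∣ M'`. Suppose not. `rk t ∣ 7∏S ∣ 7M`, and
`dd t (7M) = dd t (7∏S) =: d` by `dd_eq` (`v_t(7M) = v_t(7∏S) = 0` as `t ≠ 7`). So
`v_t(zz(7M)/yy(7M)) = -2d+3d = d` is not divisible by `3`, and `S_T6s` gives `¬ Vge t 1 G`,
`G = zz(7M')/zz(7M)²`. But if `rk t ∣ 7M'` then `dd t (7M') = d` too (`t ∤ 7M'`), `v_t(G) = -2d+4d ≥ 1`,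
and otherwise `v_t(zz(7M')) ≥ 0`, `v_t(G) ≥ 4d ≥ 1`: contradiction. So the number `2^b - 1` of
nonempty `S` is `≤ b + cL M + cL M'`. -/
def S_CSTEP : Prop := ∀ M M' : ℤ, M ≠ 0 → M' ≠ 0 → RelL M M' →
  2 ^ cK M ≤ cL M + cL M' + 1 + cK M

/-- DEN: Prove `S_GL → S_SUM3 → S_DEN`. Same as CSTEP: the primes `t_S` of type (a) are
distinct and divide the denominator of `zz (7M)` since `rk t_S ∣ 7∏S ∣ 7M`. -/
def S_DEN : Prop := ∀ M : ℤ, M ≠ 0 →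
  2 ^ cK M ≤ (zz (7 * M)).den.primeFactors.card + 1 + cK M

/-- QSTEP: many primes inert in `L` give many primes inert in `K`. Prove
`S_GL → S_SUM2 → S_QSTEP`, using library `test_iff` (`H528R2/TestIff.lean`:
`N ≠ 0 → (Test N F ↔ ∀ q, Inert q → Odd (padicValRat q N) → Vge q 1 F)`).
PROOF. `T` = odd prime factors of `M` inert in `L`, `a = |T| = cL M`; we may assume `a ≥ 1`, fix
`q₀ ∈ T`. By `S_SUM2`, for each `S ⊆ T \ {q₀}` one of `S`, `S ∪ {q₀}` has nonzero alternating sum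
(`p = 2, w = wt2, n0 = 2`): at least `2^(a-1)` sets `S ⊆ T` are good. `S_GL` gives `t_S` inert in `K`.
Type (b) sets: at most `a`. Type (a): `S = R_t`; `t ∣ M` or `t ∣ M'`: otherwise
`dd t (2M) = dd t (2∏S) =: d` is odd (`t` is odd), `v_t(zz(2M)/yy(2M)) = d`, so by `test_iff`
`Vge t 1 (zz(2M)/zz(2M'))`, i.e. `v_t(zz(2M')) ≤ -2d-1 < 0`, so `rk t ∣ 2M'` and
`dd t (2M') > d`, but `dd t (2M') = d` since `t ∤ 2M'`. Contradiction. So
`2^(a-1) ≤ a + cK M + cK M'`. -/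
def S_QSTEP : Prop := ∀ M M' : ℤ, M ≠ 0 → M' ≠ 0 → RelK M M' →
  2 ^ (cL M - 1) ≤ cK M + cK M' + 1 + cL M

/-- EX: existence of the next term. Prove `S_RKNZ → S_T6c → S_EX` (and library `test_iff`).
PROOF. Let `Q` be the finite set of primes `q` such that `q = 7` or one of `zz(2M), yy(2M), zz(7M),
yy(7M)` has nonzero `q`-adic valuation, `E` a large integer, `M' = M ∏_{q∈Q} (rk q · q^E)`. For `q ∈ Q`,
`rk q ∣ M'` and `dd q (2M'), dd q (7M') ≥ E` (`dd_eq`), so `v_q(zz(2M')) ≤ -2E`,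
`v_q(zz(7M')) ≤ -2E` are very negative. Then both tests hold by completeness. -/
def S_EX : Prop := ∀ M : ℤ, M ≠ 0 → ∃ M' : ℤ, M' ≠ 0 ∧ RelK M M' ∧ RelL M M' 

/-- the tower function -/
def tower : ℕ → ℕ
  | 0 => 1
  | n + 1 => 2 ^ tower n

/-- CHAIN: tower growth along chains (pure arithmetic).
PROOF. Induction on `j ≤ n`: there is `i ≤ 2j` with `b i ≥ tower j + 7`. Given `i` with
`b i = b ≥ tower j + 7 ≥ 8` one of `a i, a (i+1)` is `≥ (2^b - 1 - b)/2 ≥ b + 12`, say `a i' = a`;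
then one of `b i', b (i'+1)` is `≥ (2^(a-1) - 1 - a)/2 ≥ 2^b + 7 ≥ tower (j+1) + 7`. -/
def S_CHAIN : Prop := ∀ (n : ℕ) (a b : ℕ → ℕ), 8 ≤ b 0 →
  (∀ i < 2 * n, 2 ^ b i ≤ a i + a (i + 1) + 1 + b i) →
  (∀ i < 2 * n, 2 ^ (a i - 1) ≤ b i + b (i + 1) + 1 + a i) →
  ∃ i ≤ 2 * n, tower n + 7 ≤ b i

end Pool.Agent.H715.TW
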