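import Pool.Graph.R_pool_sql_team_seeded_3997aac3.Q68.MZ.LA
import Pool.Agent.H715.TW.Stm

/-!
# Statements of the subtasks T4* of the tower project (class field theory; helper715)

Everything is available in the library (`Pool.Graph.R_pool_sql_team_seeded_3997aac3`):
* definitions `Q92/AR/Def.lean` (namespace `Pool.Agent.Q92.AR`): divisors `Dv F`, `prin x`, `Pr F N`
  (divisors prime to `N`), `Ray F N` (`Cong N x ∧ Pos x`), `nmD F E` (norm of divisors), `art ψ`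
  (Artin map followed by a character), `up`, `nu F E` (norm of elements), `Ram F E N`;
* `Q92/AR/All.lean`: `recip : S_AR`, `all_NKer : S_NKer` ((1): `art ψ (nmD F E D) = 0` for `D ∈ Pr E N`),
  `all_SD`, ...; `Pool.Agent.Q149.AR.va : S_VA`, `Pool.Agent.Q106.AR.nm : S_Nm`,
  `Pool.Agent.Q225.AR.fr : S_FR` ((4): the order of Frobenius is the residue degree);
  `Pool.Agent.Q128.AR.val_prin` (`v.valuation K x = exp (-(prin x v))`);
* `Q68/MZ/LA.lean`: `Pool.Agent.Q68.MZ.la : Pool.Agent.Q5.MZ.S_LA` (the norm theorem for elements near `1`).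
-/

set_option autoImplicit false

namespace Pool.Agent.H715.TW

open Pool.Agent.H528R2 (Vge Inert Test)
open NumberField IsDedekindDomain Pool.Agent.Q92.AR

/-- T4Q: the primes of `𝓞 ℚ` are the prime numbers.
PROOF. Mathlib: `Rat.HeightOneSpectrum.primesEquiv` / `Rat.HeightOneSpectrum.natGenerator`
(`Mathlib/NumberTheory/Padics/HeightOneSpectrum.lean`, `Rat.HeightOneSpectrum.valuation_equiv_padicValuation`)
or directly with `Rat.ringOfIntegersEquiv : 𝓞 ℚ ≃+* ℤ`; `Pool.Agent.Q128.AR.val_prin`. -/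
def S_T4Q : Prop := ∃ P : HeightOneSpectrum (𝓞 ℚ) ≃ Nat.Primes, ∀ v : HeightOneSpectrum (𝓞 ℚ),
  (∀ n : ℕ, (n : 𝓞 ℚ) ∈ v.asIdeal ↔ (P v : ℕ) ∣ n) ∧
  ∀ x : ℚˣ, prin x v = padicValRat (P v : ℕ) (x : ℚ)

/-- T4A: cyclic extensions of `ℚ`. Prove `S_T4Q → S_T4A`.
PROOF. Let `ψ` be an injective character of the cyclic group `Gal(E/ℚ)`. `recip` (`S_AR`) gives `N₀ ≠ 0`
with `Ram ℚ E N₀` and `art ψ (prin x) = 0` for `x ∈ Ray ℚ N₀`. `S_VA` for the multiple `N₀ N` gives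
`N₁, N₂, A` with `N₀ N ∣ N₁ ∣ N₂ ∣ N₁^j` and these give `VAData` (`Pool.Agent.Q5.MZ.VAData`).
Take this `N₂`. Let `e1, l, y` be given, `x = e1 l / norm y ∈ ℚˣ`. By `S_T4Q` and the hypothesis `x` is
`Cong N₂` and positive, so `x ∈ Ray ℚ N₂ ⊆ Ray ℚ N₀` and `art ψ (prin x) = 0`. `prin x` vanishes at the
primes dividing `N₂`; let `D₁` be the part of `prin y` prime to `N₂` (i.e. of the primes of `E` not above
primes dividing `N₂`). `prin (nu y) = nmD (prin y)` (`S_Nm` (1)), so `prin x = [l] - nmD D₁` (compare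
values at each prime: at primes dividing `N₂` both sides are `0`; at the others `prin e1` is `0` as the
primes dividing `e1` divide `N₂`). `art ψ (nmD D₁) = 0` (`S_NKer` (1)), so `ψ (frob l) = 1`, so `frob l = 1`;
`l` is unramified (`Ram`), so by `S_FR` (4) a prime `w` of `E` above `l` has `rdeg = 1` and
`[l] = nmD [w]` (`nmD_single`). So `prin x = nmD D` with `D = [w] - D₁ ∈ Pr E N₁`
(the same primes divide `N₁` and `N₂`). `up x ∈ A` since `Cong N₂ (up x)` (`S_Nm` (6)). `PosRam`: `x > 0`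
(a ring homomorphism `ℚ → ℝ` is the inclusion). `S_LA` gives `t ∈ Eˣ` with `nu t = x`, and
`z = t y` has norm `e1 l`. -/
def S_T4A : Prop := ∀ (E : Type) [Field E] [NumberField E] [IsGalois ℚ E] (σ : E ≃ₐ[ℚ] E),
  (∀ g : E ≃ₐ[ℚ] E, g ∈ Subgroup.zpowers σ) → ∀ N : ℕ, N ≠ 0 → ∃ N2 : ℕ, N2 ≠ 0 ∧ N ∣ N2 ∧
    ∀ (e1 l : ℕ) (y : E), e1 ≠ 0 → l.Prime → ¬ l ∣ N2 →
      (∀ p : ℕ, p.Prime → p ∣ e1 → p ∣ N2) → 0 < Algebra.norm ℚ y →
      (∀ p : ℕ, p.Prime → p ∣ N2 →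
        Vge p (padicValNat p N2) (((e1 * l : ℕ) : ℚ) / Algebra.norm ℚ y - 1)) →
      ∃ z : E, Algebra.norm ℚ z = ((e1 * l : ℕ) : ℚ)

/-- T4B: Shanks's simplest cubic fields and their norm form.
PROOF. `f = X³ - a X² - (a+3) X - 1` has no rational root so it is irreducible; `E = AdjoinRoot f`,
`θ` the root. `-1/(1+θ)` is again a root, so `σ : θ ↦ -1/(1+θ)` is an automorphism, of order `3`
(`σ² θ = -(1+θ)/θ`; `σ θ ≠ θ` since `θ² + θ + 1 = 0` is impossible in a cubic field), `[E:ℚ] = 3`, so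
`E/ℚ` is Galois with group `⟨σ⟩`. The norm of `u + vθ + wθ²` is
`(u+vθ₁+wθ₁²)(u+vθ₂+wθ₂²)(u+vθ₃+wθ₃²)` (or the determinant of the matrix of multiplication in the
basis `1, θ, θ²`), which is `Nf a u v w` (polynomial identity). -/
def S_T4B : Prop := ∀ a : ℚ, (∀ r : ℚ, r ^ 3 - a * r ^ 2 - (a + 3) * r - 1 ≠ 0) →
  ∃ (E : Type) (_ : Field E) (_ : NumberField E) (_ : IsGalois ℚ E) (σ : E ≃ₐ[ℚ] E) (θ : E),
    (∀ g : E ≃ₐ[ℚ] E, g ∈ Subgroup.zpowers σ) ∧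
    (∀ u v w : ℚ, Algebra.norm ℚ (algebraMap ℚ E u + algebraMap ℚ E v * θ +
      algebraMap ℚ E w * θ ^ 2) = Nf a u v w) ∧
    ∀ z : E, ∃ u v w : ℚ, z = algebraMap ℚ E u + algebraMap ℚ E v * θ + algebraMap ℚ E w * θ ^ 2

theorem t4_of (hA : S_T4A) (hB : S_T4B) : S_T4 := by
  intro a ha N hN
  obtain ⟨E, _, _, _, σ, θ, hσ, hn, hz⟩ := hB a ha
  obtain ⟨N2, h1, h2, h3⟩ := hA E σ hσ N hN
  refine ⟨N2, h1, h2, fun e1 l u v w he hl hlN hp hpos hv => ?_⟩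
  obtain ⟨z, hz'⟩ := h3 e1 l (algebraMap ℚ E u + algebraMap ℚ E v * θ + algebraMap ℚ E w * θ ^ 2)
    he hl hlN hp (by rw [hn]; exact hpos) (by rw [hn]; exact hv)
  obtain ⟨u', v', w', rfl⟩ := hz z
  exact ⟨u', v', w', by rw [← hn, hz']⟩

end Pool.Agent.H715.TW
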