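import Pool.Agent.H715.TW.Stm

/-!
WA: weak approximation at finitely many primes by large rational numbers.
-/

namespace Pool.Agent.H715.TW

open Pool.Agent.H528R2 (Vge Inert Test)

private theorem vge_div {p N m : ℕ} (hp : p.Prime) (hm : m ≠ 0) {x : ℤ} {L : ℤ}
    (h : ((p ^ N : ℕ) : ℤ) ∣ x) (hN : L + m ≤ N) : Vge p L ((x : ℚ) / m) := by
  have : Fact p.Prime := ⟨hp⟩
  by_cases hx : x = 0
  · left; simp [hx]
  right
  have hm' : (m : ℚ) ≠ 0 := by exact_mod_cast hm
  have hx' : (x : ℚ) ≠ 0 := by exact_mod_cast hx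
  rw [padicValRat.div hx' hm', padicValRat.of_int, padicValRat.of_nat]
  have h1 : N ≤ padicValInt p x := by
    rcases (padicValInt_dvd_iff (p := p) N x).1 (by exact_mod_cast h) with h | h
    · exact absurd h hx
    · exact h
  have h2 : padicValNat p m < m := by
    have := Nat.lt_pow_self (n := padicValNat p m) hp.one_lt
    exact lt_of_lt_of_le this (Nat.le_of_dvd (Nat.pos_of_ne_zero hm) pow_padicValNat_dvd)
  omega

theorem wa : S_WA := by
  intro P x L B hP
  classical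
  set m : ℕ := ∏ p ∈ P, (x p).den with hm
  have hm0 : m ≠ 0 := Finset.prod_ne_zero_iff.2 fun p _ => (x p).den_nz
  have hmpos : (0 : ℚ) < m := by exact_mod_cast Nat.pos_of_ne_zero hm0
  set N : ℕ := L.toNat + m with hN
  -- the integers `m x_p`
  set c : ℕ → ℤ := fun p => (m / (x p).den : ℕ) * (x p).num with hc
  have hcx : ∀ p ∈ P, ((c p : ℤ) : ℚ) = m * x p := by
    intro p hp
    obtain ⟨k, hk⟩ : (x p).den ∣ m := Finset.dvd_prod_of_mem (fun p => (x p).den) hp
    have hd : (x p).den ≠ 0 := (x p).den_nz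
    have e : m / (x p).den = k := by
      rw [hk]; exact Nat.mul_div_cancel_left k (Nat.pos_of_ne_zero hd)
    have : ((c p : ℤ) : ℚ) = (k : ℚ) * (x p).num := by
      simp only [hc, e]; push_cast; ring
    have e3 : ((x p).den : ℚ) * x p = (x p).num := by
      rw [mul_comm]; exact_mod_cast Rat.mul_den_eq_num (x p)
    rw [this, hk]
    push_cast
    linear_combination (-(k : ℚ)) * e3
  -- CRT
  have hs : ∀ p ∈ P, p ^ N ≠ 0 := fun p hp => pow_ne_zero _ (hP p hp).ne_zero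
  have hpp : Set.Pairwise (P : Set ℕ) (Function.onFun Nat.Coprime fun p => p ^ N) := by
    intro p hp r hr hpr
    exact Nat.Coprime.pow _ _ ((Nat.coprime_primes (hP p hp) (hP r hr)).2 hpr)
  obtain ⟨k, hk⟩ := Nat.chineseRemainderOfFinset (fun p => (c p % ((p ^ N : ℕ) : ℤ)).toNat)
    (fun p => p ^ N) P hs hpp
  set M : ℕ := ∏ p ∈ P, p ^ N with hM
  have hM0 : M ≠ 0 := Finset.prod_ne_zero_iff.2 hs
  obtain ⟨j, hj⟩ := exists_nat_gt (B * m)
  refine ⟨((k + j * M : ℕ) : ℚ) / m, ?_, ?_⟩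
  · rw [lt_div_iff₀ hmpos]
    refine lt_of_lt_of_le hj ?_
    have : j ≤ k + j * M := by
      have : j * 1 ≤ j * M := Nat.mul_le_mul_left j (Nat.pos_of_ne_zero hM0)
      omega
    exact_mod_cast this
  · intro p hp
    have hpos : (0 : ℤ) < ((p ^ N : ℕ) : ℤ) := by exact_mod_cast Nat.pos_of_ne_zero (hs p hp)
    have h1 : ((p ^ N : ℕ) : ℤ) ∣ ((k + j * M : ℕ) : ℤ) - c p := by
      have a1 := hk p hp
      have a2 : ((p ^ N : ℕ) : ℤ) ∣ (k : ℤ) - ((c p % ((p ^ N : ℕ) : ℤ)).toNat : ℤ) := by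
        have := (Nat.modEq_iff_dvd.1 a1.symm)
        exact this
      rw [Int.toNat_of_nonneg (Int.emod_nonneg _ hpos.ne')] at a2
      have a3 : ((p ^ N : ℕ) : ℤ) ∣ c p - c p % ((p ^ N : ℕ) : ℤ) :=
        Int.dvd_self_sub_emod
      have a4 : ((p ^ N : ℕ) : ℤ) ∣ ((j * M : ℕ) : ℤ) := by
        have : p ^ N ∣ j * M := Dvd.dvd.mul_left (Finset.dvd_prod_of_mem (fun p => p ^ N) hp) j
        exact_mod_cast this
      have a5 : ((k + j * M : ℕ) : ℤ) - c p = ((k : ℤ) - c p % ((p ^ N : ℕ) : ℤ)) -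
        (c p - c p % ((p ^ N : ℕ) : ℤ)) + ((j * M : ℕ) : ℤ) := by push_cast; ring
      rw [a5]
      exact dvd_add (dvd_sub a2 a3) a4
    have h2 : ((k + j * M : ℕ) : ℚ) / m - x p = (((((k + j * M : ℕ) : ℤ) - c p : ℤ)) : ℚ) / m := by
      have := hcx p hp
      push_cast
      rw [this]
      push_cast
      field_simp
    rw [h2]
    exact vge_div (hP p hp) hm0 h1 (by
      have := Int.self_le_toNat L
      rw [hN]
      omega)

end Pool.Agent.H715.TW
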