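import Pool.Agent.H715.TW.Huge
import Pool.Agent.H715.TW.Stm4
import Pool.Agent.H715.TW.CHAIN
import Pool.Agent.H715.TW.CONT
import Pool.Agent.H715.TW.WA
import Pool.Agent.H715.TW.CSTEP
import Pool.Agent.H715.TW.RKNZ
import Pool.Agent.H113.TW.T1
import Pool.Agent.H113.TW.T4B
import Pool.Agent.H155.TW.CH2
import Pool.Agent.H168.TW.T4Q
import Pool.Agent.H177.TW.SUM
import Pool.Agent.H249.TW.HALVE
import Pool.Agent.H282.TW.T5
import Pool.Agent.H317.TW.T2
import Pool.Agent.H331.TW.CH3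
import Pool.Agent.H715.TW.PR3F
import Pool.Agent.H358.TW.GL
import Pool.Agent.H358.TW.PR2
import Pool.Agent.H358.TW.V2
import Pool.Agent.H549.TW.EX
import Pool.Agent.H549.TW.T6
import Pool.Agent.H551.TW.HALVEH
import Pool.Agent.H572.TW.T4A
import Pool.Agent.H658.TW.X7
import Pool.Agent.H678.TW.T3
import Pool.Agent.H686.TW.GEN
import Pool.Agent.H686.TW.QSTEP
import Pool.Agent.H860.TW.DIFF
import Pool.Agent.H935.TW.LOC

/-!
# Assembly of the tower-height project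
-/

namespace Pool.Agent.H715.TW

theorem gen_all : S_GEN := H686.TW.gen H249.TW.halve H551.TW.halveh H551.TW.transh

theorem t4_all : S_T4 := t4_of (H572.TW.t4a H168.TW.t4q) H113.TW.t4b

theorem t5_all : S_T5 := H282.TW.t5 H678.TW.t3 t4_all H935.TW.loc cont wa

theorem t6s_all : S_T6s := H549.TW.t6s H113.TW.t1

theorem t6c_all : S_T6c := H549.TW.t6c (H317.TW.t2 H113.TW.t1) t5_all

theorem pr2_all : S_PR2 :=
  H358.TW.pr2 H860.TW.diff H358.TW.v2 H658.TW.cop H155.TW.ch2n (H155.TW.ch2 H155.TW.ch2n)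

theorem pr3_all : S_PR3 :=
  PR3F.pr3 H860.TW.diff H358.TW.v2 (H658.TW.x7 H860.TW.diff) H658.TW.cop H331.TW.ch3n
    (H331.TW.ch3 H331.TW.ch3n)

theorem cstep_all : S_CSTEP :=
  cstep H358.TW.v2 H358.TW.gl (H177.TW.sum3 pr3_all) t6s_all

theorem den_all : S_DEN := den H358.TW.gl (H177.TW.sum3 pr3_all)

theorem qstep_all : S_QSTEP := H686.TW.qstep H358.TW.gl (H177.TW.sum2 pr2_all)

theorem ex_all : S_EX := H549.TW.ex (rknz H860.TW.diff H358.TW.v2) t6c_all

/-- smallest rational solutions of tower height -/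
theorem tower_all : ∃ C : ℕ, ∀ n : ℕ, ∃ p : MvPolynomial (Fin (C * (n + 1))) ℤ,
    p.totalDegree ≤ 4 ∧ ∑ m ∈ p.support, |p.coeff m| ≤ C * (n + 1) ∧
      (∃ x : Fin (C * (n + 1)) → ℚ, MvPolynomial.aeval x p = 0) ∧
      ∀ x : Fin (C * (n + 1)) → ℚ, MvPolynomial.aeval x p = 0 → ∃ i, tower n ≤ (x i).den :=
  tower_solutions gen_all cstep_all qstep_all den_all chain ex_all

end Pool.Agent.H715.TW
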