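import Mathlib
import Pool.Graph.R_seed8.H528R2.Defs
import Pool.Graph.R_seed8.H528R2.Val

/-!
# Shared definitions for the project on smallest rational solutions of tower height

* `Vge q k x` (library): `x = 0` or `v_q(x) ≥ k`; `Inert q` (library): prime `≡ 3, 5 (mod 8)`,
  i.e. inert in `K = ℚ(√2)`; `Test N F` (library): existential test of `v_q(F) ≥ 1` at the inert
  primes with `v_q(N)` odd.
* `LInert q` : prime `≡ 2, 3, 4, 5 (mod 7)`, i.e. inert in the cubic field `L = ℚ(cos 2π/7)`;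
* `Nf a u v w` : the norm of `u + v θ + w θ²`, `θ` a root of Shanks's simplest cubic
  `f_a = X³ - a X² - (a+3) X - 1` (for `a = -1` this is the field `L`);
* `TestL N G` : the cubic analogue of `Test`;
* the elliptic curve `W : y² = x³ + 105 x² + 2048 x`, `P0 = (-32, 96)`,
  `zz n`, `yy n` : the coordinates of `n • P0`, `dd s n` : half the order of the pole of `zz n`
  at `s`, `rk s` : rank of apparition of `s`.
-/

namespace Pool.Agent.H715.TW

open Pool.Agent.H528R2 (Vge Inert Test)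

/-- primes inert in the cubic field of conductor `7` -/
def LInert (q : ℕ) : Prop := q.Prime ∧ (q % 7 = 2 ∨ q % 7 = 3 ∨ q % 7 = 4 ∨ q % 7 = 5)

/-- the norm form of `ℚ[θ]/(θ³ - a θ² - (a+3) θ - 1)` in the basis `1, θ, θ²` -/
def Nf (a u v w : ℚ) : ℚ :=
  u ^ 3 + a * u ^ 2 * v + (a ^ 2 + 2 * a + 6) * u ^ 2 * w - (a + 3) * u * v ^ 2
    - (a ^ 2 + 3 * a + 3) * u * v * w + (a ^ 2 + 4 * a + 9) * u * w ^ 2
    + v ^ 3 + a * v ^ 2 * w - (a + 3) * v * w ^ 2 + w ^ 3

/-- the cubic test -/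
def TestL (N G : ℚ) : Prop :=
  ∃ u v w u' v' w' : ℚ, Nf (-1 + G) u v w ≠ 0 ∧ Nf (-1 + G) u v w = N * Nf (-1) u' v' w'

/-! ### the curve -/

/-- `y² = x³ + 105 x² + 2048 x` -/
def W : WeierstrassCurve ℚ := ⟨0, 105, 0, 2048, 0⟩

abbrev Pt : Type := W.toAffine.Point

lemma P0_ns : W.toAffine.Nonsingular (-32) 96 := by
  rw [WeierstrassCurve.Affine.nonsingular_iff, WeierstrassCurve.Affine.equation_iff]
  simp only [W]
  norm_num

/-- the generator `(-32, 96)` -/
def P0 : Pt := .some (-32) 96 P0_ns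

/-- first coordinate (`0` for the point at infinity) -/
def ptX : Pt → ℚ
  | .zero => 0
  | .some x _ _ => x

/-- second coordinate (`0` for the point at infinity) -/
def ptY : Pt → ℚ
  | .zero => 0
  | .some _ y _ => y

noncomputable def zz (n : ℤ) : ℚ := ptX (n • P0)
noncomputable def yy (n : ℤ) : ℚ := ptY (n • P0)

/-- half the order of the pole of `zz n` at `s` (`0` if there is no pole) -/
noncomputable def dd (s : ℕ) (n : ℤ) : ℕ := (- padicValRat s (zz n) / 2).toNat

/-- rank of apparition: the least `n ≥ 1` such that `s` divides the denominator of `zz n`,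
and `0` if there is none -/
noncomputable def rk (s : ℕ) : ℕ := sInf {n : ℕ | 0 < n ∧ padicValRat s (zz n) < 0}

/-- `∑_s w(s) dd s n` -/
noncomputable def prw (p : ℕ) (w : ℕ → ZMod p) (n : ℤ) : ZMod p :=
  ∑ᶠ s : {s : ℕ // s.Prime}, w s * ((dd s n : ℕ) : ZMod p)

/-- the weight `1` at the primes inert in `ℚ(√2)` -/
def wt2 (s : ℕ) : ZMod 2 := if s % 8 = 3 ∨ s % 8 = 5 then 1 else 0

/-- the character `(ℤ/7)ˣ → ℤ/3` with `ψ(2) = 1` (extended by `0`) -/
def wt3 (s : ℕ) : ZMod 3 :=
  if s % 7 = 2 ∨ s % 7 = 5 then 1 else if s % 7 = 3 ∨ s % 7 = 4 then 2 else 0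

/-- the number of prime factors of `M` inert in `K` -/
noncomputable def cK (M : ℤ) : ℕ :=
  (M.natAbs.primeFactors.filter (fun q => q % 8 = 3 ∨ q % 8 = 5)).card

/-- the number of odd prime factors of `M` inert in `L` -/
noncomputable def cL (M : ℤ) : ℕ :=
  (M.natAbs.primeFactors.filter
    (fun q => q ≠ 2 ∧ (q % 7 = 2 ∨ q % 7 = 3 ∨ q % 7 = 4 ∨ q % 7 = 5))).card

/-- relation between consecutive members of the chain, `K` part -/
def RelK (M M' : ℤ) : Prop := Test (zz (2 * M) / yy (2 * M)) (zz (2 * M) / zz (2 * M'))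

/-- relation between consecutive members of the chain, `L` part -/
def RelL (M M' : ℤ) : Prop := TestL (zz (7 * M) / yy (7 * M)) (zz (7 * M') / zz (7 * M) ^ 2)

end Pool.Agent.H715.TW
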