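import Pool.Agent.H715.TW.Stm
import Pool.Graph.R_seed8.H528R3.PolyQ
import Pool.Graph.R_seed8.H528R2.Dio

/-!
# The start relation and the step relation are Diophantine over `ℚ`
-/

set_option autoImplicit false

namespace Pool.Agent.H715.TW

open Pool.Agent.H528R2 (Vge Inert Test DioQ)
open Pool.Agent.H528R2.Dio (PF DQ dq_test)

/-! ### the curve -/

/-- affine points of the curve other than `(0, 0)`, in the group generated by `P0` -/
def On (z y : ℚ) : Prop := z ≠ 0 ∧ y ^ 2 = z ^ 3 + 105 * z ^ 2 + 2048 * z ∧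
  (IsSquare z ∨ IsSquare (-(2 * z)))

theorem dq_On {f g : (ℕ → ℚ) → ℚ} (hf : PF f) (hg : PF g) : DQ (fun v => On (f v) (g v)) := by
  unfold On
  refine (DQ.ne hf PF.zero).and ((DQ.eq (hg.pow 2)
    (((hf.pow 3).add ((PF.lit 105).mul (hf.pow 2))).add ((PF.lit 2048).mul hf))).and ?_)
  exact (DQ.isSquare hf).or (DQ.isSquare ((PF.lit 2).mul hf).neg)

theorem on_iff (hG : S_GEN) (z y : ℚ) :
    On z y ↔ ∃ n : ℤ, n ≠ 0 ∧ z = zz n ∧ y = yy n := by
  constructor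
  · rintro ⟨h1, h2, h3⟩
    refine hG z y h1 h2 (h3.imp id fun h => ?_)
    rw [neg_mul]; exact h
  · rintro ⟨n, hn, rfl, rfl⟩
    refine ⟨zz_ne0 hn, curve_eq hn, ?_⟩
    rcases Int.even_or_odd n with h | h
    · exact Or.inl (sq_even h)
    · right
      have := sq_odd h
      rwa [neg_mul] at this

/-- doubling of a point -/
def Dbl (x y x' y' : ℚ) : Prop :=
  ∃ l : ℚ, l * (2 * y) = 3 * x ^ 2 + 210 * x + 2048 ∧ x' = l ^ 2 - 105 - 2 * x ∧
    y' = - (l * (x' - x) + y)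

theorem dq_Dbl {f g h k : (ℕ → ℚ) → ℚ} (hf : PF f) (hg : PF g) (hh : PF h) (hk : PF k) :
    DQ (fun v => Dbl (f v) (g v) (h v) (k v)) := by
  unfold Dbl
  refine DQ.ex ?_
  refine (DQ.eq ((PF.var _).mul ((PF.lit 2).mul hg.shift))
    ((((PF.lit 3).mul (hf.shift.pow 2)).add ((PF.lit 210).mul hf.shift)).add
      (PF.lit 2048))).and ?_
  refine (DQ.eq hh.shift ((((PF.var _).pow 2).sub (PF.lit 105)).sub
    ((PF.lit 2).mul hf.shift))).and ?_
  exact DQ.eq hk.shift ((((PF.var _).mul (hh.shift.sub hf.shift)).add hg.shift).neg)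

theorem dbl_iff {n : ℤ} (hn : n ≠ 0) (x' y' : ℚ) :
    Dbl (zz n) (yy n) x' y' ↔ x' = zz (2 * n) ∧ y' = yy (2 * n) := by
  have hP : n • P0 ≠ 0 := smul_P0_ne hn
  have hy : ptY (n • P0) ≠ 0 := yy_ne hn
  obtain ⟨-, h1, -, h2⟩ := pt_dbl hP hy
  have h3 : n • P0 + n • P0 = (2 * n) • P0 := by rw [two_mul, add_zsmul]
  rw [h3] at h1 h2
  change zz (2 * n) = _ at h1
  change yy (2 * n) = _ at h2
  unfold Dbl
  change ptY (n • P0) ≠ 0 at hy
  change (∃ l : ℚ, l * (2 * ptY (n • P0)) = 3 * ptX (n • P0) ^ 2 + 210 * ptX (n • P0) + 2048 ∧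
    x' = l ^ 2 - 105 - 2 * ptX (n • P0) ∧ y' = - (l * (x' - ptX (n • P0)) + ptY (n • P0))) ↔ _
  have hy2 : 2 * ptY (n • P0) ≠ 0 := mul_ne_zero two_ne_zero hy
  constructor
  · rintro ⟨l, hl, rfl, rfl⟩
    have : l = (3 * ptX (n • P0) ^ 2 + 210 * ptX (n • P0) + 2048) / (2 * ptY (n • P0)) :=
      (eq_div_iff hy2).2 hl
    rw [← this] at h1 h2
    refine ⟨h1.symm, ?_⟩
    rw [h2]
    change _ = -(l * (zz (2 * n) - ptX (n • P0)) + ptY (n • P0))
    rw [h1]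
  · rintro ⟨rfl, rfl⟩
    exact ⟨_, div_mul_cancel₀ _ hy2, h1, h2⟩

/-- the chord formula -/
def Chd (x1 y1 x2 y2 x y : ℚ) : Prop :=
  ∃ l : ℚ, l * (x1 - x2) = y1 - y2 ∧ x = l ^ 2 - 105 - x1 - x2 ∧ y = - (l * (x - x1) + y1)

theorem dq_Chd {f1 g1 f2 g2 f g : (ℕ → ℚ) → ℚ} (hf1 : PF f1) (hg1 : PF g1) (hf2 : PF f2)
    (hg2 : PF g2) (hf : PF f) (hg : PF g) :
    DQ (fun v => Chd (f1 v) (g1 v) (f2 v) (g2 v) (f v) (g v)) := by
  unfold Chd
  refine DQ.ex ?_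
  refine (DQ.eq ((PF.var _).mul (hf1.shift.sub hf2.shift)) (hg1.shift.sub hg2.shift)).and ?_
  refine (DQ.eq hf.shift (((((PF.var _).pow 2).sub (PF.lit 105)).sub hf1.shift).sub
    hf2.shift)).and ?_
  exact DQ.eq hg.shift ((((PF.var _).mul (hf.shift.sub hf1.shift)).add hg1.shift).neg)

theorem chd_iff {m n : ℤ} (hm : m ≠ 0) (hn : n ≠ 0) (h : zz m ≠ zz n) (x y : ℚ) :
    Chd (zz m) (yy m) (zz n) (yy n) x y ↔ x = zz (m + n) ∧ y = yy (m + n) := by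
  have hP : m • P0 ≠ 0 := smul_P0_ne hm
  have hQ : n • P0 ≠ 0 := smul_P0_ne hn
  obtain ⟨-, h1, h2⟩ := pt_add hP hQ h
  have h3 : m • P0 + n • P0 = (m + n) • P0 := by rw [add_zsmul]
  rw [h3] at h1 h2
  change zz (m + n) = ((yy m - yy n) / (zz m - zz n)) ^ 2 - 105 - zz m - zz n at h1
  change yy (m + n) = -((yy m - yy n) / (zz m - zz n) * (zz (m + n) - zz m) + yy m) at h2
  have hy2 : zz m - zz n ≠ 0 := sub_ne_zero.2 h
  constructor
  · rintro ⟨l, hl, rfl, rfl⟩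
    have : l = (yy m - yy n) / (zz m - zz n) := (eq_div_iff hy2).2 hl
    rw [← this] at h1 h2
    refine ⟨h1.symm, ?_⟩
    rw [h2, h1]
  · rintro ⟨rfl, rfl⟩
    exact ⟨_, div_mul_cancel₀ _ hy2, h1, h2⟩

/-! ### multiplication by a positive integer -/

/-- multiplication by `k + 1` -/
def MulR : ℕ → ℚ → ℚ → ℚ → ℚ → Prop
  | 0, x, y, x', y' => x' = x ∧ y' = y
  | 1, x, y, x', y' => Dbl x y x' y'
  | (k + 2), x, y, x', y' => ∃ a b : ℚ, MulR (k + 1) x y a b ∧ Chd a b x y x' y'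

theorem mulR_iff (k : ℕ) {n : ℤ} (hn : n ≠ 0) (x' y' : ℚ) :
    MulR k (zz n) (yy n) x' y' ↔ x' = zz ((k + 1 : ℕ) * n) ∧ y' = yy ((k + 1 : ℕ) * n) := by
  induction k using Nat.strong_induction_on generalizing x' y' with
  | _ k ih =>
    match k, ih with
    | 0, _ => simp [MulR]
    | 1, _ =>
      simp only [MulR]
      rw [dbl_iff hn]
      norm_num
    | (k + 2), ih =>
      have h1 : ((k + 1 + 1 : ℕ) : ℤ) * n ≠ 0 := mul_ne_zero (by positivity) hn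
      have hne : zz (((k + 1 + 1 : ℕ) : ℤ) * n) ≠ zz n := by
        rw [Ne, zz_eq_iff h1 hn]
        rintro (h | h)
        · have h2 : (((k + 1 : ℕ) : ℤ)) * n = 0 := by push_cast at h ⊢; linarith
          exact mul_ne_zero (by positivity) hn h2
        · have h2 : (((k + 3 : ℕ) : ℤ)) * n = 0 := by push_cast at h ⊢; linarith
          exact mul_ne_zero (by positivity) hn h2
      have e : ((k + 1 + 1 : ℕ) : ℤ) * n + n = ((k + 2 + 1 : ℕ) : ℤ) * n := by push_cast; ring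
      simp only [MulR]
      constructor
      · rintro ⟨a, b, h, h'⟩
        obtain ⟨rfl, rfl⟩ := (ih (k + 1) (by omega) a b).1 h
        have := (chd_iff h1 hn hne _ _).1 h'
        rwa [e] at this
      · rintro ⟨rfl, rfl⟩
        refine ⟨_, _, (ih (k + 1) (by omega) _ _).2 ⟨rfl, rfl⟩, ?_⟩
        rw [chd_iff h1 hn hne, e]
        exact ⟨rfl, rfl⟩

theorem dq_MulR (k : ℕ) : ∀ {f g h l : (ℕ → ℚ) → ℚ}, PF f → PF g → PF h → PF l →
    DQ (fun v => MulR k (f v) (g v) (h v) (l v)) := by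
  induction k using Nat.strong_induction_on with
  | _ k ih =>
    match k, ih with
    | 0, _ =>
      intro f g h l hf hg hh hl
      exact (DQ.eq hh hf).and (DQ.eq hl hg)
    | 1, _ =>
      intro f g h l hf hg hh hl
      exact dq_Dbl hf hg hh hl
    | (k + 2), ih =>
      intro f g h l hf hg hh hl
      refine DQ.ex (DQ.ex ?_)
      exact (ih (k + 1) (by omega) hf.shift.shift hg.shift.shift (PF.var _) (PF.var _)).and
        (dq_Chd (PF.var _) (PF.var _) hf.shift.shift hg.shift.shift hh.shift.shift hl.shift.shift)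

/-- multiplication by the elements of a list -/
def MulL : List ℕ → ℚ → ℚ → ℚ → ℚ → Prop
  | [], x, y, x', y' => x' = x ∧ y' = y
  | (p :: ps), x, y, x', y' => ∃ a b : ℚ, MulR (p - 1) x y a b ∧ MulL ps a b x' y'

theorem mulL_iff (ps : List ℕ) (hp : ∀ p ∈ ps, 0 < p) {n : ℤ} (hn : n ≠ 0) (x' y' : ℚ) :
    MulL ps (zz n) (yy n) x' y' ↔ x' = zz ((ps.prod : ℕ) * n) ∧ y' = yy ((ps.prod : ℕ) * n) := by
  induction ps generalizing n with
  | nil => simp [MulL]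
  | cons p ps ih =>
    have hp0 : 0 < p := hp p (by simp)
    have hp1 : p - 1 + 1 = p := by omega
    have hpn : (p : ℤ) * n ≠ 0 := mul_ne_zero (by positivity) hn
    have ih := ih (fun q hq => hp q (by simp [hq])) hpn
    have e : ((ps.prod : ℕ) : ℤ) * ((p : ℤ) * n) = (((p :: ps).prod : ℕ) : ℤ) * n := by
      rw [List.prod_cons]; push_cast; ring
    rw [e] at ih
    rw [← ih]
    simp only [MulL]
    constructor
    · rintro ⟨a, b, h, h'⟩
      obtain ⟨rfl, rfl⟩ := (mulR_iff _ hn a b).1 h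
      rwa [hp1] at h'
    · intro h
      refine ⟨_, _, (mulR_iff _ hn _ _).2 ⟨rfl, rfl⟩, ?_⟩
      rwa [hp1]

theorem dq_MulL (ps : List ℕ) : ∀ {f g h l : (ℕ → ℚ) → ℚ}, PF f → PF g → PF h → PF l →
    DQ (fun v => MulL ps (f v) (g v) (h v) (l v)) := by
  induction ps with
  | nil =>
    intro f g h l hf hg hh hl
    exact (DQ.eq hh hf).and (DQ.eq hl hg)
  | cons p ps ih =>
    intro f g h l hf hg hh hl
    refine DQ.ex (DQ.ex ?_)
    exact (dq_MulR _ hf.shift.shift hg.shift.shift (PF.var _) (PF.var _)).and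
      (ih (PF.var _) (PF.var _) hh.shift.shift hl.shift.shift)

/-! ### the cubic test -/

theorem pf_Nf {a u v w : (ℕ → ℚ) → ℚ} (ha : PF a) (hu : PF u) (hv : PF v) (hw : PF w) :
    PF (fun x => Nf (a x) (u x) (v x) (w x)) := by
  unfold Nf
  have l2 := PF.lit 2
  have l3 := PF.lit 3
  have l4 := PF.lit 4
  have l6 := PF.lit 6
  have l9 := PF.lit 9
  have t1 := hu.pow 3
  have t2 := (ha.mul (hu.pow 2)).mul hv
  have t3 := ((((ha.pow 2).add (l2.mul ha)).add l6).mul (hu.pow 2)).mul hw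
  have t4 := ((ha.add l3).mul hu).mul (hv.pow 2)
  have t5 := (((((ha.pow 2).add (l3.mul ha)).add l3).mul hu).mul hv).mul hw
  have t6 := ((((ha.pow 2).add (l4.mul ha)).add l9).mul hu).mul (hw.pow 2)
  have t7 := hv.pow 3
  have t8 := (ha.mul (hv.pow 2)).mul hw
  have t9 := ((ha.add l3).mul hv).mul (hw.pow 2)
  have t10 := hw.pow 3
  exact ((((((((t1.add t2).add t3).sub t4).sub t5).add t6).add t7).add t8).sub t9).add t10

theorem dq_testL {f g : (ℕ → ℚ) → ℚ} (hf : PF f) (hg : PF g) :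
    DQ (fun v => TestL (f v) (g v)) := by
  unfold TestL
  refine DQ.ex (DQ.ex (DQ.ex (DQ.ex (DQ.ex (DQ.ex ?_)))))
  have hf' := hf.shift.shift.shift.shift.shift.shift
  have hg' := hg.shift.shift.shift.shift.shift.shift
  have h1 := pf_Nf (PF.one.neg.add hg') (PF.var 5) (PF.var 4) (PF.var 3)
  have h2 := pf_Nf PF.one.neg (PF.var 2) (PF.var 1) (PF.var 0)
  exact (DQ.ne h1 PF.zero).and (DQ.eq h1 (hf'.mul h2))

/-! ### the start -/

/-- eight primes inert in `ℚ(√2)` -/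
def ps0 : List ℕ := [11, 13, 19, 29, 37, 43, 53, 59]

/-- the start relation -/
def StR (a b : ℚ) : Prop :=
  ∃ x u z y : ℚ, On x u ∧ MulL ps0 x u z y ∧ MulR 6 z y a b

theorem stR_iff (hG : S_GEN) (a b : ℚ) :
    StR a b ↔ ∃ M : ℤ, M ≠ 0 ∧ ((ps0.prod : ℕ) : ℤ) ∣ M ∧ a = zz (7 * M) ∧ b = yy (7 * M) := by
  have hpos : ∀ p ∈ ps0, 0 < p := by decide
  have hprod : ((ps0.prod : ℕ) : ℤ) ≠ 0 := by decide
  constructor
  · rintro ⟨x, u, z, y, h1, h2, h3⟩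
    obtain ⟨n, hn, rfl, rfl⟩ := (on_iff hG x u).1 h1
    obtain ⟨rfl, rfl⟩ := (mulL_iff ps0 hpos hn z y).1 h2
    have hM : ((ps0.prod : ℕ) : ℤ) * n ≠ 0 := mul_ne_zero hprod hn
    have := (mulR_iff 6 hM a b).1 h3
    exact ⟨_, hM, dvd_mul_right _ _, this⟩
  · rintro ⟨M, hM, ⟨n, rfl⟩, ha, hb⟩
    have hn : n ≠ 0 := by rintro rfl; simp at hM
    exact ⟨zz n, yy n, _, _, (on_iff hG _ _).2 ⟨n, hn, rfl, rfl⟩,
      (mulL_iff ps0 hpos hn _ _).2 ⟨rfl, rfl⟩, (mulR_iff 6 hM a b).2 ⟨ha, hb⟩⟩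

theorem dio_start : DioQ 2 (fun x => StR (x 0) (x 1)) := by
  refine DQ.dioQ (P := fun x : Fin 2 → ℚ => StR (x 0) (x 1)) ?_
  refine DQ.ex (DQ.ex (DQ.ex (DQ.ex ?_)))
  exact (dq_On (PF.var _) (PF.var _)).and
    ((dq_MulL ps0 (PF.var _) (PF.var _) (PF.var _) (PF.var _)).and
      (dq_MulR 6 (PF.var _) (PF.var _) (PF.var _) (PF.var _)))

theorem start_card {M : ℤ} (hM : M ≠ 0) (h : ((ps0.prod : ℕ) : ℤ) ∣ M) : 8 ≤ cK M := by
  have hsub : ps0.toFinset ⊆ M.natAbs.primeFactors.filter (fun q => q % 8 = 3 ∨ q % 8 = 5) := by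
    intro p hp
    rw [List.mem_toFinset] at hp
    rw [Finset.mem_filter, Nat.mem_primeFactors]
    have h1 : (p : ℤ) ∣ ((ps0.prod : ℕ) : ℤ) := by exact_mod_cast List.dvd_prod hp
    refine ⟨⟨?_, Int.natCast_dvd.1 (h1.trans h), by simpa using hM⟩, ?_⟩
    · simp only [ps0, List.mem_cons, List.not_mem_nil, or_false] at hp
      rcases hp with rfl | rfl | rfl | rfl | rfl | rfl | rfl | rfl <;> norm_num
    · simp only [ps0, List.mem_cons, List.not_mem_nil, or_false] at hp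
      omega
  have h2 := Finset.card_le_card hsub
  have h3 : ps0.toFinset.card = 8 := by decide
  unfold cK
  omega

/-! ### the step -/

/-- the step relation, for `(a, b) = 7 M • P0`, `(a', b') = 7 M' • P0` -/
def StepR (a b a' b' : ℚ) : Prop :=
  ∃ z y z' y' c d c' d' N F K G : ℚ, On z y ∧ On z' y' ∧ MulR 6 z y a b ∧ MulR 6 z' y' a' b' ∧
    Dbl z y c d ∧ Dbl z' y' c' d' ∧ N * d = c ∧ F * c' = c ∧ Test N F ∧ K * b = a ∧
    G * a ^ 2 = a' ∧ TestL K G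

theorem eq_of_seven {m n : ℤ} (hm : m ≠ 0) (hn : n ≠ 0) (h1 : zz (7 * m) = zz (7 * n))
    (h2 : yy (7 * m) = yy (7 * n)) : m = n := by
  have hm' : 7 * m ≠ 0 := mul_ne_zero (by norm_num) hm
  have hn' : 7 * n ≠ 0 := mul_ne_zero (by norm_num) hn
  rcases (zz_eq_iff hm' hn').1 h1 with h | h
  · omega
  · exfalso
    rw [h, yy_neg] at h2
    exact yy_ne hn' (by linarith)

theorem stepR_iff (hG : S_GEN) {M : ℤ} (hM : M ≠ 0) (a' b' : ℚ) :
    StepR (zz (7 * M)) (yy (7 * M)) a' b' ↔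
      ∃ M' : ℤ, M' ≠ 0 ∧ a' = zz (7 * M') ∧ b' = yy (7 * M') ∧ RelK M M' ∧ RelL M M' := by
  have h7 : 7 * M ≠ 0 := mul_ne_zero (by norm_num) hM
  have h2 : 2 * M ≠ 0 := mul_ne_zero (by norm_num) hM
  constructor
  · rintro ⟨z, y, z', y', c, d, c', d', N, F, K, G, h1, h1', m1, m1', d1, d1', e1, e2, t1, e3,
      e4, t2⟩
    obtain ⟨n, hn, rfl, rfl⟩ := (on_iff hG z y).1 h1
    obtain ⟨M', hM', rfl, rfl⟩ := (on_iff hG z' y').1 h1'
    obtain ⟨f1, f2⟩ := (mulR_iff 6 hn _ _).1 m1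
    have hnM : M = n := eq_of_seven hM hn (by simpa using f1) (by simpa using f2)
    subst hnM
    obtain ⟨rfl, rfl⟩ := (mulR_iff 6 hM' _ _).1 m1'
    obtain ⟨rfl, rfl⟩ := (dbl_iff hM _ _).1 d1
    obtain ⟨rfl, rfl⟩ := (dbl_iff hM' _ _).1 d1'
    have h2' : 2 * M' ≠ 0 := mul_ne_zero (by norm_num) hM'
    obtain rfl := (eq_div_iff (yy_ne h2)).2 e1
    obtain rfl := (eq_div_iff (zz_ne0 h2')).2 e2
    obtain rfl := (eq_div_iff (yy_ne h7)).2 e3
    obtain rfl := (eq_div_iff (pow_ne_zero 2 (zz_ne0 h7))).2 e4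
    refine ⟨M', hM', by norm_num, by norm_num, t1, ?_⟩
    have : zz (((6 + 1 : ℕ) : ℤ) * M') = zz (7 * M') := by norm_num
    rw [this] at t2
    exact t2
  · rintro ⟨M', hM', rfl, rfl, t1, t2⟩
    have h2' : 2 * M' ≠ 0 := mul_ne_zero (by norm_num) hM'
    exact ⟨_, _, _, _, _, _, _, _, _, _, _, _, (on_iff hG _ _).2 ⟨M, hM, rfl, rfl⟩,
      (on_iff hG _ _).2 ⟨M', hM', rfl, rfl⟩,
      (mulR_iff 6 hM _ _).2 ⟨by norm_num, by norm_num⟩,
      (mulR_iff 6 hM' _ _).2 ⟨by norm_num, by norm_num⟩,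
      (dbl_iff hM _ _).2 ⟨rfl, rfl⟩, (dbl_iff hM' _ _).2 ⟨rfl, rfl⟩,
      div_mul_cancel₀ _ (yy_ne h2), div_mul_cancel₀ _ (zz_ne0 h2'), t1,
      div_mul_cancel₀ _ (yy_ne h7), div_mul_cancel₀ _ (pow_ne_zero 2 (zz_ne0 h7)), t2⟩

theorem dio_step : DioQ 4 (fun x => StepR (x 0) (x 1) (x 2) (x 3)) := by
  refine DQ.dioQ (P := fun x : Fin 4 → ℚ => StepR (x 0) (x 1) (x 2) (x 3)) ?_
  refine DQ.ex (DQ.ex (DQ.ex (DQ.ex (DQ.ex (DQ.ex (DQ.ex (DQ.ex (DQ.ex (DQ.ex (DQ.ex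
    (DQ.ex ?_)))))))))))
  refine (dq_On (PF.var _) (PF.var _)).and ?_
  refine (dq_On (PF.var _) (PF.var _)).and ?_
  refine (dq_MulR 6 (PF.var _) (PF.var _) (PF.var _) (PF.var _)).and ?_
  refine (dq_MulR 6 (PF.var _) (PF.var _) (PF.var _) (PF.var _)).and ?_
  refine (dq_Dbl (PF.var _) (PF.var _) (PF.var _) (PF.var _)).and ?_
  refine (dq_Dbl (PF.var _) (PF.var _) (PF.var _) (PF.var _)).and ?_
  refine (DQ.eq ((PF.var _).mul (PF.var _)) (PF.var _)).and ?_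
  refine (DQ.eq ((PF.var _).mul (PF.var _)) (PF.var _)).and ?_
  refine (dq_test (PF.var _) (PF.var _)).and ?_
  refine (DQ.eq ((PF.var _).mul (PF.var _)) (PF.var _)).and ?_
  refine (DQ.eq ((PF.var _).mul ((PF.var _).pow 2)) (PF.var _)).and ?_
  exact dq_testL (PF.var _) (PF.var _)

end Pool.Agent.H715.TW
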