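import Pool.Agent.H715.TW.All

/-!
# No elementary bound for the smallest rational solutions
-/

namespace Pool.Agent.H715.TW

open MvPolynomial

theorem tower_add (k : ℕ) : ∀ n, tower (n + k) = (fun m => 2 ^ m)^[k] (tower n) := by
  induction k with
  | zero => intro n; rfl
  | succ k ih =>
    intro n
    rw [Function.iterate_succ_apply', ← ih n]
    rfl

theorem tower_pos (n : ℕ) : 1 ≤ tower n := by
  cases n with
  | zero => exact le_refl _
  | succ n => exact Nat.one_le_two_pow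

/-- crude lower bounds -/
theorem two_pow_le_tower : ∀ n, n + 1 ≤ tower n ∧ 2 ^ n ≤ tower (n + 1) := by
  intro n
  induction n with
  | zero => exact ⟨le_refl _, by simp [tower]⟩
  | succ n ih =>
    have h1 : n + 2 ≤ tower (n + 1) := by
      have h2 : n + 1 < 2 ^ (n + 1) := Nat.lt_two_pow_self
      have h3 : 2 ^ (n + 1) ≤ 2 ^ tower n := Nat.pow_le_pow_right (by norm_num) ih.1
      have h4 : tower (n + 1) = 2 ^ tower n := rfl
      omega
    refine ⟨h1, ?_⟩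
    show 2 ^ (n + 1) ≤ 2 ^ tower (n + 1)
    exact Nat.pow_le_pow_right (by norm_num) (by omega)

theorem lin_le_two_pow (C k : ℕ) : ∃ n, C * (n + 1 + k + 1) ≤ 2 ^ n := by
  refine ⟨2 * (2 * C + k + 3), ?_⟩
  have h1 : 2 * C + k + 3 < 2 ^ (2 * C + k + 3) := Nat.lt_two_pow_self
  have h2 : 2 ^ (2 * (2 * C + k + 3)) = 2 ^ (2 * C + k + 3) * 2 ^ (2 * C + k + 3) := by
    rw [two_mul (2 * C + k + 3), pow_add]
  have h3 : (2 * C + k + 4) * (2 * C + k + 4) ≤ 2 ^ (2 * C + k + 3) * 2 ^ (2 * C + k + 3) :=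
    Nat.mul_le_mul h1 h1
  rw [h2]
  refine le_trans ?_ h3
  nlinarith [Nat.zero_le C, Nat.zero_le k, Nat.zero_le (C * k), Nat.zero_le (k * k)]

/-- no bound by an iterated exponential -/
theorem no_elementary_bound (k : ℕ) : ∃ (N : ℕ) (p : MvPolynomial (Fin N) ℤ),
    p.totalDegree ≤ 4 ∧ ∑ m ∈ p.support, |p.coeff m| ≤ N ∧
      (∃ x : Fin N → ℚ, aeval x p = 0) ∧
      ∀ x : Fin N → ℚ, aeval x p = 0 → ∃ i, (fun m => 2 ^ m)^[k] N ≤ (x i).den := by
  obtain ⟨C, hC⟩ := tower_all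
  obtain ⟨n, hn⟩ := lin_le_two_pow C k
  obtain ⟨p, h1, h2, h3, h4⟩ := hC (n + 1 + k)
  refine ⟨C * (n + 1 + k + 1), p, h1, by exact_mod_cast h2, h3, fun x hx => ?_⟩
  obtain ⟨i, hi⟩ := h4 x hx
  refine ⟨i, le_trans ?_ hi⟩
  rw [tower_add]
  have hmono : Monotone (fun m : ℕ => 2 ^ m) := fun a b h => Nat.pow_le_pow_right (by norm_num) h
  exact hmono.iterate k (hn.trans (two_pow_le_tower n).2)

end Pool.Agent.H715.TW
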