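import Pool.Agent.H715.TW.CurvePt

/-!
# Points with a pole at `s` form a subgroup
-/

namespace Pool.Agent.H715.TW

open Pool.Agent.H528R2 (Vge val_mul val_div val_pow val_sub val_add val_inv ne_zero_of_val vge_ofNat vge_int)


theorem Filt.ne_zero_of_pole {s : ℕ} {P : Pt} (h : padicValRat s (ptX P) < 0) :
    ptX P ≠ 0 ∧ P ≠ 0 := by
  have h0 : ptX P ≠ 0 := ne_zero_of_val h.ne
  refine ⟨h0, ?_⟩
  rintro rfl
  exact h0 rfl

theorem pole_val {s : ℕ} (hs : s.Prime) {P : Pt} (h : padicValRat s (ptX P) < 0) :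
    ∃ d : ℕ, 1 ≤ d ∧ padicValRat s (ptX P) = -2 * d ∧ padicValRat s (ptY P) = -3 * d := by
  obtain ⟨h0, hP⟩ := Filt.ne_zero_of_pole h
  have heq := pt_eq hP
  set X := ptX P with hX
  set Y := ptY P with hY
  have hv3 : padicValRat s (X ^ 3) = 3 * padicValRat s X := by
    rw [val_pow hs]; norm_num
  have h2 : Vge s (2 * padicValRat s X) (105 * X ^ 2) := by
    have := Vge.ofNat_mul hs 105 (Vge.pow hs (Vge.self s X) 2)
    simpa using this
  have h65 : Vge s (padicValRat s X) (2048 * X) := Vge.ofNat_mul hs 2048 (Vge.self s X)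
  have hsub : Vge s (padicValRat s (X ^ 3) + 1) (105 * X ^ 2 + 2048 * X) := by
    rw [hv3]
    exact Vge.add hs (h2.mono (by omega)) (h65.mono (by omega))
  obtain ⟨-, hval⟩ := val_add hs (pow_ne_zero 3 h0) hsub
  have hY2 : Y ^ 2 = X ^ 3 + (105 * X ^ 2 + 2048 * X) := by rw [heq]; ring
  rw [← hY2, val_pow hs, hv3] at hval
  have hval' : 2 * padicValRat s Y = 3 * padicValRat s X := by exact_mod_cast hval
  refine ⟨(- padicValRat s X / 2).toNat, ?_, ?_, ?_⟩ <;> omega

theorem pole_add {s : ℕ} (hs : s.Prime) {P Q : Pt} (hP : padicValRat s (ptX P) < 0)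
    (hQ : padicValRat s (ptX Q) < 0) : P + Q = 0 ∨ padicValRat s (ptX (P + Q)) < 0 := by
  obtain ⟨hX1, hP0⟩ := Filt.ne_zero_of_pole hP
  obtain ⟨hX2, hQ0⟩ := Filt.ne_zero_of_pole hQ
  obtain ⟨d1, hd1, hv1, hw1⟩ := pole_val hs hP
  obtain ⟨d2, hd2, hv2, hw2⟩ := pole_val hs hQ
  by_cases heq : ptX P = ptX Q
  · rcases (ptX_eq_iff hP0 hQ0).1 heq with h | h
    · right
      subst h
      have hY : ptY P ≠ 0 := ne_zero_of_val (s := s) (by omega)
      obtain ⟨-, -, hx, -⟩ := pt_dbl hP0 hY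
      rw [hx]
      have h1 : padicValRat s (ptX P ^ 2) = -4 * d1 := by
        rw [val_pow hs, hv1]; push_cast; ring
      obtain ⟨hne, hval⟩ := val_sub hs (y := 2048) (pow_ne_zero 2 hX1)
        ((vge_ofNat s 2048).mono (by omega))
      have h2 : 0 ≤ padicValRat s (2 : ℚ) := (vge_ofNat s 2).le (by norm_num)
      rw [val_pow hs, val_div hs hne (mul_ne_zero two_ne_zero hY), val_mul hs two_ne_zero hY,
        hval, h1, hw1]
      push_cast
      omega
    · left; rw [h]; simp
  · right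
    have hprod := pt_prod hP0 hQ0 heq
    have hsum := pt_sum hP0 hQ0 heq
    set X1 := ptX P
    set X2 := ptX Q
    set A := ptX (P + Q)
    set B := ptX (P - Q)
    have hD : X1 - X2 ≠ 0 := sub_ne_zero.2 heq
    have hX12 : X1 * X2 ≠ 0 := mul_ne_zero hX1 hX2
    have hv12 : padicValRat s (X1 * X2) = -2 * d1 - 2 * d2 := by
      rw [val_mul hs hX1 hX2, hv1, hv2]; ring
    obtain ⟨hne, hval⟩ := val_sub hs (y := 2048) hX12 ((vge_ofNat s 2048).mono (by omega))
    obtain ⟨hne', hval'⟩ := val_add hs (y := 2048) hX12 ((vge_ofNat s 2048).mono (by omega))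
    -- lower bound for the valuation of the difference
    have hδ : Vge s (- 2 * max (d1 : ℤ) d2) (X1 - X2) :=
      Vge.sub hs ((Vge.self s X1).mono (by omega)) ((Vge.self s X2).mono (by omega))
    have hδ' := hδ.le hD
    set δ := padicValRat s (X1 - X2)
    have hprodne : A * B ≠ 0 := by
      rw [hprod]; exact pow_ne_zero 2 (div_ne_zero hne hD)
    have hA : A ≠ 0 := left_ne_zero_of_mul hprodne
    have hB : B ≠ 0 := right_ne_zero_of_mul hprodne
    have hvprod : padicValRat s A + padicValRat s B = 2 * ((-2 * d1 - 2 * d2) - δ) := by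
      rw [← val_mul hs hA hB, hprod, val_pow hs, val_div hs hne hD, hval, hv12]
      push_cast; ring
    by_contra hcon
    push Not at hcon
    have hBneg : padicValRat s B < 0 := by omega
    -- sum
    have hnum : Vge s ((-2 * d1 - 2 * d2) - 2 * max (d1 : ℤ) d2)
        (2 * ((X1 + X2) * (X1 * X2 + 2048) + 210 * X1 * X2)) := by
      apply Vge.ofNat_mul hs 2
      apply Vge.add hs
      · have h1 : Vge s (-2 * max (d1 : ℤ) d2) (X1 + X2) :=
          Vge.add hs ((Vge.self s X1).mono (by omega)) ((Vge.self s X2).mono (by omega))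
        have h2 : Vge s (-2 * d1 - 2 * d2 : ℤ) (X1 * X2 + 2048) := by
          rw [← hv12, ← hval']; exact Vge.self _ _
        exact (Vge.mul hs h1 h2).mono (by omega)
      · rw [mul_assoc]
        have h2 : Vge s (-2 * d1 - 2 * d2 : ℤ) (X1 * X2) := by
          rw [← hv12]; exact Vge.self _ _
        exact (Vge.ofNat_mul hs 210 h2).mono (by omega)
    obtain ⟨hBA, hvBA⟩ := val_add hs (y := A) hB ((Vge.self s A).mono (by omega))
    rw [add_comm] at hBA hvBA
    have hden : (X1 - X2) ^ 2 ≠ 0 := pow_ne_zero 2 hD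
    have hnum0 : 2 * ((X1 + X2) * (X1 * X2 + 2048) + 210 * X1 * X2) ≠ 0 := by
      intro h
      rw [h, zero_div] at hsum
      exact hBA hsum
    have hv := hnum.le hnum0
    rw [hsum, val_div hs hnum0 hden, val_pow hs] at hvBA
    push_cast at hvBA
    omega

end Pool.Agent.H715.TW
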