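import Pool.Agent.H715.TW.Filt

/-! B3: the formal group of `Y² = Z³ + 105 Z² + 2048 Z` at a prime `s`. -/

namespace Pool.Agent.H715.TW

open Pool.Agent.H528R2 (Vge val_mul val_div val_pow val_sub val_add val_inv ne_zero_of_val vge_ofNat vge_int)

namespace Formal

section norm
variable {s : ℕ} [hs : Fact s.Prime]

lemma N_add_le {x y D : ℚ} (hx : padicNorm s x ≤ D) (hy : padicNorm s y ≤ D) :
    padicNorm s (x + y) ≤ D :=
  (padicNorm.nonarchimedean).trans (max_le hx hy)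

lemma N_sub_le {x y D : ℚ} (hx : padicNorm s x ≤ D) (hy : padicNorm s y ≤ D) :
    padicNorm s (x - y) ≤ D := by
  rw [sub_eq_add_neg]
  exact N_add_le hx (by rwa [padicNorm.neg])

lemma N_unit {x : ℚ} (hx : padicNorm s x < 1) : padicNorm s (1 + x) = 1 := by
  rw [padicNorm.add_eq_max_of_ne, padicNorm.one]
  · exact max_eq_left hx.le
  · rw [padicNorm.one]; exact hx.ne'

lemma N_unit' {x : ℚ} (hx : padicNorm s x < 1) : 1 + x ≠ 0 := by
  intro h
  have := N_unit hx
  rw [h, padicNorm.zero] at this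
  exact zero_ne_one this

lemma N_int_mul_le (n : ℤ) {x D : ℚ} (hx : padicNorm s x ≤ D) : padicNorm s ((n : ℚ) * x) ≤ D := by
  rw [padicNorm.mul]
  have h1 := padicNorm.of_int (p := s) n
  have h2 := padicNorm.nonneg (p := s) x
  nlinarith [padicNorm.nonneg (p := s) (n : ℚ)]

lemma N_105 {x D : ℚ} (hx : padicNorm s x ≤ D) : padicNorm s ((-105) * x) ≤ D := by
  have := N_int_mul_le (-105) hx
  push_cast at this
  exact this

lemma N_210 {x D : ℚ} (hx : padicNorm s x ≤ D) : padicNorm s ((-210) * x) ≤ D := by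
  have := N_int_mul_le (-210) hx
  push_cast at this
  exact this

lemma N_mul_le {x y A B : ℚ} (hx : padicNorm s x ≤ A) (hy : padicNorm s y ≤ B) :
    padicNorm s (x * y) ≤ A * B := by
  rw [padicNorm.mul]
  exact mul_le_mul hx hy (padicNorm.nonneg _) ((padicNorm.nonneg _).trans hx)

lemma N_pow_le {x A : ℚ} (hx : padicNorm s x ≤ A) (n : ℕ) :
    padicNorm s (x ^ n) ≤ A ^ n := by
  induction n with
  | zero => simp
  | succ n ih => rw [pow_succ, pow_succ]; exact N_mul_le ih hx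

/-- `w = z³ + 105 z² w + 2048 z w²`, with `|z| ≤ D`, `|w| ≤ D³` -/
structure ZW (s : ℕ) [Fact s.Prime] (D z w : ℚ) : Prop where
  hz : padicNorm s z ≤ D
  hw : padicNorm s w ≤ D ^ 3
  eqn : w = z ^ 3 + 105 * z ^ 2 * w + 2048 * z * w ^ 2

lemma D_pow_le {D : ℚ} (h0 : 0 ≤ D) (h1 : D ≤ 1) {a b : ℕ} (h : a ≤ b) : D ^ b ≤ D ^ a :=
  pow_le_pow_of_le_one h0 h1 h

/-- the chord in the `(z, w)` plane -/
lemma chord {D z1 w1 z2 w2 : ℚ} (hD0 : 0 ≤ D) (hD1 : D < 1) (h1 : ZW s D z1 w1)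
    (h2 : ZW s D z2 w2) :
    ∃ lam : ℚ, padicNorm s lam ≤ D ^ 2 ∧ w2 - w1 = lam * (z2 - z1) := by
  have hD1' := hD1.le
  set U : ℚ := (-105) * z2 ^ 2 - 2048 * z1 * (w1 + w2) with hU
  set V : ℚ := z2 ^ 2 + z1 * z2 + z1 ^ 2 - (-105) * w1 * (z1 + z2) + 2048 * w2 ^ 2 with hV
  have p2 : D ^ 3 ≤ D ^ 2 := D_pow_le hD0 hD1' (by norm_num)
  have p4 : D ^ 4 ≤ D ^ 2 := D_pow_le hD0 hD1' (by norm_num)
  have p6 : D ^ 6 ≤ D ^ 2 := D_pow_le hD0 hD1' (by norm_num)
  have p21 : D ^ 2 ≤ D := by nlinarith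
  have NU : padicNorm s U ≤ D ^ 2 := by
    rw [hU]
    refine N_sub_le ?_ ?_
    · exact N_105 (N_pow_le h2.hz 2)
    · have : padicNorm s (z1 * (w1 + w2)) ≤ D * D ^ 3 := N_mul_le h1.hz (N_add_le h1.hw h2.hw)
      have h3 := N_int_mul_le (s := s) 2048 this
      rw [mul_assoc]
      refine le_trans (by exact_mod_cast h3) ?_
      calc D * D ^ 3 = D ^ 4 := by ring
        _ ≤ _ := p4
  have NV : padicNorm s V ≤ D ^ 2 := by
    rw [hV]
    refine N_add_le (N_sub_le (N_add_le (N_add_le (N_pow_le h2.hz 2) ?_) (N_pow_le h1.hz 2)) ?_) ?_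
    · have := N_mul_le h1.hz h2.hz
      rwa [← pow_two] at this
    · have : padicNorm s (w1 * (z1 + z2)) ≤ D ^ 3 * D := N_mul_le h1.hw (N_add_le h1.hz h2.hz)
      have h3 := N_105 this
      rw [mul_assoc]
      refine le_trans h3 ?_
      calc D ^ 3 * D = D ^ 4 := by ring
        _ ≤ _ := p4
    · have : padicNorm s (w2 ^ 2) ≤ (D ^ 3) ^ 2 := N_pow_le h2.hw 2
      have h3 := N_int_mul_le (s := s) 2048 this
      refine le_trans (by exact_mod_cast h3) ?_
      calc (D ^ 3) ^ 2 = D ^ 6 := by ring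
        _ ≤ _ := p6
  have hU1 : padicNorm s U < 1 := lt_of_le_of_lt (NU.trans p21) hD1
  have hne := N_unit' hU1
  refine ⟨V / (1 + U), ?_, ?_⟩
  · rw [padicNorm.div, N_unit hU1, div_one]; exact NV
  · rw [div_mul_eq_mul_div, eq_div_iff hne, hU, hV]
    linear_combination h2.eqn - h1.eqn

/-- the tangent in the `(z, w)` plane -/
lemma tangent {D z w : ℚ} (hD0 : 0 ≤ D) (hD1 : D < 1) (h : ZW s D z w) :
    padicNorm s ((-105) * z ^ 2 - 4096 * z * w) < 1 ∧ padicNorm s (3 * z ^ 2 - (-210) * z * w + 2048 * w ^ 2) ≤ D ^ 2 := by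
  have hD1' := hD1.le
  have p4 : D ^ 4 ≤ D ^ 2 := D_pow_le hD0 hD1' (by norm_num)
  have p6 : D ^ 6 ≤ D ^ 2 := D_pow_le hD0 hD1' (by norm_num)
  have p21 : D ^ 2 ≤ D := by nlinarith
  have hzw : padicNorm s (z * w) ≤ D ^ 2 := by
    have := N_mul_le h.hz h.hw
    refine this.trans ?_
    calc D * D ^ 3 = D ^ 4 := by ring
      _ ≤ _ := p4
  have hzz : padicNorm s (z ^ 2) ≤ D ^ 2 := N_pow_le h.hz 2
  constructor
  · refine lt_of_le_of_lt (b := D ^ 2) ?_ (lt_of_le_of_lt p21 hD1)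
    refine N_sub_le (N_105 hzz) ?_
    rw [mul_assoc]
    exact_mod_cast N_int_mul_le (s := s) 4096 hzw
  · refine N_add_le (N_sub_le (by exact_mod_cast N_int_mul_le (s := s) 3 hzz) ?_) ?_
    · rw [mul_assoc]
      exact N_210 hzw
    · have : padicNorm s (w ^ 2) ≤ D ^ 2 := by
        refine (N_pow_le h.hw 2).trans ?_
        calc (D ^ 3) ^ 2 = D ^ 6 := by ring
          _ ≤ _ := p6
      exact_mod_cast N_int_mul_le (s := s) 2048 this

/-- the third point on the line `Y = l X + m` -/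
lemma third {D X1 X2 X3 l m : ℚ} (hD0 : 0 ≤ D) (hD1 : D < 1)
    (e1 : X1 + X2 + X3 = l ^ 2 - 105)
    (e2 : X1 * X2 + X1 * X3 + X2 * X3 = 2048 - 2 * l * m) (e3 : X1 * X2 * X3 = m ^ 2)
    (hm : m ≠ 0) (hl : padicNorm s (l / m) ≤ D ^ 2) (hm1 : padicNorm s (1 / m) ≤ D ^ 3)
    (h1 : l * X1 + m ≠ 0) (h2 : l * X2 + m ≠ 0) (h3 : l * X3 + m ≠ 0) :
    padicNorm s (X3 / (l * X3 + m) + X1 / (l * X1 + m) + X2 / (l * X2 + m)) ≤ D ^ 3 := by
  have hD1' := hD1.le
  have p21 : D ^ 2 ≤ D := by nlinarith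
  set L : ℚ := l / m with hL
  have hL1 : padicNorm s ((-105) * L + 2048 * L ^ 2) < 1 := by
    refine lt_of_le_of_lt (b := D ^ 2) ?_ (lt_of_le_of_lt p21 hD1)
    refine N_add_le (N_105 hl) ?_
    have : padicNorm s (L ^ 2) ≤ D ^ 2 := by
      refine (N_pow_le hl 2).trans ?_
      calc (D ^ 2) ^ 2 = D ^ 4 := by ring
        _ ≤ _ := D_pow_le hD0 hD1' (by norm_num)
    exact_mod_cast N_int_mul_le (s := s) 2048 this
  have hne := N_unit' hL1
  have key : X3 / (l * X3 + m) + X1 / (l * X1 + m) + X2 / (l * X2 + m)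
      = (1 / m) * (((-105) + 4096 * L) / (1 + ((-105) * L + 2048 * L ^ 2))) := by
    have hden : (l * X3 + m) * (l * X1 + m) * (l * X2 + m)
        = m ^ 3 * (1 + ((-105) * L + 2048 * L ^ 2)) := by
      rw [hL]
      field_simp
      linear_combination (l ^ 3) * e3 + (l ^ 2 * m) * e2 + (l * m ^ 2) * e1
    have hnum : X3 * (l * X1 + m) * (l * X2 + m) + X1 * (l * X3 + m) * (l * X2 + m)
        + X2 * (l * X3 + m) * (l * X1 + m) = m ^ 2 * ((-105) + 4096 * L) := by
      rw [hL]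
      field_simp
      linear_combination (3 * l ^ 2) * e3 + (2 * l * m) * e2 + (m ^ 2) * e1
    have hsum : X3 / (l * X3 + m) + X1 / (l * X1 + m) + X2 / (l * X2 + m)
        = (X3 * (l * X1 + m) * (l * X2 + m) + X1 * (l * X3 + m) * (l * X2 + m)
        + X2 * (l * X3 + m) * (l * X1 + m)) / ((l * X3 + m) * (l * X1 + m) * (l * X2 + m)) := by
      rw [div_add_div _ _ h3 h1, div_add_div _ _ (mul_ne_zero h3 h1) h2]
      congr 1
      ring
    rw [hsum, hnum, hden]
    field_simp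
  have h7 : padicNorm s (((-105) + 4096 * L) / (1 + ((-105) * L + 2048 * L ^ 2))) = padicNorm s ((-105) + 4096 * L) := by
    rw [padicNorm.div, N_unit hL1, div_one]
  rw [key, padicNorm.mul, h7]
  have h5 : padicNorm s ((-105) + 4096 * L) ≤ 1 := by
    refine N_add_le (by have := padicNorm.of_int (p := s) (-105); push_cast at this; exact this) ?_
    have h6 : padicNorm s L ≤ 1 := hl.trans (p21.trans hD1')
    exact_mod_cast N_int_mul_le (s := s) 4096 h6
  calc padicNorm s (1 / m) * padicNorm s ((-105) + 4096 * L) ≤ D ^ 3 * 1 :=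
        mul_le_mul hm1 h5 (padicNorm.nonneg _) (by positivity)
    _ = _ := mul_one _

/-! ### points -/

def zf (P : Pt) : ℚ := -(ptX P / ptY P)
def wf (P : Pt) : ℚ := -(1 / ptY P)

lemma ptX_zero : ptX (0 : Pt) = 0 := rfl
lemma ptY_zero : ptY (0 : Pt) = 0 := rfl

lemma zf_zero : zf 0 = 0 := by unfold zf; rw [ptX_zero]; simp

lemma zf_neg (P : Pt) : zf (-P) = - zf P := by
  unfold zf; rw [ptX_neg, ptY_neg, div_neg]

lemma pole_ne {P : Pt} (hP : padicValRat s (ptX P) < 0) : P ≠ 0 := by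
  rintro rfl
  rw [ptX_zero, padicValRat.zero] at hP
  exact lt_irrefl _ hP

lemma pole_facts {P : Pt} (hP : padicValRat s (ptX P) < 0) :
    ptX P ≠ 0 ∧ ptY P ≠ 0 ∧ zf P ≠ 0 ∧ 1 ≤ padicValRat s (zf P) ∧
      padicValRat s (ptX P) = -2 * padicValRat s (zf P) ∧
      padicNorm s (wf P) = padicNorm s (zf P) ^ 3 := by
  obtain ⟨d, hd, hX, hY⟩ := pole_val hs.out hP
  have hX0 : ptX P ≠ 0 := by
    intro h; rw [h, padicValRat.zero] at hX; omega
  have hY0 : ptY P ≠ 0 := by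
    intro h; rw [h, padicValRat.zero] at hY; omega
  have hz0 : zf P ≠ 0 := by
    unfold zf; exact neg_ne_zero.mpr (div_ne_zero hX0 hY0)
  have hw0 : wf P ≠ 0 := by
    unfold wf; exact neg_ne_zero.mpr (one_div_ne_zero hY0)
  have hvz : padicValRat s (zf P) = d := by
    unfold zf
    rw [padicValRat.neg, padicValRat.div hX0 hY0, hX, hY]
    ring
  have hvw : padicValRat s (wf P) = 3 * d := by
    unfold wf
    rw [padicValRat.neg, one_div, padicValRat.inv, hY]
    ring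
  refine ⟨hX0, hY0, hz0, ?_, ?_, ?_⟩
  · rw [hvz]; exact_mod_cast hd
  · rw [hvz]; exact hX
  · rw [padicNorm.eq_zpow_of_nonzero hz0, padicNorm.eq_zpow_of_nonzero hw0, hvz, hvw,
      ← zpow_natCast, ← zpow_mul]
    congr 1
    push_cast; ring

lemma zf_norm_le {P : Pt} (hP : padicValRat s (ptX P) < 0) :
    padicNorm s (zf P) ≤ (s : ℚ)⁻¹ := by
  obtain ⟨_, _, hz0, hv, _, _⟩ := pole_facts hP
  rw [padicNorm.eq_zpow_of_nonzero hz0, ← zpow_neg_one]
  have h1 : (1 : ℚ) < s := by exact_mod_cast hs.out.one_lt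
  exact zpow_le_zpow_right₀ h1.le (by omega)

lemma pole_zw {P : Pt} (hP : padicValRat s (ptX P) < 0) {D : ℚ} (hD : padicNorm s (zf P) ≤ D) :
    ZW s D (zf P) (wf P) := by
  obtain ⟨_, hY0, hz0, hv, _, hw⟩ := pole_facts hP
  refine ⟨hD, ?_, ?_⟩
  · rw [hw]
    exact pow_le_pow_left₀ (padicNorm.nonneg _) hD 3
  · have h := pt_eq (pole_ne hP)
    unfold zf wf
    field_simp
    linear_combination -h

/-- addition in the formal group, the generic step: a line `Y = l X + m` through the points -/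
lemma z_add_of_line {P Q : Pt} {D l : ℚ} (hD0 : 0 ≤ D) (hD1 : D < 1)
    (hP : padicValRat s (ptX P) < 0) (hQ : padicValRat s (ptX Q) < 0)
    (hPQ : padicValRat s (ptX (P + Q)) < 0)
    (hm : ptY P - l * ptX P ≠ 0)
    (hl : padicNorm s (l / (ptY P - l * ptX P)) ≤ D ^ 2)
    (hm1 : padicNorm s (1 / (ptY P - l * ptX P)) ≤ D ^ 3)
    (hQl : ptY Q = l * ptX Q + (ptY P - l * ptX P))
    (hx : ptX (P + Q) = l ^ 2 - 105 - ptX P - ptX Q)
    (hy : ptY (P + Q) = - (l * (ptX (P + Q) - ptX P) + ptY P))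
    (e2 : ptX P * ptX Q + ptX P * ptX (P + Q) + ptX Q * ptX (P + Q)
      = 2048 - 2 * l * (ptY P - l * ptX P)) :
    padicNorm s (zf (P + Q) - zf P - zf Q) ≤ D ^ 3 := by
  obtain ⟨hX1, hY1, -⟩ := pole_facts hP
  obtain ⟨hX2, hY2, -⟩ := pole_facts hQ
  obtain ⟨hX3, hY3, -⟩ := pole_facts hPQ
  have eqP := pt_eq (pole_ne hP)
  set X1 := ptX P
  set X2 := ptX Q
  set X3 := ptX (P + Q)
  set Y1 := ptY P
  set Y2 := ptY Q
  set Y3 := ptY (P + Q)
  set m := Y1 - l * X1 with hmdef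
  have hY1' : l * X1 + m = Y1 := by rw [hmdef]; ring
  have hY3' : l * X3 + m = -Y3 := by rw [hy, hmdef]; ring
  have e1 : X1 + X2 + X3 = l ^ 2 - 105 := by rw [hx]; ring
  have e3 : X1 * X2 * X3 = m ^ 2 := by
    have h1 : (l * X1 + m) ^ 2 = X1 ^ 3 + 105 * X1 ^ 2 + 2048 * X1 := by rw [hY1']; exact eqP
    linear_combination (-1) * h1 + X1 ^ 2 * (-1) * e1 + X1 * e2
  have h := third (s := s) hD0 hD1 e1 e2 e3 hm hl hm1 (by rw [hY1']; exact hY1)
    (by rw [← hQl]; exact hY2) (by rw [hY3']; exact neg_ne_zero.mpr hY3)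
  rw [hY1', ← hQl, hY3'] at h
  have h2 : zf (P + Q) - zf P - zf Q = X3 / -Y3 + X1 / Y1 + X2 / Y2 := by
    unfold zf
    rw [div_neg]; ring
  rw [h2]; exact h

/-- addition of two distinct points -/
lemma z_add_ne {P Q : Pt} {D : ℚ} (hD0 : 0 ≤ D) (hD1 : D < 1)
    (hP : padicValRat s (ptX P) < 0) (hQ : padicValRat s (ptX Q) < 0)
    (hPQ : padicValRat s (ptX (P + Q)) < 0) (hne : ptX P ≠ ptX Q)
    (hDP : padicNorm s (zf P) ≤ D) (hDQ : padicNorm s (zf Q) ≤ D) :
    padicNorm s (zf (P + Q) - zf P - zf Q) ≤ D ^ 3 := by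
  obtain ⟨-, hx, hy⟩ := pt_add (pole_ne hP) (pole_ne hQ) hne
  obtain ⟨hX1, hY1, hz1, -⟩ := pole_facts hP
  obtain ⟨hX2, hY2, hz2, -⟩ := pole_facts hQ
  have eqP := pt_eq (pole_ne hP)
  have eqQ := pt_eq (pole_ne hQ)
  have zwP := pole_zw hP hDP
  have zwQ := pole_zw hQ hDQ
  obtain ⟨lam, hlam, hch⟩ := chord hD0 hD1 zwP zwQ
  set l := (ptY P - ptY Q) / (ptX P - ptX Q) with hl
  have hsub : ptX P - ptX Q ≠ 0 := sub_ne_zero.mpr hne
  have hl' : l * (ptX P - ptX Q) = ptY P - ptY Q := by rw [hl]; field_simp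
  set m := ptY P - l * ptX P with hm
  have hQl : ptY Q = l * ptX Q + m := by rw [hm]; linear_combination hl'
  have hPl : ptY P = l * ptX P + m := by rw [hm]; ring
  -- z1 ≠ z2
  have hzz : zf Q - zf P ≠ 0 := by
    intro h0
    rw [h0, mul_zero] at hch
    have hw : wf Q = wf P := by linarith
    have hz : zf Q = zf P := by linarith
    have hY : ptY Q = ptY P := by
      unfold wf at hw
      field_simp at hw
      linarith
    apply hne
    unfold zf at hz
    rw [hY] at hz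
    field_simp at hz
    linarith
  have hm0 : m ≠ 0 := by
    intro h0
    apply hzz
    rw [h0, add_zero] at hPl hQl
    have hl0 : l ≠ 0 := by
      intro h1
      rw [h1, zero_mul] at hPl
      exact hY1 hPl
    unfold zf
    rw [hPl, hQl]
    field_simp
    ring
  have hlm : lam = -(l / m) := by
    have h1 : wf Q - wf P = -(l / m) * (zf Q - zf P) := by
      unfold wf zf
      rw [hPl] at hY1
      rw [hQl] at hY2
      rw [hPl, hQl]
      field_simp
      ring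
    rw [hch] at h1
    exact mul_right_cancel₀ hzz h1
  have hN1 : padicNorm s (l / m) ≤ D ^ 2 := by
    rw [← padicNorm.neg, ← hlm]; exact hlam
  have hN2 : padicNorm s (1 / m) ≤ D ^ 3 := by
    have h1 : 1 / m = -(wf P + (l / m) * zf P) := by
      unfold wf zf
      rw [hPl] at hY1
      rw [hPl]
      field_simp
      ring
    rw [h1, padicNorm.neg]
    refine N_add_le zwP.hw ?_
    refine (N_mul_le hN1 hDP).trans (le_of_eq ?_)
    ring
  have e1 : ptX P + ptX Q + ptX (P + Q) = l ^ 2 - 105 := by rw [hx]; ring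
  refine z_add_of_line (l := l) hD0 hD1 hP hQ hPQ hm0 hN1 hN2 hQl hx hy ?_
  have h3 : (ptX P - ptX Q) * (ptX P * ptX Q + ptX P * ptX (P + Q) + ptX Q * ptX (P + Q)
      - (2048 - 2 * l * m)) = 0 := by
    rw [hPl] at eqP
    rw [hQl] at eqQ
    linear_combination (ptX P - ptX Q) * (ptX P + ptX Q) * e1 + eqP - eqQ
  have h4 := (mul_eq_zero.mp h3).resolve_left hsub
  linarith

/-- doubling -/
lemma z_add_self {P : Pt} {D : ℚ} (hD0 : 0 ≤ D) (hD1 : D < 1)
    (hP : padicValRat s (ptX P) < 0)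
    (hPQ : padicValRat s (ptX (P + P)) < 0)
    (hDP : padicNorm s (zf P) ≤ D) :
    padicNorm s (zf (P + P) - zf P - zf P) ≤ D ^ 3 := by
  obtain ⟨hX1, hY1, hz1, -⟩ := pole_facts hP
  obtain ⟨-, hx, -, hy⟩ := pt_dbl (pole_ne hP) hY1
  have eqP := pt_eq (pole_ne hP)
  have zwP := pole_zw hP hDP
  obtain ⟨hu, hv⟩ := tangent hD0 hD1 zwP
  have hne := N_unit' hu
  set l := (3 * ptX P ^ 2 + 210 * ptX P + 2048) / (2 * ptY P) with hl
  have hl' : 2 * ptY P * l = 3 * ptX P ^ 2 + 210 * ptX P + 2048 := by rw [hl]; field_simp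
  set m := ptY P - l * ptX P with hm
  have hPl : ptY P = l * ptX P + m := by rw [hm]; ring
  have hX : ptX P = zf P / wf P := by unfold zf wf; field_simp
  have hY : ptY P = -(1 / wf P) := by unfold wf; field_simp
  have hw0 : wf P ≠ 0 := by unfold wf; exact neg_ne_zero.mpr (one_div_ne_zero hY1)
  have hmu : m * (2 * wf P) = 1 + ((-105) * zf P ^ 2 - 4096 * zf P * wf P) := by
    have h2 : l * (2 * wf P) = -(3 * zf P ^ 2 - (-210) * zf P * wf P + 2048 * wf P ^ 2) := by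
      rw [hX, hY] at hl'
      field_simp at hl'
      linear_combination -hl'
    have h5 : m * (2 * wf P) * wf P = (1 + ((-105) * zf P ^ 2 - 4096 * zf P * wf P)) * wf P := by
      rw [hm, hX, hY]
      have h6 : (-(1 / wf P) - l * (zf P / wf P)) * (2 * wf P) * wf P
          = - 2 * wf P - (l * (2 * wf P)) * zf P := by
        field_simp
      rw [h6, h2]
      linear_combination (-3) * zwP.eqn
    exact mul_right_cancel₀ hw0 h5
  have hm0 : m ≠ 0 := by
    intro h0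
    rw [h0, zero_mul] at hmu
    exact hne hmu.symm
  have hN1 : padicNorm s (l / m) ≤ D ^ 2 := by
    have h2 : l * (2 * wf P) = -(3 * zf P ^ 2 - (-210) * zf P * wf P + 2048 * wf P ^ 2) := by
      rw [hX, hY] at hl'
      field_simp at hl'
      linear_combination -hl'
    have h1 : l / m = -(3 * zf P ^ 2 - (-210) * zf P * wf P + 2048 * wf P ^ 2)
        / (1 + ((-105) * zf P ^ 2 - 4096 * zf P * wf P)) := by
      rw [← hmu, ← h2]
      field_simp
    rw [h1, padicNorm.div, N_unit hu, div_one, padicNorm.neg]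
    exact hv
  have hN2 : padicNorm s (1 / m) ≤ D ^ 3 := by
    have h1 : 1 / m = (2 : ℤ) * wf P / (1 + ((-105) * zf P ^ 2 - 4096 * zf P * wf P)) := by
      rw [← hmu]
      field_simp
      push_cast; ring
    rw [h1, padicNorm.div, N_unit hu, div_one]
    exact N_int_mul_le 2 zwP.hw
  have e1 : ptX P + ptX P + ptX (P + P) = l ^ 2 - 105 := by rw [hx]; ring
  refine z_add_of_line (l := l) hD0 hD1 hP hP hPQ hm0 hN1 hN2 hPl (by rw [hx]; ring) hy ?_
  rw [hPl] at hl'
  linear_combination (2 * ptX P) * e1 + hl'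

/-- the group of points in the kernel of reduction -/
def InK (s : ℕ) (P : Pt) : Prop := P = 0 ∨ padicValRat s (ptX P) < 0

lemma InK.add {P Q : Pt} (hP : InK s P) (hQ : InK s Q) : InK s (P + Q) := by
  rcases hP with rfl | hP
  · rwa [zero_add]
  · rcases hQ with rfl | hQ
    · rw [add_zero]; exact Or.inr hP
    · exact pole_add hs.out hP hQ

lemma z_add {P Q : Pt} {D : ℚ} (hD0 : 0 ≤ D) (hD1 : D < 1) (hP : InK s P) (hQ : InK s Q)
    (hDP : padicNorm s (zf P) ≤ D) (hDQ : padicNorm s (zf Q) ≤ D) :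
    padicNorm s (zf (P + Q) - zf P - zf Q) ≤ D ^ 3 := by
  have hD3 : 0 ≤ D ^ 3 := by positivity
  by_cases hPQ0 : P + Q = 0
  · have hQ' : Q = -P := (neg_eq_of_add_eq_zero_right hPQ0).symm
    rw [hPQ0, hQ', zf_zero, zf_neg]
    simpa using hD3
  rcases hP with rfl | hP
  · rw [zero_add, zf_zero]; simpa using hD3
  rcases hQ with rfl | hQ
  · rw [add_zero, zf_zero]; simpa using hD3
  have hPQ : padicValRat s (ptX (P + Q)) < 0 := (pole_add hs.out hP hQ).resolve_left hPQ0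
  by_cases hne : ptX P = ptX Q
  · rcases (ptX_eq_iff (pole_ne hP) (pole_ne hQ)).mp hne with h | h
    · subst h
      exact z_add_self hD0 hD1 hP hPQ hDP
    · exfalso; apply hPQ0; rw [h]; exact neg_add_cancel _
  · exact z_add_ne hD0 hD1 hP hQ hPQ hne hDP hDQ

lemma nsmul_aux {P : Pt} (hP : padicValRat s (ptX P) < 0) (n : ℕ) :
    InK s (n • P) ∧ padicNorm s (zf (n • P) - n * zf P) ≤ padicNorm s (zf P) ^ 3 := by
  set D := padicNorm s (zf P) with hD
  have hD0 : 0 ≤ D := padicNorm.nonneg _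
  have hs1 : (1 : ℚ) < s := by exact_mod_cast hs.out.one_lt
  have hD1 : D < 1 := (zf_norm_le hP).trans_lt (inv_lt_one_of_one_lt₀ hs1)
  have hD3 : D ^ 3 ≤ D := by
    calc D ^ 3 ≤ D ^ 1 := D_pow_le hD0 hD1.le (by norm_num)
      _ = D := pow_one D
  induction n with
  | zero => refine ⟨Or.inl (zero_nsmul _), ?_⟩; rw [zero_nsmul, zf_zero]; simp; positivity
  | succ n ih =>
    obtain ⟨h1, h2⟩ := ih
    have hn : padicNorm s (zf (n • P)) ≤ D := by
      have h3 : zf (n • P) = (zf (n • P) - n * zf P) + ((n : ℤ) : ℚ) * zf P := by push_cast; ring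
      rw [h3]
      exact N_add_le (h2.trans hD3) (N_int_mul_le _ le_rfl)
    rw [succ_nsmul]
    refine ⟨h1.add (Or.inr hP), ?_⟩
    have h4 := z_add hD0 hD1 h1 (Or.inr hP) hn le_rfl
    have h5 : zf (n • P + P) - ((n + 1 : ℕ) : ℚ) * zf P
        = (zf (n • P + P) - zf (n • P) - zf P) + (zf (n • P) - n * zf P) := by push_cast; ring
    rw [h5]
    exact N_add_le h4 h2

lemma prime_smul {P : Pt} (hP : padicValRat s (ptX P) < 0) {p : ℕ} (hp : p.Prime) :
    padicValRat s (ptX (p • P)) < 0 ∧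
      padicValRat s (ptX (p • P)) = padicValRat s (ptX P) - 2 * padicValNat s p := by
  obtain ⟨hK, hN⟩ := nsmul_aux hP p
  obtain ⟨_, _, hz0, hv, hX, _⟩ := pole_facts hP
  set D := padicNorm s (zf P) with hD
  have hs1 : (1 : ℚ) < s := by exact_mod_cast hs.out.one_lt
  have hD0 : 0 < D := lt_of_le_of_ne (padicNorm.nonneg _) (Ne.symm (padicNorm.nonzero hz0))
  have hDs : D ≤ (s : ℚ)⁻¹ := zf_norm_le hP
  have hD1 : D < 1 := hDs.trans_lt (inv_lt_one_of_one_lt₀ hs1)
  have hp0 : (p : ℚ) ≠ 0 := by exact_mod_cast hp.ne_zero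
  -- norm of p
  have hpn : (s : ℚ)⁻¹ ≤ padicNorm s (p : ℚ) := by
    by_cases h : s = p
    · subst h
      rw [padicNorm.padicNorm_p hp.one_lt]
    · haveI : Fact p.Prime := ⟨hp⟩
      rw [padicNorm.padicNorm_of_prime_of_ne h]
      exact (inv_lt_one_of_one_lt₀ hs1).le
  have hlt : D ^ 3 < padicNorm s ((p : ℚ) * zf P) := by
    rw [padicNorm.mul, ← hD]
    have : D ^ 2 < (s : ℚ)⁻¹ := by nlinarith
    calc D ^ 3 = D ^ 2 * D := by ring
      _ < (s : ℚ)⁻¹ * D := by nlinarith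
      _ ≤ padicNorm s (p : ℚ) * D := by nlinarith
  have hEq : padicNorm s (zf (p • P)) = padicNorm s ((p : ℚ) * zf P) := by
    have h1 : zf (p • P) = (zf (p • P) - p * zf P) + p * zf P := by ring
    rw [h1, padicNorm.add_eq_max_of_ne (ne_of_lt (lt_of_le_of_lt hN hlt))]
    exact max_eq_right ((lt_of_le_of_lt hN hlt).le)
  have hz0' : zf (p • P) ≠ 0 := by
    intro h0
    rw [h0, padicNorm.zero] at hEq
    rw [← hEq] at hlt
    exact absurd hlt (not_lt.mpr (by positivity))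
  have hne0 : p • P ≠ 0 := by
    intro h0
    rw [h0] at hz0'
    exact hz0' zf_zero
  have hpole := hK.resolve_left hne0
  obtain ⟨_, _, _, _, hX', _⟩ := pole_facts hpole
  refine ⟨hpole, ?_⟩
  have hval : padicValRat s (zf (p • P)) = padicValRat s ((p : ℚ) * zf P) := by
    rw [padicNorm.eq_zpow_of_nonzero hz0', padicNorm.eq_zpow_of_nonzero (mul_ne_zero hp0 hz0)] at hEq
    have := zpow_right_injective₀ (by positivity) hs1.ne' hEq
    linarith
  rw [hX', hX, hval, padicValRat.mul hp0 hz0, padicValRat.of_nat]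
  ring

lemma nat_smul {P : Pt} (hP : padicValRat s (ptX P) < 0) {n : ℕ} (hn : n ≠ 0) :
    padicValRat s (ptX (n • P)) < 0 ∧
      padicValRat s (ptX (n • P)) = padicValRat s (ptX P) - 2 * padicValNat s n := by
  induction n using induction_on_primes generalizing P with
  | zero => exact absurd rfl hn
  | one => rw [one_nsmul]; exact ⟨hP, by simp⟩
  | prime_mul p a hp ih =>
    have ha : a ≠ 0 := by rintro rfl; exact hn (mul_zero _)
    obtain ⟨h1, h2⟩ := prime_smul hP hp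
    obtain ⟨h3, h4⟩ := ih h1 ha
    have e : (p * a) • P = a • (p • P) := by rw [mul_comm, mul_nsmul']
    rw [e]
    refine ⟨h3, ?_⟩
    rw [h4, h2, padicValNat.mul hp.ne_zero ha]
    push_cast; ring

end norm

end Formal

/-- multiplication by `k` in the kernel of reduction -/
theorem pole_smul {s : ℕ} (hs : s.Prime) {P : Pt} (h : padicValRat s (ptX P) < 0) {k : ℤ}
    (hk : k ≠ 0) : k • P ≠ 0 ∧
      padicValRat s (ptX (k • P)) = padicValRat s (ptX P) - 2 * padicValInt s k := by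
  have : Fact s.Prime := ⟨hs⟩
  obtain ⟨n, rfl | rfl⟩ := k.eq_nat_or_neg
  · have hn : n ≠ 0 := by rintro rfl; exact hk rfl
    obtain ⟨h1, h2⟩ := Formal.nat_smul h hn
    rw [natCast_zsmul]
    refine ⟨Formal.pole_ne h1, ?_⟩
    rw [h2]; simp
  · have hn : n ≠ 0 := by rintro rfl; exact hk rfl
    obtain ⟨h1, h2⟩ := Formal.nat_smul h hn
    rw [neg_zsmul, natCast_zsmul, ptX_neg]
    refine ⟨neg_ne_zero.mpr (Formal.pole_ne h1), ?_⟩
    rw [h2]; simp [padicValInt]

end Pool.Agent.H715.TW
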