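import Pool.Agent.H715.TW.Dio

/-!
# Polynomial equations whose smallest rational solutions are of tower height
-/

set_option autoImplicit false

namespace Pool.Agent.H715.TW

open MvPolynomial
open Pool.Agent.H528R3 (l1 l1_rename chain_poly)

/-! ### chains -/

/-- the chain relation -/
def ChR (m : ℕ) (s : ℕ → Fin 2 → ℚ) : Prop :=
  StR (s 0 0) (s 0 1) ∧ ∀ i < m, StepR (s i 0) (s i 1) (s (i + 1) 0) (s (i + 1) 1)

theorem chR_sound (hG : S_GEN) (m : ℕ) (s : ℕ → Fin 2 → ℚ) (h : ChR m s) :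
    ∃ M : ℕ → ℤ, (∀ i ≤ m, M i ≠ 0 ∧ s i 0 = zz (7 * M i) ∧ s i 1 = yy (7 * M i)) ∧
      (∀ i < m, RelK (M i) (M (i + 1)) ∧ RelL (M i) (M (i + 1))) ∧
      ((ps0.prod : ℕ) : ℤ) ∣ M 0 := by
  induction m with
  | zero =>
    obtain ⟨M, h1, h2, h3, h4⟩ := (stR_iff hG _ _).1 h.1
    refine ⟨fun _ => M, fun i hi => ?_, fun i hi => absurd hi (by omega), h2⟩
    obtain rfl : i = 0 := by omega
    exact ⟨h1, h3, h4⟩
  | succ m ih =>
    obtain ⟨M, h1, h2, h3⟩ := ih ⟨h.1, fun i hi => h.2 i (by omega)⟩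
    have h4 := h.2 m (by omega)
    obtain ⟨ho, e1, e2⟩ := h1 m le_rfl
    rw [e1, e2] at h4
    obtain ⟨M', ho', e1', e2', hx⟩ := (stepR_iff hG ho _ _).1 h4
    refine ⟨fun i => if i ≤ m then M i else M', fun i hi => ?_, fun i hi => ?_, ?_⟩
    · by_cases him : i ≤ m
      · simp only [if_pos him]; exact h1 i him
      · obtain rfl : i = m + 1 := by omega
        simp only [if_neg him]
        exact ⟨ho', e1', e2'⟩
    · by_cases him : i + 1 ≤ m
      · simp only [if_pos him, if_pos (show i ≤ m by omega)]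
        exact h2 i (by omega)
      · obtain rfl : i = m := by omega
        simp only [if_neg him, if_pos le_rfl]
        exact hx
    · simpa using h3

theorem exists_seq {R : ℤ → ℤ → Prop} (hR : ∀ M : ℤ, M ≠ 0 → ∃ M' : ℤ, M' ≠ 0 ∧ R M M')
    (P : ℤ) (hP : P ≠ 0) : ∃ M : ℕ → ℤ, (∀ i, M i ≠ 0) ∧ (∀ i, R (M i) (M (i + 1))) ∧ M 0 = P := by
  choose! f hf1 hf2 using hR
  have hg : ∀ i : ℕ, f^[i] P ≠ 0 := by
    intro i
    induction i with
    | zero => simpa using hP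
    | succ i ih => rw [Function.iterate_succ_apply']; exact hf1 _ ih
  refine ⟨fun i => f^[i] P, hg, fun i => ?_, rfl⟩
  simp only [Function.iterate_succ_apply']
  exact hf2 _ (hg i)

theorem prod_ne : ((ps0.prod : ℕ) : ℤ) ≠ 0 := by
  rw [Ne, Int.natCast_eq_zero]
  exact List.prod_ne_zero (by decide)

theorem exists_chain (hE : S_EX) : ∃ M : ℕ → ℤ, (∀ i, M i ≠ 0) ∧
    (∀ i, RelK (M i) (M (i + 1)) ∧ RelL (M i) (M (i + 1))) ∧
    ((ps0.prod : ℕ) : ℤ) ∣ M 0 := by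
  obtain ⟨M, h1, h2, h3⟩ := exists_seq (R := fun M M' => RelK M M' ∧ RelL M M')
    hE _ prod_ne
  refine ⟨M, h1, h2, ?_⟩
  rw [h3]

theorem chR_exists (hG : S_GEN) (hE : S_EX) (m : ℕ) : ∃ s, ChR m s := by
  obtain ⟨M, h1, h2, h3⟩ := exists_chain hE
  refine ⟨fun i j => if j = 0 then zz (7 * M i) else yy (7 * M i), ?_, fun i _ => ?_⟩
  · simp only [if_true, one_ne_zero, if_false]
    exact (stR_iff hG _ _).2 ⟨M 0, h1 0, h3, rfl, rfl⟩
  · simp only [if_true, one_ne_zero, if_false]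
    exact (stepR_iff hG (h1 i) _ _).2 ⟨M (i + 1), h1 (i + 1), rfl, rfl, h2 i⟩

/-! ### the size of the solutions -/

/-- a member of a chain of length `2 n` is huge -/
theorem chain_huge (hG : S_GEN) (hC : S_CSTEP) (hQ : S_QSTEP) (hD : S_DEN) (hT : S_CHAIN)
    (n : ℕ) (x : ℕ → Fin 2 → ℚ) (hx : ChR (2 * n) x) :
    ∃ i ≤ 2 * n, tower n ≤ (x i 0).den := by
  obtain ⟨M, h1, h2, h3⟩ := chR_sound hG _ _ hx
  obtain ⟨i, hi, hb⟩ := hT n (fun i => cL (M i)) (fun i => cK (M i))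
    (start_card (h1 0 (by omega)).1 h3)
    (fun i hi => hC _ _ (h1 i (by omega)).1 (h1 (i + 1) (by omega)).1 (h2 i hi).2)
    (fun i hi => hQ _ _ (h1 i (by omega)).1 (h1 (i + 1) (by omega)).1 (h2 i hi).1)
  refine ⟨i, hi, ?_⟩
  obtain ⟨hM, e, -⟩ := h1 i hi
  have h4 := hD (M i) hM
  rw [← e] at h4
  have h5 : (x i 0).den.primeFactors.card ≤ (x i 0).den := by
    calc (x i 0).den.primeFactors.card ≤ ((Finset.Icc 1 (x i 0).den)).card := by
          apply Finset.card_le_card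
          intro p hp
          rw [Finset.mem_Icc]
          exact ⟨(Nat.prime_of_mem_primeFactors hp).one_lt.le, Nat.le_of_mem_primeFactors hp⟩
      _ = (x i 0).den := by simp
  generalize cK (M i) = b at hb h4
  have h6 : b < 2 ^ (b - 1) := by
    have h7 : 7 ≤ b := by omega
    obtain ⟨c, rfl⟩ : ∃ c, b = c + 7 := ⟨b - 7, by omega⟩
    have h8 : c < 2 ^ c := Nat.lt_two_pow_self
    have h9 : 2 ^ (c + 7 - 1) = 64 * 2 ^ c := by
      rw [show c + 7 - 1 = c + 6 by omega, pow_add]; ring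
    omega
  have h7 : 2 ^ b = 2 * 2 ^ (b - 1) := by
    rw [← pow_succ']; congr 1; omega
  omega

/-- **Main theorem.** Polynomial equations of degree at most `4` and linear size, whose smallest
rational solutions are at least a tower of exponentials. -/
theorem tower_solutions (hG : S_GEN) (hC : S_CSTEP) (hQ : S_QSTEP) (hD : S_DEN) (hT : S_CHAIN)
    (hE : S_EX) : ∃ C : ℕ, ∀ n : ℕ, ∃ p : MvPolynomial (Fin (C * (n + 1))) ℤ,
    p.totalDegree ≤ 4 ∧ ∑ m ∈ p.support, |p.coeff m| ≤ C * (n + 1) ∧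
    (∃ x : Fin (C * (n + 1)) → ℚ, aeval x p = 0) ∧
    ∀ x : Fin (C * (n + 1)) → ℚ, aeval x p = 0 → ∃ i, tower n ≤ (x i).den := by
  obtain ⟨r, B, hr⟩ := chain_poly dio_start dio_step
  refine ⟨2 * (2 + r) + 2 * B.toNat, fun n => ?_⟩
  set C := 2 * (2 + r) + 2 * B.toNat with hC'
  obtain ⟨p, hd, hl, hp⟩ := hr (2 * n)
  have hcard : Fintype.card (Fin (2 * n + 1) × (Fin 2 ⊕ Fin r)) ≤
      Fintype.card (Fin (C * (n + 1))) := by
    simp only [Fintype.card_prod, Fintype.card_sum, Fintype.card_fin]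
    have h1 : 2 * n + 1 ≤ 2 * (n + 1) := by omega
    calc (2 * n + 1) * (2 + r) ≤ (2 * (n + 1)) * (2 + r) := Nat.mul_le_mul_right _ h1
      _ = (2 * (2 + r)) * (n + 1) := by ring
      _ ≤ C * (n + 1) := Nat.mul_le_mul_right _ (by omega)
  obtain ⟨ι⟩ := Function.Embedding.nonempty_of_card_le hcard
  refine ⟨rename ι p, (totalDegree_rename_le _ _).trans hd, ?_, ?_, ?_⟩
  · change l1 (rename ι p) ≤ _
    refine (l1_rename _ _).trans (hl.trans ?_)
    have h1 : B ≤ B.toNat := Int.self_le_toNat B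
    have h2 : ((2 * n : ℕ) : ℤ) + 1 ≤ 2 * (n + 1) := by push_cast; omega
    have h3 : (0 : ℤ) ≤ (B.toNat : ℤ) := by positivity
    have h4 : (0 : ℤ) ≤ ((2 * n : ℕ) : ℤ) + 1 := by positivity
    calc B * (((2 * n : ℕ) : ℤ) + 1) ≤ B.toNat * (((2 * n : ℕ) : ℤ) + 1) :=
          mul_le_mul_of_nonneg_right h1 h4
      _ ≤ B.toNat * (2 * (n + 1)) := mul_le_mul_of_nonneg_left h2 h3
      _ = ((2 * B.toNat : ℕ) : ℤ) * (n + 1) := by push_cast; ring
      _ ≤ (C : ℤ) * (n + 1) := by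
          apply mul_le_mul_of_nonneg_right _ (by positivity)
          have : 2 * B.toNat ≤ C := by omega
          exact_mod_cast this
  · obtain ⟨x, hx⟩ := chR_exists hG hE (2 * n)
    obtain ⟨y, -, hy⟩ := (hp x).1 hx
    obtain ⟨z, hz⟩ := Function.Injective.surjective_comp_right (γ := ℚ) ι.injective y
    refine ⟨z, ?_⟩
    rw [aeval_rename]
    have hz' : z ∘ (ι : _ → _) = y := hz
    rw [hz', hy]
  · intro x hx
    rw [aeval_rename] at hx
    have hch : ChR (2 * n)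
        (fun i j => if h : i < 2 * n + 1 then x (ι (⟨i, h⟩, Sum.inl j)) else 0) := by
      have := (hp (fun i j => if h : i < 2 * n + 1 then x (ι (⟨i, h⟩, Sum.inl j)) else 0)).2
        ⟨x ∘ ι, fun i j => by simp only [Function.comp, dif_pos i.2], hx⟩
      exact this
    obtain ⟨i, hi, h1⟩ := chain_huge hG hC hQ hD hT n _ hch
    simp only [dif_pos (show i < 2 * n + 1 by omega)] at h1
    exact ⟨_, h1⟩

end Pool.Agent.H715.TW
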