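import Pool.Agent.H715.TW.ZZ

/-!
# Ranks of apparition
-/

namespace Pool.Agent.H715.TW

open Pool.Agent.H528R2 (Vge val_mul val_div val_pow val_sub val_add val_inv ne_zero_of_val vge_ofNat vge_int)

/-- the poles at `s` are closed under addition, in terms of `zz` -/
theorem Rank.zz_add_pole {s : ℕ} (hs : s.Prime) {m n : ℤ} (hm : padicValRat s (zz m) < 0)
    (hn : padicValRat s (zz n) < 0) (h : m + n ≠ 0) : padicValRat s (zz (m + n)) < 0 := by
  have h1 := pole_add hs hm hn
  rw [← add_zsmul] at h1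
  exact h1.resolve_left (smul_P0_ne h)

theorem Rank.zz_neg_pole {s : ℕ} {m : ℤ} (hm : padicValRat s (zz m) < 0) :
    padicValRat s (zz (-m)) < 0 := by rwa [zz_neg]

theorem Rank.zz_mul {s : ℕ} (hs : s.Prime) {m k : ℤ} (hm : padicValRat s (zz m) < 0) (hk : k ≠ 0) :
    padicValRat s (zz (m * k)) = padicValRat s (zz m) - 2 * padicValInt s k := by
  have h := (pole_smul hs hm hk).2
  rw [smul_smul, mul_comm] at h
  exact h

theorem Rank.zz_mul_pole {s : ℕ} (hs : s.Prime) {m k : ℤ} (hm : padicValRat s (zz m) < 0)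
    (hk : k ≠ 0) : padicValRat s (zz (m * k)) < 0 := by
  rw [Rank.zz_mul hs hm hk]; have : (0 : ℤ) ≤ padicValInt s k := by positivity
  omega

theorem Rank.rk_spec {s : ℕ} (h : rk s ≠ 0) : padicValRat s (zz (rk s)) < 0 := by
  have hne : {n : ℕ | 0 < n ∧ padicValRat s (zz n) < 0}.Nonempty := by
    by_contra hcon
    rw [Set.not_nonempty_iff_eq_empty] at hcon
    apply h; unfold rk; rw [hcon]; simp
  exact (Nat.sInf_mem hne).2

theorem Rank.rk_min {s n : ℕ} (hn : 0 < n) (h : padicValRat s (zz n) < 0) : rk s ≤ n ∧ rk s ≠ 0 := by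
  have hmem : n ∈ {n : ℕ | 0 < n ∧ padicValRat s (zz n) < 0} := ⟨hn, h⟩
  exact ⟨Nat.sInf_le hmem, (Nat.sInf_mem ⟨n, hmem⟩).1.ne'⟩

theorem dvd_iff {s : ℕ} (hs : s.Prime) {n : ℤ} (hn : n ≠ 0) :
    (rk s : ℤ) ∣ n ↔ padicValRat s (zz n) < 0 := by
  constructor
  · rintro ⟨k, rfl⟩
    have hr : rk s ≠ 0 := by rintro h; simp [h] at hn
    have hk : k ≠ 0 := by rintro rfl; simp at hn
    exact Rank.zz_mul_pole hs (Rank.rk_spec hr) hk
  · intro h
    have hr : rk s ≠ 0 := by
      rcases lt_or_gt_of_ne hn with h' | h'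
      · have : padicValRat s (zz ((-n).toNat : ℕ)) < 0 := by
          have : (((-n).toNat : ℕ) : ℤ) = -n := by omega
          rw [this, zz_neg]; exact h
        exact (Rank.rk_min (by omega) this).2
      · have : padicValRat s (zz (n.toNat : ℕ)) < 0 := by
          have : ((n.toNat : ℕ) : ℤ) = n := by omega
          rw [this]; exact h
        exact (Rank.rk_min (by omega) this).2
    have hr' : (0 : ℤ) < rk s := by omega
    by_contra hdvd
    have hmod0 : n % (rk s) ≠ 0 := fun hcon => hdvd (Int.dvd_of_emod_eq_zero hcon)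
    have hmod1 := Int.emod_nonneg n hr'.ne'
    have hmod2 := Int.emod_lt_of_pos n hr'
    have hpole : padicValRat s (zz (n % (rk s))) < 0 := by
      by_cases hq : n / (rk s) = 0
      · have : n % (rk s) = n := by
          have := Int.emod_add_mul_ediv n (rk s); rw [hq] at this; simpa using this
        rw [this]; exact h
      · have h1 := Rank.zz_neg_pole (Rank.zz_mul_pole hs (Rank.rk_spec hr) hq)
        have h2 : n % (rk s) = n + -((rk s : ℤ) * (n / rk s)) := by
          rw [Int.emod_def]; ring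
        rw [h2]
        refine Rank.zz_add_pole hs h h1 ?_
        rw [← h2]; exact hmod0
    have h3 : (((n % (rk s)).toNat : ℕ) : ℤ) = n % (rk s) := by omega
    rw [← h3] at hpole
    have := (Rank.rk_min (by omega) hpole).1
    omega

theorem val_zz {s : ℕ} (hs : s.Prime) {n : ℤ} (hn : n ≠ 0) (h : (rk s : ℤ) ∣ n) :
    padicValRat s (zz n) = -2 * dd s n ∧ padicValRat s (yy n) = -3 * dd s n ∧ 1 ≤ dd s n := by
  obtain ⟨d, hd, h1, h2⟩ := pole_val hs ((dvd_iff hs hn).1 h)
  have hdd : dd s n = d := by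
    unfold dd
    have : padicValRat s (zz n) = -2 * d := h1
    rw [this]; omega
  rw [hdd]; exact ⟨h1, h2, hd⟩

theorem Rank.rk_ne_zero_of_dvd {s : ℕ} {n : ℤ} (hn : n ≠ 0) (h : (rk s : ℤ) ∣ n) : rk s ≠ 0 := by
  rintro h0; rw [h0] at h; simp at h; exact hn h

theorem dd_eq {s : ℕ} (hs : s.Prime) {n : ℤ} (hn : n ≠ 0) (h : (rk s : ℤ) ∣ n) :
    dd s n + padicValNat s (rk s) = dd s (rk s) + padicValInt s n := by
  have := Fact.mk hs
  have hr := Rank.rk_ne_zero_of_dvd hn h
  have hr' : (rk s : ℤ) ≠ 0 := by exact_mod_cast hr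
  obtain ⟨k, hk⟩ := h
  have hk0 : k ≠ 0 := by rintro rfl; simp at hk; exact hn hk
  have h1 := (val_zz hs hn ⟨k, hk⟩).1
  have h2 := (val_zz hs hr' (dvd_refl _)).1
  have h3 := Rank.zz_mul hs (Rank.rk_spec hr) hk0
  rw [← hk, h1, h2] at h3
  have h4 : padicValInt s n = padicValInt s (rk s) + padicValInt s k := by
    rw [hk, padicValInt.mul hr' hk0]
  rw [padicValInt.of_nat] at h4
  omega

theorem dd_eq_zero {s : ℕ} (hs : s.Prime) {n : ℤ} (hn : n ≠ 0) (h : ¬ (rk s : ℤ) ∣ n) :
    dd s n = 0 := by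
  rw [dvd_iff hs hn] at h
  unfold dd; omega

theorem finite_rk {n : ℤ} (hn : n ≠ 0) : {s : ℕ | s.Prime ∧ (rk s : ℤ) ∣ n}.Finite := by
  refine (Finset.finite_toSet ((zz n).den.primeFactors)).subset ?_
  rintro s ⟨hs, hdvd⟩
  have hneg := (dvd_iff hs hn).1 hdvd
  have := Fact.mk hs
  simp only [Finset.mem_coe, Nat.mem_primeFactors]
  refine ⟨hs, ?_, (zz n).den_nz⟩
  rw [padicValRat_def] at hneg
  by_contra hcon
  rw [padicValNat.eq_zero_of_not_dvd hcon] at hneg
  have : (0 : ℤ) ≤ padicValInt s (zz n).num := by positivity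
  omega


theorem dd_neg_iff {s : ℕ} (hs : s.Prime) {n : ℤ} (hn : n ≠ 0) :
    1 ≤ dd s n ↔ (rk s : ℤ) ∣ n := by
  constructor
  · intro h
    by_contra hc
    rw [dd_eq_zero hs hn hc] at h
    omega
  · intro h
    exact (val_zz hs hn h).2.2

/-- only finitely many primes occur in the denominator of `zz n` -/
theorem finite_dd (n : ℤ) : {s : ℕ | s.Prime ∧ dd s n ≠ 0}.Finite := by
  by_cases hn : n = 0
  · subst hn
    convert Set.finite_empty
    ext s
    simp only [Set.mem_setOf_eq, Set.mem_empty_iff_false, iff_false, not_and, not_not]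
    intro _
    simp [dd, zz]
  · refine (finite_rk hn).subset ?_
    rintro s ⟨hs, h⟩
    exact ⟨hs, (dd_neg_iff hs hn).1 (by omega)⟩

theorem rk_three : rk 3 = 2 := by
  have h3 : Nat.Prime 3 := by norm_num
  have := Fact.mk h3
  have h5 : (rk 3 : ℤ) ∣ (2 : ℕ) := by
    rw [dvd_iff h3 (by norm_num)]
    have : zz (2 : ℕ) = 256 / 3 ^ 2 := by
      have := zz_two; norm_num at this ⊢; exact this
    rw [this, val_div h3 (by norm_num) (by norm_num), val_pow h3]
    have h1 : padicValRat 3 (3 : ℚ) = 1 := by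
      exact_mod_cast padicValRat.self (p := 3) (by norm_num)
    have h2 : padicValRat 3 (256 : ℚ) = 0 := by
      have : padicValRat 3 ((256 : ℕ) : ℚ) = 0 := by
        rw [padicValRat.of_nat, padicValNat.eq_zero_of_not_dvd (by norm_num)]; rfl
      exact_mod_cast this
    rw [h1, h2]; norm_num
  have h5' : rk 3 ∣ 2 := by exact_mod_cast h5
  rcases (Nat.dvd_prime (by norm_num)).1 h5' with h | h
  · exfalso
    have h1 := Rank.rk_spec (s := 3) (by omega)
    rw [h] at h1
    have h2 : zz ((1 : ℕ) : ℤ) = -32 := by exact_mod_cast zz_one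
    rw [h2] at h1
    have h3 : (0 : ℤ) ≤ padicValRat 3 (-32 : ℚ) := by
      have := (vge_int 3 (-32)).le (by norm_num)
      exact_mod_cast this
    omega
  · exact h

end Pool.Agent.H715.TW
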