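import Pool.Agent.H715.TW.Formal

/-!
# The functions `zz`, `yy` (port of `H528R2/ZZ`)
-/

namespace Pool.Agent.H715.TW

open Pool.Agent.H528R2 (Vge val_mul val_div val_pow val_sub val_add val_inv ne_zero_of_val vge_ofNat vge_int)

namespace ZZaux

lemma P0_ne : P0 ≠ 0 := by
  intro h
  exact WeierstrassCurve.Affine.Point.some_ne_zero P0_ns h

lemma X1 : ptX P0 = -32 := rfl
lemma Y1 : ptY P0 = 96 := rfl

lemma point_ext {P Q : Pt} (hP : P ≠ 0) (hQ : Q ≠ 0) (hX : ptX P = ptX Q)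
    (hY : ptY P = ptY Q) : P = Q := by
  cases P with
  | zero => exact absurd rfl hP
  | some x y h =>
    cases Q with
    | zero => exact absurd rfl hQ
    | some x' y' h' =>
      change x = x' at hX
      change y = y' at hY
      subst hX
      subst hY
      rfl

lemma ne_of_X {P : Pt} {x : ℚ} (h : ptX P = x) (hx : x ≠ 0) : P ≠ 0 := by
  rintro rfl
  exact hx h.symm

/-- doubling in coordinates, with numerical values -/
lemma dbl_val {P : Pt} {a b : ℚ} (hP : P ≠ 0) (h1 : ptX P = a) (h2 : ptY P = b) (hb : b ≠ 0) :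
    ptX (P + P) = ((3 * a ^ 2 + 210 * a + 2048) / (2 * b)) ^ 2 - 105 - 2 * a ∧
    ptY (P + P) = -((3 * a ^ 2 + 210 * a + 2048) / (2 * b) * (ptX (P + P) - a) + b) := by
  have h := pt_dbl hP (by rw [h2]; exact hb)
  simp only [h1, h2] at h
  exact ⟨h.2.1, h.2.2.2⟩

lemma add_val {P Q : Pt} {a b c d : ℚ} (hP : P ≠ 0) (hQ : Q ≠ 0) (h1 : ptX P = a)
    (h2 : ptY P = b) (h3 : ptX Q = c) (h4 : ptY Q = d) (h : a ≠ c) :
    ptX (P + Q) = ((b - d) / (a - c)) ^ 2 - 105 - a - c ∧
    ptY (P + Q) = -((b - d) / (a - c) * (ptX (P + Q) - a) + b) := by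
  have := pt_add hP hQ (by rw [h1, h3]; exact h)
  simp only [h1, h2, h3, h4] at this
  exact ⟨this.2.1, this.2.2⟩

end ZZaux

open ZZaux

theorem zz_one : zz 1 = -32 := by simp [zz, X1]
theorem yy_one : yy 1 = 96 := by simp [yy, Y1]

namespace ZZaux

lemma zz_ne {n : ℤ} {x : ℚ} (h : zz n = x) (hx : x ≠ 0) : n • P0 ≠ 0 := ne_of_X h hx

lemma dbl_zz {n : ℤ} {a b : ℚ} (h1 : zz n = a) (h2 : yy n = b) (ha : a ≠ 0) (hb : b ≠ 0) :
    zz (2 * n) = ((3 * a ^ 2 + 210 * a + 2048) / (2 * b)) ^ 2 - 105 - 2 * a ∧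
    yy (2 * n) = -((3 * a ^ 2 + 210 * a + 2048) / (2 * b) * (zz (2 * n) - a) + b) := by
  have := dbl_val (zz_ne h1 ha) h1 h2 hb
  unfold zz yy
  rw [two_mul, add_zsmul]
  exact this

lemma add_zz {m n : ℤ} {a b c d : ℚ} (h1 : zz m = a) (h2 : yy m = b) (h3 : zz n = c)
    (h4 : yy n = d) (ha : a ≠ 0) (hc : c ≠ 0) (h : a ≠ c) :
    zz (m + n) = ((b - d) / (a - c)) ^ 2 - 105 - a - c ∧
    yy (m + n) = -((b - d) / (a - c) * (zz (m + n) - a) + b) := by
  have := add_val (zz_ne h1 ha) (zz_ne h3 hc) h1 h2 h3 h4 h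
  unfold zz yy
  rw [add_zsmul]
  exact this

end ZZaux

theorem zz_two : zz 2 = 256 / 9 := by
  have h := (dbl_zz zz_one yy_one (by norm_num) (by norm_num)).1
  norm_num at h
  exact h

theorem yy_two : yy 2 = 11008 / 27 := by
  have h := (dbl_zz zz_one yy_one (by norm_num) (by norm_num)).2
  norm_num [zz_two] at h
  exact h

theorem zz_three : zz 3 = -21632 / 289 := by
  have h := (add_zz zz_two yy_two zz_one yy_one (by norm_num) (by norm_num) (by norm_num)).1
  norm_num at h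
  rw [h]; norm_num

theorem yy_three : yy 3 = 614016 / 4913 := by
  have h := (add_zz zz_two yy_two zz_one yy_one (by norm_num) (by norm_num) (by norm_num)).2
  norm_num [zz_three] at h
  rw [h]

theorem zz_four : zz 4 = 38416 / 16641 := by
  have h := (dbl_zz zz_two yy_two (by norm_num) (by norm_num)).1
  norm_num at h
  exact h

theorem yy_four : yy 4 = -156277072 / 2146689 := by
  have h := (dbl_zz zz_two yy_two (by norm_num) (by norm_num)).2
  norm_num [zz_four] at h
  rw [h]; norm_num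

theorem zz_seven : zz 7 = -13924563323045888 / 537893030335441 := by
  have h := (add_zz zz_four yy_four zz_three yy_three (by norm_num) (by norm_num) (by norm_num)).1
  norm_num at h
  rw [h]; norm_num

theorem yy_seven : yy 7 = 6578903822122585448448 / 12475095401808352436761 := by
  have h := (add_zz zz_four yy_four zz_three yy_three (by norm_num) (by norm_num) (by norm_num)).2
  norm_num [zz_seven] at h
  rw [h]

theorem zz_eight : zz 8 = 312474419038422592576 / 1587559410619435449 := by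
  have h := (dbl_zz zz_four yy_four (by norm_num) (by norm_num)).1
  norm_num at h
  exact h

theorem zz_fourteen : zz 14 = 37890323465335790656460495553885874042229136614334787007809 /
    22202561341282753947707255618622015317990303957849664 := by
  have h := (dbl_zz zz_seven yy_seven (by norm_num) (by norm_num)).1
  norm_num at h
  exact h

theorem smul_P0_ne {n : ℤ} (hn : n ≠ 0) : n • P0 ≠ 0 := by
  intro h
  have hp : padicValRat 3 (ptX ((2 : ℤ) • P0)) < 0 := by
    have e : ptX ((2 : ℤ) • P0) = 256 / 9 := zz_two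
    rw [e]
    have : Fact (Nat.Prime 3) := ⟨by norm_num⟩
    rw [padicValRat.div (by norm_num) (by norm_num)]
    have h1 : padicValRat 3 (256 : ℚ) = 0 := by
      have : ((256 : ℕ) : ℚ) = 256 := by norm_num
      rw [← this, padicValRat.of_nat, padicValNat.eq_zero_of_not_dvd (by norm_num)]
      rfl
    have h2 : padicValRat 3 (9 : ℚ) = 2 := by
      have : ((3 ^ 2 : ℕ) : ℚ) = 9 := by norm_num
      rw [← this, padicValRat.of_nat, padicValNat.prime_pow]
      rfl
    rw [h1, h2]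
    norm_num
  have := (pole_smul (by norm_num : Nat.Prime 3) hp hn).1
  apply this
  rw [← mul_zsmul, mul_comm, mul_zsmul, h]
  exact zsmul_zero 2

theorem zz_neg (n : ℤ) : zz (-n) = zz n := by
  unfold zz
  rw [neg_zsmul, ptX_neg]

theorem yy_neg (n : ℤ) : yy (-n) = - yy n := by
  unfold yy
  rw [neg_zsmul, ptY_neg]

theorem dd_neg (s : ℕ) (n : ℤ) : dd s (-n) = dd s n := by
  unfold dd
  rw [zz_neg]

theorem yy_ne {n : ℤ} (hn : n ≠ 0) : yy n ≠ 0 := by
  intro h
  have h1 := smul_P0_ne hn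
  have h2 := smul_P0_ne (mul_ne_zero two_ne_zero hn)
  apply h2
  rw [mul_zsmul, two_zsmul]
  have e : -(n • P0) = n • P0 := by
    have hX : ptX (-(n • P0)) = ptX (n • P0) := ptX_neg _
    have hY : ptY (-(n • P0)) = ptY (n • P0) := by
      rw [ptY_neg]
      change -(yy n) = yy n
      rw [h, neg_zero]
    exact point_ext (neg_ne_zero.mpr h1) h1 hX hY
  nth_rewrite 1 [← e]
  rw [neg_add_cancel]

theorem zz_ne0 {n : ℤ} (hn : n ≠ 0) : zz n ≠ 0 := by
  intro h
  exact yy_ne hn ((ptY_eq_zero_iff (smul_P0_ne hn)).mpr h)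

theorem curve_eq {n : ℤ} (hn : n ≠ 0) : yy n ^ 2 = zz n ^ 3 + 105 * zz n ^ 2 + 2048 * zz n :=
  pt_eq (smul_P0_ne hn)

theorem zz_eq_iff {m n : ℤ} (hm : m ≠ 0) (hn : n ≠ 0) : zz m = zz n ↔ m = n ∨ m = -n := by
  have hinj : ∀ a b : ℤ, a • P0 = b • P0 → a = b := by
    intro a b h
    by_contra hne
    apply smul_P0_ne (sub_ne_zero.mpr hne)
    rw [sub_zsmul, h, add_neg_cancel]
  unfold zz
  rw [ptX_eq_iff (smul_P0_ne hm) (smul_P0_ne hn)]
  constructor
  · rintro (h | h)
    · exact Or.inl (hinj _ _ h)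
    · right
      apply hinj
      rw [neg_zsmul, h]
  · rintro (h | h)
    · left; rw [h]
    · right; rw [h, neg_zsmul]

lemma zz_ne' {m n : ℤ} (hm : m ≠ 0) (hn : n ≠ 0) (h1 : m ≠ n) (h2 : m ≠ -n) : zz m ≠ zz n := by
  intro h
  rcases (zz_eq_iff hm hn).1 h with h | h
  · exact h1 h
  · exact h2 h

lemma zz_add_formula {m n : ℤ} (hm : m ≠ 0) (hn : n ≠ 0) (h : zz m ≠ zz n) :
    zz (m + n) = ((yy m - yy n) / (zz m - zz n)) ^ 2 + (-105 - zz m - zz n) := by
  have := (pt_add (smul_P0_ne hm) (smul_P0_ne hn) h).2.1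
  unfold zz yy at *
  rw [add_zsmul, this]; ring

lemma zz_sub_formula {m n : ℤ} (hm : m ≠ 0) (hn : n ≠ 0) (h : zz m ≠ zz n) :
    zz (m - n) = ((yy m + yy n) / (zz m - zz n)) ^ 2 + (-105 - zz m - zz n) := by
  have h' : zz m ≠ zz (-n) := by rwa [zz_neg]
  have := zz_add_formula hm (neg_ne_zero.2 hn) h'
  rw [zz_neg, yy_neg] at this
  rw [sub_eq_add_neg, this, sub_neg_eq_add]

lemma zz_prod_formula {m n : ℤ} (hm : m ≠ 0) (hn : n ≠ 0) (h : zz m ≠ zz n) :
    zz (m + n) * zz (m - n) = ((zz m * zz n - 2048) / (zz m - zz n)) ^ 2 := by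
  have := pt_prod (smul_P0_ne hm) (smul_P0_ne hn) h
  unfold zz at *
  rw [add_zsmul, sub_zsmul, ← sub_eq_add_neg, this]

lemma zz_sum_formula {m n : ℤ} (hm : m ≠ 0) (hn : n ≠ 0) (h : zz m ≠ zz n) :
    zz (m + n) + zz (m - n) =
      2 * ((zz m + zz n) * (zz m * zz n + 2048) + 210 * zz m * zz n) / (zz m - zz n) ^ 2 := by
  have := pt_sum (smul_P0_ne hm) (smul_P0_ne hn) h
  unfold zz at *
  rw [add_zsmul, sub_zsmul, ← sub_eq_add_neg, this]

lemma zz_dbl {n : ℤ} (hn : n ≠ 0) : zz (2 * n) = ((zz n ^ 2 - 2048) / (2 * yy n)) ^ 2 := by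
  have := (pt_dbl (smul_P0_ne hn) (yy_ne hn)).2.2.1
  unfold zz yy at *
  rw [two_mul, add_zsmul, this]

namespace ZZaux

lemma prod {n : ℤ} (h0 : n ≠ 0) (h1 : n ≠ 1) (h2 : n ≠ -1) :
    zz (n + 1) * zz (n - 1) = ((zz n * (-32) - 2048) / (zz n - (-32))) ^ 2 := by
  have hne : zz n ≠ zz 1 := zz_ne' h0 one_ne_zero h1 h2
  have := zz_prod_formula h0 one_ne_zero hne
  rw [this, zz_one]

lemma sq_step {n : ℤ} (h1 : 2 ≤ n) (c : ℚ) (hc : c ≠ 0) (h : IsSquare (c * zz (n - 1))) :
    IsSquare (c * zz (n + 1)) := by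
  have hp := prod (n := n) (by omega) (by omega) (by omega)
  obtain ⟨r, hr⟩ := h
  have hz : zz (n - 1) ≠ 0 := zz_ne0 (by omega)
  have hr0 : r ≠ 0 := by
    rintro rfl
    rw [mul_zero] at hr
    exact mul_ne_zero hc hz hr
  refine ⟨c * ((zz n * (-32) - 2048) / (zz n - (-32))) / r, ?_⟩
  have e : c * zz (n + 1) = c ^ 2 * (zz (n + 1) * zz (n - 1)) / (c * zz (n - 1)) := by
    field_simp
  rw [e, hp, hr]
  field_simp

end ZZaux

/-- the classes of `zz n` modulo squares -/
theorem sq_even {n : ℤ} (h : Even n) : IsSquare (zz n) := by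
  have key : ∀ k : ℕ, IsSquare (1 * zz (2 * k)) := by
    intro k
    induction k with
    | zero => simp [zz, ptX]
    | succ k ih =>
      rcases Nat.eq_zero_or_pos k with rfl | hk
      · refine ⟨16 / 3, ?_⟩
        norm_num [zz_two]
      · have := sq_step (n := 2 * k + 1) (by omega) 1 one_ne_zero
          (by simpa using ih)
        have e : (2 * ((k + 1 : ℕ) : ℤ)) = 2 * (k : ℤ) + 1 + 1 := by push_cast; ring
        rw [e]
        exact this
  obtain ⟨m, rfl⟩ := h
  rcases Int.eq_nat_or_neg m with ⟨k, rfl | rfl⟩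
  · have := key k
    rw [one_mul, two_mul] at this
    exact this
  · have := key k
    rw [one_mul, two_mul] at this
    have e : (-(k : ℤ) + -(k : ℤ)) = -((k : ℤ) + k) := by ring
    rw [e, zz_neg]
    exact this

theorem sq_odd {n : ℤ} (h : Odd n) : IsSquare ((-2) * zz n) := by
  have key : ∀ k : ℕ, IsSquare ((-2) * zz (2 * k + 1)) := by
    intro k
    induction k with
    | zero =>
      refine ⟨8, ?_⟩
      norm_num [zz_one]
    | succ k ih =>
      have := sq_step (n := 2 * k + 2) (by omega) (-2) (by norm_num)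
        (by
          have e : (2 * (k : ℤ) + 2 - 1) = 2 * k + 1 := by ring
          rw [e]; exact ih)
      have e : (2 * ((k + 1 : ℕ) : ℤ) + 1) = 2 * (k : ℤ) + 2 + 1 := by push_cast; ring
      rw [e]
      exact this
  obtain ⟨m, rfl⟩ := h
  rcases Int.eq_nat_or_neg m with ⟨k, rfl | rfl⟩
  · exact key k
  · rcases Nat.eq_zero_or_pos k with rfl | hk
    · simpa using key 0
    · obtain ⟨j, rfl⟩ : ∃ j, k = j + 1 := ⟨k - 1, by omega⟩
      have := key j
      have e : (2 * (-((j + 1 : ℕ) : ℤ)) + 1) = -(2 * (j : ℤ) + 1) := by push_cast; ring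
      rw [e, zz_neg]
      exact this

end Pool.Agent.H715.TW
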